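import Pool.Agent.W211.Main

/-!
The box theorem for all covers with an absolute constant: thinning the cover.
-/

namespace Pool.Agent.W211

open Finset
open Pool.Agent.H488R3.UC

set_option linter.unusedSectionVars false

variable {n : ℕ} {κ : Type*} [Fintype κ] [DecidableEq κ]

/-- the weight of a set: how often it is picked -/
noncomputable def Pw {Ω : Type*} [Fintype Ω] (T : Ω → Finset (Fin n)) (A : Finset (Fin n)) : ℝ :=
  ((univ.filter (fun ω => T ω = A)).card : ℝ) / Fintype.card Ω

theorem Pw_sum {Ω : Type*} [Fintype Ω] (T : Ω → Finset (Fin n)) (f : Finset (Fin n) → ℝ) :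
    ∑ A, Pw T A * f A = (∑ ω, f (T ω)) / Fintype.card Ω := by
  classical
  have h1 : ∑ ω, f (T ω) = ∑ A : Finset (Fin n), ∑ ω ∈ univ.filter (fun ω => T ω = A), f (T ω) :=
    (sum_fiberwise_of_maps_to (fun ω _ => mem_univ (T ω)) _).symm
  rw [h1, sum_div]
  apply sum_congr rfl
  intro A _
  have h2 : ∑ ω ∈ univ.filter (fun ω => T ω = A), f (T ω)
      = ((univ.filter (fun ω => T ω = A)).card : ℝ) * f A := by
    rw [← nsmul_eq_mul, ← sum_const]
    apply sum_congr rfl
    intro ω hω
    rw [(mem_filter.mp hω).2]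
  rw [h2]
  unfold Pw
  ring

theorem Pw_ite {Ω : Type*} [Fintype Ω] (T : Ω → Finset (Fin n)) (E : Finset (Fin n) → Prop)
    [DecidablePred E] :
    ∑ A, (if E A then Pw T A else 0)
      = ((univ.filter (fun ω => E (T ω))).card : ℝ) / Fintype.card Ω := by
  have h1 := Pw_sum T (fun A => if E A then (1 : ℝ) else 0)
  have h2 : ∑ ω, (if E (T ω) then (1 : ℝ) else 0) = ((univ.filter (fun ω => E (T ω))).card : ℝ) := by
    rw [sum_boole]
  rw [← h2, ← h1]
  apply sum_congr rfl
  intro A _
  split_ifs <;> simp

/-- the box theorem for all covers -/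
theorem gen_box2 (g : κ → Finset (Fin n)) (m s : ℕ) (hs0 : 0 < s) (hsκ : s ≤ Fintype.card κ)
    (hm : ∀ v, m ≤ cn g univ v)
    (hsep : ∀ i j : Fin n, i ≠ j → s ≤ (univ.filter (fun k => i ∈ g k ∧ j ∉ g k)).card)
    (hsm : s ≤ m)
    (S : Finset (Fin n → ℤ)) (hS : S.Nonempty) :
    ∃ B : Fin n → Finset ℤ, (s : ℝ) * ((symmDiff S (Fintype.piFinset B)).card : ℝ)
      ≤ 30 * 10 ^ 7 * 80 ^ 25 * (∑ k, hN S (g k) - m * hN S univ) := by
  classical
  have hsR : (0 : ℝ) < s := by exact_mod_cast hs0
  have hκ0 : 0 < Fintype.card κ := lt_of_lt_of_le hs0 hsκ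
  have hκR : (0 : ℝ) < Fintype.card κ := by exact_mod_cast hκ0
  choose K hKsub hKcard hKun using
    fun v : Fin n => two_sub (univ.filter (fun k => v ∈ g k)) m (hm v)
  set gq : (Fin n → Bool) → κ → Finset (Fin n) :=
    fun q k => univ.filter (fun v => k ∈ K v (q v)) with hgq
  have hmem : ∀ q k v, v ∈ gq q k ↔ k ∈ K v (q v) := by
    intro q k v; simp [hgq]
  have hsubg : ∀ q k, gq q k ⊆ g k := by
    intro q k v hv
    rw [hmem] at hv
    have := hKsub v (q v) hv
    simpa using this
  -- separation of the thinned families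
  set X : Fin n → Fin n → (Fin n → Bool) → ℕ := fun i j q => (K i (q i) \ K j (q j)).card with hX
  have hXs : ∀ i j, i ≠ j → ∀ q, s ≤ X i j q + X i j (Function.update q i (!q i)) := by
    intro i j hij q
    have e1 : Function.update q i (!q i) i = !q i := Function.update_self ..
    have e2 : Function.update q i (!q i) j = q j := Function.update_of_ne hij.symm ..
    simp only [hX]
    rw [e1, e2]
    have h1 : ((K i true ∪ K i false) \ K j (q j)).card
        ≤ (K i (q i) \ K j (q j)).card + (K i (!q i) \ K j (q j)).card := by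
      refine le_trans (card_le_card ?_) (card_union_le _ _)
      intro x hx
      rw [mem_sdiff, mem_union] at hx
      rw [mem_union, mem_sdiff, mem_sdiff]
      cases hq : q i <;> simp [hq] at hx ⊢ <;> tauto
    refine le_trans ?_ h1
    rcases hKun i with h | h
    · refine (hsep i j hij).trans (card_le_card ?_)
      intro k hk
      rw [mem_filter] at hk
      rw [mem_sdiff]
      refine ⟨h (by simpa using hk.2.1), fun hkj => ?_⟩
      have := hKsub j (q j) hkj
      simp only [mem_filter, mem_univ, true_and] at this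
      exact hk.2.2 this
    · have h2 := le_card_sdiff (K j (q j)) (K i true ∪ K i false)
      rw [h, hKcard] at h2
      omega
  set Q : ℝ := 2 ^ n with hQ
  have hQ0 : 0 < Q := by rw [hQ]; positivity
  have hQc : (Fintype.card (Fin n → Bool) : ℝ) = Q := by
    rw [Fintype.card_fun, Fintype.card_bool, Fintype.card_fin, hQ]; push_cast; rfl
  have hΩc : (Fintype.card ((Fin n → Bool) × κ) : ℝ) = Q * Fintype.card κ := by
    rw [Fintype.card_prod]
    push_cast
    rw [← hQc]
  set T : (Fin n → Bool) × κ → Finset (Fin n) := fun ω => gq ω.1 ω.2 with hT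
  have hcard : ∀ (E : (Fin n → Bool) × κ → Prop) [DecidablePred E],
      ((univ.filter E).card : ℝ)
        = ∑ q : Fin n → Bool, ((univ.filter (fun k => E (q, k))).card : ℝ) := by
    intro E _
    have h1 : ((univ.filter E).card : ℝ) = ∑ ω, if E ω then (1 : ℝ) else 0 := by rw [sum_boole]
    rw [h1, Fintype.sum_prod_type]
    apply sum_congr rfl
    intro q _
    rw [sum_boole]
  have hCv : Cv (Pw T) ((m : ℝ) / Fintype.card κ) ((s : ℝ) / (2 * Fintype.card κ)) := by
    refine ⟨?_, ?_, ?_, ?_⟩
    · intro A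
      unfold Pw
      positivity
    · have h1 := Pw_ite T (fun _ => True)
      simp only [if_true, filter_true, card_univ] at h1
      rw [h1]
      apply div_self
      rw [hΩc]
      positivity
    · intro i
      rw [Pw_ite T (fun A => i ∈ A), hcard, hΩc]
      have h2 : ∀ q : Fin n → Bool, ((univ.filter (fun k => i ∈ T (q, k))).card : ℝ) = m := by
        intro q
        rw [← hKcard i (q i)]
        congr 2
        ext k
        simp [hT, hmem]
      simp only [h2]
      rw [sum_const, nsmul_eq_mul, card_univ, hQc]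
      field_simp
    · intro i j hij
      rw [Pw_ite T (fun A => i ∈ A ∧ j ∉ A), hcard, hΩc]
      have h2 : ∀ q : Fin n → Bool,
          ((univ.filter (fun k => i ∈ T (q, k) ∧ j ∉ T (q, k))).card : ℝ) = X i j q := by
        intro q
        simp only [hX]
        congr 2
        ext k
        simp [hT, hmem]
      simp only [h2]
      have hinv : Function.Involutive (fun q : Fin n → Bool => Function.update q i (!q i)) := by
        intro q
        simp
      have h3 : ∑ q : Fin n → Bool, (X i j (Function.update q i (!q i)) : ℝ)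
          = ∑ q : Fin n → Bool, (X i j q : ℝ) :=
        Equiv.sum_comp hinv.toPerm (fun q => (X i j q : ℝ))
      have h4 : ∑ q : Fin n → Bool, (s : ℝ)
          ≤ ∑ q : Fin n → Bool, ((X i j q : ℝ) + X i j (Function.update q i (!q i))) := by
        apply sum_le_sum
        intro q _
        exact_mod_cast hXs i j hij q
      rw [sum_add_distrib, h3, sum_const, nsmul_eq_mul, card_univ, hQc] at h4
      rw [div_le_div_iff₀ (by positivity) (by positivity)]
      nlinarith
  have hs1 : (s : ℝ) / (2 * Fintype.card κ) ≤ 1 := by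
    rw [div_le_one (by positivity)]
    have : (s : ℝ) ≤ Fintype.card κ := by exact_mod_cast hsκ
    linarith
  obtain ⟨B, hB⟩ := box_lin (Pw T) _ _ hCv (by positivity) hs1 S hS
  refine ⟨B, ?_⟩
  have hDf : Df (Pw T) ((m : ℝ) / Fintype.card κ) S
      ≤ (∑ k, hN S (g k) - m * hN S univ) / Fintype.card κ := by
    unfold Df
    rw [Pw_sum, hΩc, Fintype.sum_prod_type]
    have h1 : ∑ q : Fin n → Bool, ∑ k, hN S (T (q, k)) ≤ Q * ∑ k, hN S (g k) := by
      have h2 : ∀ q ∈ (univ : Finset (Fin n → Bool)), ∑ k, hN S (T (q, k)) ≤ ∑ k, hN S (g k) :=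
        fun q _ => sum_le_sum (fun k _ => hN_mono S (hsubg q k))
      refine (sum_le_sum h2).trans (le_of_eq ?_)
      rw [sum_const, nsmul_eq_mul, card_univ, hQc]
    have h2 : (∑ q : Fin n → Bool, ∑ k, hN S (T (q, k))) / (Q * Fintype.card κ)
        ≤ (∑ k, hN S (g k)) / Fintype.card κ := by
      rw [div_le_div_iff₀ (by positivity) hκR]
      have := mul_le_mul_of_nonneg_right h1 hκR.le
      linarith
    rw [sub_div]
    have h3 : (m : ℝ) / Fintype.card κ * hN S univ = m * hN S univ / Fintype.card κ := by ring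
    linarith
  have h1 := hB.trans (mul_le_mul_of_nonneg_left hDf (by positivity))
  have h2 := mul_le_mul_of_nonneg_left h1 (show (0 : ℝ) ≤ 2 * Fintype.card κ by positivity)
  have h3 : 2 * (Fintype.card κ : ℝ) * ((s : ℝ) / (2 * Fintype.card κ)
      * ((symmDiff S (Fintype.piFinset B)).card : ℝ))
      = s * ((symmDiff S (Fintype.piFinset B)).card : ℝ) := by
    field_simp
  have h4 : 2 * (Fintype.card κ : ℝ) * (15 * 10 ^ 7 * 80 ^ 25
      * ((∑ k, hN S (g k) - m * hN S univ) / Fintype.card κ))
      = 30 * 10 ^ 7 * 80 ^ 25 * (∑ k, hN S (g k) - m * hN S univ) := by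
    field_simp
    ring
  rw [h3, h4] at h2
  exact h2

end Pool.Agent.W211
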