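import Mathlib

/-! Multicolour Ramsey theorem for graphs (finite), by the pivot argument. -/

set_option autoImplicit false

namespace Pool.Agent.W211.ZSF

open Finset

theorem pivot {C : Type} [Fintype C] [DecidableEq C] (L : ℕ) :
    ∃ N : ℕ, ∀ (V : Type) [DecidableEq V] (S : Finset V) (c : Sym2 V → C), N ≤ S.card →
      ∃ (x : Fin L → V) (col : Fin L → C), Function.Injective x ∧ (∀ i, x i ∈ S) ∧
        ∀ i j, i < j → c s(x i, x j) = col i := by
  induction L with
  | zero =>
    refine ⟨0, fun V _ S c _ => ⟨Fin.elim0, Fin.elim0, fun i => i.elim0, fun i => i.elim0, fun i => i.elim0⟩⟩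
  | succ L ih =>
    obtain ⟨N, hN⟩ := ih
    refine ⟨1 + Fintype.card C * N, fun V _ S c hS => ?_⟩
    have hne : S.Nonempty := by
      rw [← Finset.card_pos]; omega
    obtain ⟨v, hv⟩ := hne
    have hC : (univ : Finset C).Nonempty := ⟨c s(v, v), mem_univ _⟩
    have hcard : (univ : Finset C).card * N ≤ (S.erase v).card := by
      rw [Finset.card_erase_of_mem hv, Finset.card_univ]; omega
    obtain ⟨y, -, hy⟩ := Finset.exists_le_card_fiber_of_mul_le_card_of_maps_to
      (f := fun u => c s(v, u)) (s := S.erase v) (t := univ) (fun _ _ => mem_univ _) hC hcard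
    obtain ⟨x, col, hx, hxS, hxc⟩ := hN V _ c hy
    have hxS' : ∀ i, x i ≠ v ∧ x i ∈ S ∧ c s(v, x i) = y := by
      intro i
      have := hxS i
      simp only [mem_filter, mem_erase] at this
      exact ⟨this.1.1, this.1.2, this.2⟩
    refine ⟨Fin.cons v x, Fin.cons y col, ?_, ?_, ?_⟩
    · rw [Fin.cons_injective_iff]
      refine ⟨?_, hx⟩
      rintro ⟨i, hi⟩
      exact (hxS' i).1 hi
    · intro i
      refine Fin.cases ?_ (fun i => ?_) i
      · simpa using hv
      · simpa using (hxS' i).2.1
    · intro i j
      refine Fin.cases ?_ (fun i => ?_) i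
      · refine Fin.cases ?_ (fun j => ?_) j
        · intro h; exact absurd h (lt_irrefl _)
        · intro _
          simpa using (hxS' j).2.2
      · refine Fin.cases ?_ (fun j => ?_) j
        · intro h; exact absurd h (by simp)
        · intro h
          simpa using hxc i j (by simpa using h)

theorem ramsey (C : Type) [Fintype C] [DecidableEq C] (k : ℕ) :
    ∃ N : ℕ, ∀ c : Sym2 (Fin N) → C, ∃ f : Fin k → Fin N, Function.Injective f ∧
      ∃ y : C, ∀ i j, i ≠ j → c s(f i, f j) = y := by
  obtain ⟨N, hN⟩ := pivot (C := C) (Fintype.card C * k + 1)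
  refine ⟨N, fun c => ?_⟩
  obtain ⟨x, col, hx, -, hc⟩ := hN (Fin N) univ c (by simp)
  have hC : (univ : Finset C).Nonempty := ⟨col 0, mem_univ _⟩
  have hcard : (univ : Finset C).card * k ≤ (univ : Finset (Fin (Fintype.card C * k + 1))).card := by
    simp
  obtain ⟨y, -, hy⟩ := Finset.exists_le_card_fiber_of_mul_le_card_of_maps_to
    (f := col) (s := univ) (t := univ) (fun _ _ => mem_univ _) hC hcard
  set I := univ.filter (fun i => col i = y) with hI
  let e : Fin k → Fin (Fintype.card C * k + 1) := fun i => (I.equivFin.symm (Fin.castLE hy i) : _)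
  have he : Function.Injective e := by
    intro i j hij
    have h1 := Subtype.ext hij
    have h2 := I.equivFin.symm.injective h1
    exact Fin.castLE_injective hy h2
  have heI : ∀ i, col (e i) = y := by
    intro i
    have : (e i) ∈ I := (I.equivFin.symm (Fin.castLE hy i)).2
    simpa [hI] using this
  refine ⟨fun i => x (e i), hx.comp he, y, ?_⟩
  intro i j hij
  rcases lt_or_gt_of_ne (fun h => hij (he h)) with h | h
  · rw [hc _ _ h, heI]
  · rw [Sym2.eq_swap, hc _ _ h, heI]

end Pool.Agent.W211.ZSF
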