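import Pool.Agent.W211.ZSU
import Pool.Agent.W211.ZSR

/-! Zero-sum Ramsey number of `K_{1,13q} ∪ q K_2` is at least `28 q - 1`. -/

set_option autoImplicit false
open scoped Classical

namespace Pool.Agent.W211.ZSF

open Finset

/-- 0 on the first `t` vertices, 1 on the others -/
def chi (t : ℕ) {N : ℕ} (x : Fin N) : ℕ := if x.val < t then 0 else 1

/-- the colouring of the lower bound -/
def col (m t N : ℕ) : Sym2 (Fin N) → ZMod m :=
  Sym2.lift ⟨fun x y => ((chi t x + chi t y : ℕ) : ZMod m), fun x y => by
    show ((chi t x + chi t y : ℕ) : ZMod m) = ((chi t y + chi t x : ℕ) : ZMod m)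
    rw [add_comm]⟩

theorem col_mk (m t N : ℕ) (x y : Fin N) : col m t N s(x, y) = ((chi t x + chi t y : ℕ) : ZMod m) := rfl

theorem sum_D (p q : ℕ) (a : Fin (p + 1 + 2 * q) → ℕ) :
    ∑ v ∈ D p q, (a (par p q v) + a v) = p * a ⟨0, by omega⟩ +
      ∑ v ∈ univ.filter (fun v : Fin (p + 1 + 2 * q) => v.val ≠ 0), a v := by
  set D1 : Finset (Fin (p + 1 + 2 * q)) := univ.filter fun v => 1 ≤ v.val ∧ v.val ≤ p with hD1
  set D2 : Finset (Fin (p + 1 + 2 * q)) := univ.filter fun v => p + q < v.val with hD2
  set D3 : Finset (Fin (p + 1 + 2 * q)) := univ.filter fun v => p < v.val ∧ v.val ≤ p + q with hD3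
  have hD : D p q = D1 ∪ D2 := by
    ext v
    simp only [D, D1, D2, mem_filter, mem_univ, true_and, mem_union]
  have h12 : Disjoint D1 D2 := by
    rw [Finset.disjoint_left]
    intro v h1 h2
    simp only [D1, D2, mem_filter, mem_univ, true_and] at h1 h2
    omega
  have hN : univ.filter (fun v : Fin (p + 1 + 2 * q) => v.val ≠ 0) = (D1 ∪ D2) ∪ D3 := by
    ext v
    simp only [D1, D2, D3, mem_filter, mem_univ, true_and, mem_union]
    omega
  have h123 : Disjoint (D1 ∪ D2) D3 := by
    rw [Finset.disjoint_left]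
    intro v h1 h2
    simp only [D1, D2, D3, mem_filter, mem_univ, true_and, mem_union] at h1 h2
    omega
  have hc1 : D1.card = p := by
    have : D1.card = (Finset.Icc 1 p).card := by
      refine Finset.card_bij (fun v _ => v.val) ?_ ?_ ?_
      · intro v hv
        simp only [D1, mem_filter, mem_univ, true_and] at hv
        simpa using hv
      · intro v _ w _ h
        exact Fin.ext h
      · intro n hn
        rw [Finset.mem_Icc] at hn
        exact ⟨⟨n, by omega⟩, by simp only [D1, mem_filter, mem_univ, true_and]; exact hn, rfl⟩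
    rw [this]; simp
  rw [hD, hN, Finset.sum_union h12, Finset.sum_union h123, Finset.sum_union h12]
  have e1 : ∑ v ∈ D1, (a (par p q v) + a v) = p * a ⟨0, by omega⟩ + ∑ v ∈ D1, a v := by
    rw [Finset.sum_add_distrib]
    congr 1
    have : ∀ v ∈ D1, a (par p q v) = a ⟨0, by omega⟩ := by
      intro v hv
      simp only [D1, mem_filter, mem_univ, true_and] at hv
      congr 1
      apply Fin.ext
      simp only [par]
      rw [if_pos hv.2]
    rw [Finset.sum_congr rfl this, Finset.sum_const, hc1, smul_eq_mul]
  have e2 : ∑ v ∈ D2, (a (par p q v) + a v) = ∑ v ∈ D3, a v + ∑ v ∈ D2, a v := by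
    rw [Finset.sum_add_distrib]
    congr 1
    refine Finset.sum_nbij (par p q) ?_ ?_ ?_ ?_
    · intro v hv
      have := v.2
      simp only [D2, D3, mem_filter, mem_univ, true_and, par] at hv ⊢
      rw [if_neg (by omega)]
      omega
    · intro v hv w hw h
      have h1 := v.2
      have h2 := w.2
      simp only [D2, coe_filter, Set.mem_ofPred_eq, mem_univ, true_and] at hv hw
      simp only [par, Fin.mk.injEq] at h
      rw [if_neg (by omega), if_neg (by omega)] at h
      apply Fin.ext
      omega
    · intro v hv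
      have h1 := v.2
      simp only [D3, coe_filter, Set.mem_ofPred_eq, mem_univ, true_and] at hv
      refine ⟨⟨v.val + q, by omega⟩, ?_, ?_⟩
      · simp only [D2, coe_filter, Set.mem_ofPred_eq, mem_univ, true_and]; omega
      · apply Fin.ext
        simp only [par]
        rw [if_neg (by omega)]; omega
    · intro v _; rfl
  rw [e1, e2]
  ring

theorem lower (q : ℕ) (hq : 1 ≤ q) (N : ℕ) (hN : N + 2 ≤ 28 * q)
    (f : Fin (13 * q + 1 + 2 * q) → Fin N) (hf : Function.Injective f) :
    (∑ u : Fin (13 * q + 1 + 2 * q), ∑ v : Fin (13 * q + 1 + 2 * q),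
      (if u < v ∧ (Gr (13 * q) q).Adj u v then col (14 * q) (14 * q - 1) N s(f u, f v) else 0)) ≠ 0 := by
  rw [sum_adj (13 * q) q (fun u v => col (14 * q) (14 * q - 1) N s(f u, f v))]
  simp only [col_mk]
  rw [← Nat.cast_sum, sum_D (13 * q) q (fun v => chi (14 * q - 1) (f v))]
  set t := 14 * q - 1 with ht
  -- number of vertices of each type
  have hA : (univ.filter (fun v : Fin (13 * q + 1 + 2 * q) => (f v).val < t)).card ≤ t := by
    have h1 : ((univ.filter (fun v : Fin (13 * q + 1 + 2 * q) => (f v).val < t)).image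
        (fun v => (f v).val)).card ≤ (Finset.range t).card := by
      apply Finset.card_le_card
      intro n hn
      simp only [mem_image, mem_filter, mem_univ, true_and] at hn
      obtain ⟨v, hv, rfl⟩ := hn
      exact Finset.mem_range.2 hv
    rw [Finset.card_image_of_injective _ (fun v w h => hf (Fin.ext h)), Finset.card_range] at h1
    exact h1
  have hB : (univ.filter (fun v : Fin (13 * q + 1 + 2 * q) => ¬ (f v).val < t)).card ≤ t := by
    have h1 : ((univ.filter (fun v : Fin (13 * q + 1 + 2 * q) => ¬ (f v).val < t)).image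
        (fun v => (f v).val)).card ≤ (Finset.Ico t (28 * q - 2)).card := by
      apply Finset.card_le_card
      intro n hn
      simp only [mem_image, mem_filter, mem_univ, true_and] at hn
      obtain ⟨v, hv, rfl⟩ := hn
      have := (f v).2
      exact Finset.mem_Ico.2 ⟨by omega, by omega⟩
    rw [Finset.card_image_of_injective _ (fun v w h => hf (Fin.ext h)), Nat.card_Ico] at h1
    omega
  have hAB := Finset.card_filter_add_card_filter_not (s := (univ : Finset (Fin (13 * q + 1 + 2 * q))))
    (fun v => (f v).val < t)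
  rw [Finset.card_univ, Fintype.card_fin] at hAB
  -- the sum of chi
  have hsum : ∑ v : Fin (13 * q + 1 + 2 * q), chi t (f v) =
      (univ.filter (fun v : Fin (13 * q + 1 + 2 * q) => ¬ (f v).val < t)).card := by
    rw [Finset.card_filter]
    refine Finset.sum_congr rfl fun v _ => ?_
    unfold chi
    split_ifs <;> rfl
  have hsplit : ∑ v : Fin (13 * q + 1 + 2 * q), chi t (f v) = chi t (f ⟨0, by omega⟩) +
      ∑ v ∈ univ.filter (fun v : Fin (13 * q + 1 + 2 * q) => v.val ≠ 0), chi t (f v) := by
    rw [← Finset.sum_filter_add_sum_filter_not univ (fun v : Fin (13 * q + 1 + 2 * q) => v.val ≠ 0), add_comm]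
    congr 1
    have : univ.filter (fun v : Fin (13 * q + 1 + 2 * q) => ¬ v.val ≠ 0) = {⟨0, by omega⟩} := by
      ext v
      simp only [mem_filter, mem_univ, true_and, not_not, mem_singleton, Fin.ext_iff, ne_eq]
    rw [this, Finset.sum_singleton]
  set S := ∑ v ∈ univ.filter (fun v : Fin (13 * q + 1 + 2 * q) => v.val ≠ 0), chi t (f v) with hS
  intro h0
  rw [ZMod.natCast_eq_zero_iff] at h0
  have hchi : chi t (f ⟨0, by omega⟩) = 0 ∨ chi t (f ⟨0, by omega⟩) = 1 := by
    unfold chi; split_ifs <;> simp
  rcases hchi with h1 | h1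
  · rw [h1] at h0 hsplit
    have h2 : 0 < S ∧ S < 14 * q := by omega
    rw [mul_zero, zero_add] at h0
    exact absurd (Nat.le_of_dvd h2.1 h0) (by omega)
  · rw [h1] at h0 hsplit
    have h2 : 14 * q < 13 * q * 1 + S ∧ 13 * q * 1 + S < 2 * (14 * q) := by omega
    obtain ⟨r, hr⟩ := h0
    rw [hr] at h2
    have h3 : 1 < r := by
      by_contra h
      have : r ≤ 1 := by omega
      have := Nat.mul_le_mul_left (14 * q) this
      omega
    have h4 : r < 2 := by
      by_contra h
      have : 2 ≤ r := by omega
      have := Nat.mul_le_mul_left (14 * q) this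
      omega
    omega

end Pool.Agent.W211.ZSF
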