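import Pool.Agent.W211.Lev

/-!
One boosting step, and its iteration.
-/

namespace Pool.Agent.W211

open Finset
open Pool.Agent.H488R3.UC

variable {n : ℕ}

theorem PN_sep {P : Finset (Fin n) → ℝ} {p s : ℝ} (h : Cv P p s) (R k : ℕ) (hk : 0 < k)
    (hs0 : 0 < s) (i j : Fin n) (hij : i ≠ j) :
    1 / (4 * (k : ℝ)) * (2 * R * s / (1 + 6 * R * s) - R / (2 * (k : ℝ) ^ 2))
      ≤ ∑ A, if i ∈ A ∧ j ∉ A then PN P R ⌈(R : ℝ) * p - k⌉₊ (2 * k) A else 0 := by
  classical
  have hk0 : (0 : ℝ) < k := by exact_mod_cast hk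
  have hR0 : (0 : ℝ) ≤ R := Nat.cast_nonneg _
  set a := ⌈(R : ℝ) * p - k⌉₊ with ha
  -- the indicator functions
  set f : Fin n → Finset (Fin n) → ℝ := fun v A => if v ∈ A then 1 else 0 with hf
  have hfm : ∀ v, ∑ A, P A * f v A = p := by
    intro v
    rw [← h.cov v]
    apply sum_congr rfl
    intro A _
    simp only [hf]
    split_ifs <;> simp
  set ξ : Finset (Fin n) → ℝ := fun A => f i A - f j A with hξ
  have hξ0 : ∑ A, P A * ξ A = 0 := by
    simp only [hξ, mul_sub]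
    rw [sum_sub_distrib, hfm, hfm, sub_self]
  set b : ℝ := ∑ A, P A * ξ A ^ 2 with hb
  have hb4 : ∑ A, P A * ξ A ^ 4 = b := by
    rw [hb]
    apply sum_congr rfl
    intro A _
    congr 1
    simp only [hξ, hf]
    split_ifs <;> norm_num
  have hb2 : 2 * s ≤ b := by
    have h1 := h.sep i j hij
    have h2 := h.sep j i hij.symm
    have h3 : b = ∑ A, (if i ∈ A ∧ j ∉ A then P A else 0)
        + ∑ A, (if j ∈ A ∧ i ∉ A then P A else 0) := by
      rw [hb, ← sum_add_distrib]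
      apply sum_congr rfl
      intro A _
      simp only [hξ, hf]
      by_cases hi : i ∈ A <;> by_cases hj : j ∈ A <;> simp [hi, hj]
    linarith
  -- the variance of the counts
  have hvar : ∀ v, EE P R (fun ω => ((cn ω univ v : ℝ) - R * p) ^ 2) ≤ R / 4 := by
    intro v
    have h1 : ∀ ω : Fin R → Finset (Fin n), (cn ω univ v : ℝ) - R * p
        = Sm (fun A => f v A - p) ω := by
      intro ω
      rw [cn_eq_Sm]
      unfold Sm
      rw [sum_sub_distrib, sum_const, nsmul_eq_mul, card_univ, Fintype.card_fin]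
    have h2 : ∑ A, P A * (f v A - p) = 0 := by
      simp only [mul_sub]
      rw [sum_sub_distrib, hfm, ← sum_mul, h.tot, one_mul, sub_self]
    have h3 : ∑ A, P A * (f v A - p) ^ 2 ≤ 1 / 4 := by
      have h4 : ∀ A, P A * (f v A - p) ^ 2 = (1 - 2 * p) * (P A * f v A) + p ^ 2 * P A := by
        intro A
        simp only [hf]
        split_ifs <;> ring
      rw [sum_congr rfl (fun A _ => h4 A), sum_add_distrib, ← mul_sum, ← mul_sum, hfm, h.tot]
      nlinarith [sq_nonneg (p - 1 / 2)]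
    simp only [h1]
    rw [mom2 P h.tot _ h2]
    have := mul_le_mul_of_nonneg_left h3 hR0
    linarith
  -- moments of the difference
  have hW : ∀ ω : Fin R → Finset (Fin n), (cn ω univ i : ℝ) - cn ω univ j = Sm ξ ω := by
    intro ω
    rw [cn_eq_Sm, cn_eq_Sm]
    unfold Sm
    rw [← sum_sub_distrib]
  have hm2 := mom2 P h.tot ξ hξ0 R
  have hm4 := mom4 P h.tot ξ hξ0 R
  rw [hb4, ← hb] at hm4
  rw [← hb] at hm2
  -- the number of separating levels
  set G : (Fin R → Finset (Fin n)) → ℝ := fun ω => ∑ t ∈ Ico a (a + 2 * k),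
    ((if t < cn ω univ i ∧ ¬ t < cn ω univ j then (1 : ℝ) else 0)
      + (if t < cn ω univ j ∧ ¬ t < cn ω univ i then (1 : ℝ) else 0)) with hG
  set v : ℝ := R * b with hv
  have hv0 : 2 * R * s ≤ v := by
    have := mul_le_mul_of_nonneg_left hb2 hR0
    rw [hv]; linarith
  have hRs : 0 ≤ R * s := mul_nonneg hR0 hs0.le
  have hvnn : 0 ≤ v := by linarith
  set τ : ℝ := 1 / (1 + 3 * v) with hτ
  have h13 : 0 < 1 + 3 * v := by linarith
  have hτ0 : 0 ≤ τ := by rw [hτ]; positivity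
  have hEG : v / (1 + 3 * v) - R / (2 * (k : ℝ) ^ 2) ≤ EE P R G := by
    have h1 : EE P R (fun ω => ((2 * τ) * Sm ξ ω ^ 2 - (τ ^ 2) * Sm ξ ω ^ 4)
        - (1 / (k : ℝ) ^ 2) * (((cn ω univ i : ℝ) - R * p) ^ 2
          + ((cn ω univ j : ℝ) - R * p) ^ 2)) ≤ EE P R G := by
      apply EE_mono P h.nn
      intro ω
      have h2 := lev_pt (cn ω univ i) (cn ω univ j) a k (R * p) τ hk ha
      rw [hW ω] at h2
      have e1 : (1 / (k : ℝ) ^ 2) * (((cn ω univ i : ℝ) - R * p) ^ 2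
          + ((cn ω univ j : ℝ) - R * p) ^ 2)
          = (((cn ω univ i : ℝ) - R * p) ^ 2 + ((cn ω univ j : ℝ) - R * p) ^ 2) / (k : ℝ) ^ 2 := by
        ring
      rw [e1]
      exact h2
    refine le_trans ?_ h1
    rw [EE_sub P R (fun ω => (2 * τ) * Sm ξ ω ^ 2 - (τ ^ 2) * Sm ξ ω ^ 4)
        (fun ω => (1 / (k : ℝ) ^ 2) * (((cn ω univ i : ℝ) - R * p) ^ 2
          + ((cn ω univ j : ℝ) - R * p) ^ 2)),
      EE_sub P R (fun ω => (2 * τ) * Sm ξ ω ^ 2) (fun ω => (τ ^ 2) * Sm ξ ω ^ 4),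
      EE_mul P R (2 * τ) (fun ω => Sm ξ ω ^ 2), EE_mul P R (τ ^ 2) (fun ω => Sm ξ ω ^ 4),
      EE_mul P R (1 / (k : ℝ) ^ 2) (fun ω => ((cn ω univ i : ℝ) - R * p) ^ 2
          + ((cn ω univ j : ℝ) - R * p) ^ 2),
      EE_add P R (fun ω => ((cn ω univ i : ℝ) - R * p) ^ 2)
        (fun ω => ((cn ω univ j : ℝ) - R * p) ^ 2), hm2, hm4]
    have h2 : 1 / (k : ℝ) ^ 2 * (EE P R (fun ω => ((cn ω univ i : ℝ) - R * p) ^ 2)
        + EE P R (fun ω => ((cn ω univ j : ℝ) - R * p) ^ 2)) ≤ 1 / (k : ℝ) ^ 2 * (R / 2) := by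
      apply mul_le_mul_of_nonneg_left _ (by positivity)
      have := hvar i
      have := hvar j
      linarith
    have h3 : (R : ℝ) * b + 3 * R * (R - 1) * b ^ 2 ≤ v + 3 * v ^ 2 := by
      have : 0 ≤ 3 * R * b ^ 2 := by positivity
      rw [hv]; nlinarith
    have h4 := mul_le_mul_of_nonneg_left h3 (sq_nonneg τ)
    have h5 : 2 * τ * (R * b) - τ ^ 2 * (v + 3 * v ^ 2) = v / (1 + 3 * v) := by
      rw [← hv, hτ]
      field_simp
      ring
    have h6 : 1 / (k : ℝ) ^ 2 * (R / 2) = R / (2 * (k : ℝ) ^ 2) := by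
      field_simp
    linarith
  have hEG2 : 2 * R * s / (1 + 6 * R * s) - R / (2 * (k : ℝ) ^ 2) ≤ EE P R G := by
    refine le_trans ?_ hEG
    have h1 : 2 * R * s / (1 + 6 * R * s) ≤ v / (1 + 3 * v) := by
      rw [div_le_div_iff₀ (by linarith) h13]
      nlinarith
    linarith
  -- relation with the separation
  have hU : ∀ x y : Fin n, ∑ A, (if x ∈ A ∧ y ∉ A then PN P R a (2 * k) A else 0)
      = 1 / ((2 * k : ℕ) : ℝ) * ∑ t ∈ Ico a (a + 2 * k), EE P R (fun ω =>
        if t < cn ω univ x ∧ ¬ t < cn ω univ y then (1 : ℝ) else 0) := by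
    intro x y
    have h1 := PN_sum P R a (2 * k) (fun A => if x ∈ A ∧ y ∉ A then 1 else 0)
    simp only [mem_lv] at h1
    rw [← h1]
    apply sum_congr rfl
    intro A _
    split_ifs <;> simp
  have hsum : ∑ A, (if i ∈ A ∧ j ∉ A then PN P R a (2 * k) A else 0)
      + ∑ A, (if j ∈ A ∧ i ∉ A then PN P R a (2 * k) A else 0)
      = 1 / ((2 * k : ℕ) : ℝ) * EE P R G := by
    rw [hU, hU, ← mul_add, ← sum_add_distrib, hG,
      EE_sum (Ico a (a + 2 * k)) P R (fun t ω =>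
        ((if t < cn ω univ i ∧ ¬ t < cn ω univ j then (1 : ℝ) else 0)
        + (if t < cn ω univ j ∧ ¬ t < cn ω univ i then (1 : ℝ) else 0)))]
    congr 1
    apply sum_congr rfl
    intro t _
    exact (EE_add P R (fun ω => if t < cn ω univ i ∧ ¬ t < cn ω univ j then (1 : ℝ) else 0)
      (fun ω => if t < cn ω univ j ∧ ¬ t < cn ω univ i then (1 : ℝ) else 0)).symm
  have heq : ∑ A, (if i ∈ A ∧ j ∉ A then PN P R a (2 * k) A else 0)
      = ∑ A, (if j ∈ A ∧ i ∉ A then PN P R a (2 * k) A else 0) := by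
    have h1 := PN_cov P R a (2 * k) i j (by rw [h.cov, h.cov])
    have h2 : ∀ x y : Fin n, ∑ A, (if x ∈ A then PN P R a (2 * k) A else 0)
        = ∑ A, (if x ∈ A ∧ y ∈ A then PN P R a (2 * k) A else 0)
          + ∑ A, (if x ∈ A ∧ y ∉ A then PN P R a (2 * k) A else 0) := by
      intro x y
      rw [← sum_add_distrib]
      apply sum_congr rfl
      intro A _
      by_cases hx : x ∈ A <;> by_cases hy : y ∈ A <;> simp [hx, hy]
    have h3 : ∑ A, (if j ∈ A ∧ i ∈ A then PN P R a (2 * k) A else 0)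
        = ∑ A, (if i ∈ A ∧ j ∈ A then PN P R a (2 * k) A else 0) := by
      apply sum_congr rfl
      intro A _
      simp only [and_comm]
    rw [h2 i j, h2 j i, h3] at h1
    linarith
  rw [← heq] at hsum
  push_cast at hsum
  have hfin : ∑ A, (if i ∈ A ∧ j ∉ A then PN P R a (2 * k) A else 0)
      = 1 / (4 * (k : ℝ)) * EE P R G := by
    have h1 : 1 / (2 * (k : ℝ)) * EE P R G = 2 * (1 / (4 * (k : ℝ)) * EE P R G) := by
      ring
    rw [h1] at hsum
    linarith
  rw [hfin]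
  exact mul_le_mul_of_nonneg_left hEG2 (by positivity)

end Pool.Agent.W211
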