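import Mathlib

/-!
The variational lower bound for relative entropies of fibre counts, and for conditional mutual
informations.
-/

namespace Pool.Agent.W211

open Finset

variable {α β γ : Type*} [DecidableEq α] [DecidableEq β] [DecidableEq γ]

theorem dvU (T C : Finset α) (hC : C ⊆ T) (k : α → β) (E : α → Prop) [DecidablePred E]
    (hE : ∀ x y, k x = k y → (E x ↔ E y)) (l : ℝ) :
    l * (C.filter E).card - (Real.exp l - 1) * ((C.card : ℝ) / T.card) * (T.filter E).card
      ≤ ∑ x ∈ C, (Real.log T.card - Real.log C.card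
        - Real.log (T.filter (fun y => k y = k x)).card
        + Real.log (C.filter (fun y => k y = k x)).card) := by
  classical
  rcases C.eq_empty_or_nonempty with hne | hne
  · subst hne; simp
  have hTne : T.Nonempty := hne.mono hC
  have hNa : (0 : ℝ) < C.card := by exact_mod_cast card_pos.mpr hne
  have hN0 : (0 : ℝ) < T.card := by exact_mod_cast card_pos.mpr hTne
  set φ : α → ℝ := fun y => if E y then l else 0 with hφ
  have hφc : ∀ y y', k y = k y' → φ y = φ y' := by
    intro y y' h
    simp only [hφ, hE y y' h]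
  have hF : ∀ y ∈ C, (0 : ℝ) < (T.filter (fun z => k z = k y)).card := by
    intro y hy
    have h : (T.filter (fun z => k z = k y)).Nonempty := ⟨y, mem_filter.mpr ⟨hC hy, rfl⟩⟩
    exact_mod_cast card_pos.mpr h
  have hG : ∀ y ∈ C, (0 : ℝ) < (C.filter (fun z => k z = k y)).card := by
    intro y hy
    have h : (C.filter (fun z => k z = k y)).Nonempty := ⟨y, mem_filter.mpr ⟨hy, rfl⟩⟩
    exact_mod_cast card_pos.mpr h
  have h1 : ∀ y ∈ C, φ y + 1 - ((C.card : ℝ) / T.card)
      * (((T.filter (fun z => k z = k y)).card : ℝ) / (C.filter (fun z => k z = k y)).card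
        * Real.exp (φ y))
      ≤ Real.log T.card - Real.log C.card - Real.log (T.filter (fun z => k z = k y)).card
        + Real.log (C.filter (fun z => k z = k y)).card := by
    intro y hy
    have a1 := hF y hy
    have a2 := hG y hy
    have h2 := Real.log_le_sub_one_of_pos
      (mul_pos (div_pos hNa hN0) (mul_pos (div_pos a1 a2) (Real.exp_pos (φ y))))
    rw [Real.log_mul (div_pos hNa hN0).ne' (mul_pos (div_pos a1 a2) (Real.exp_pos (φ y))).ne',
      Real.log_mul (div_pos a1 a2).ne' (Real.exp_pos (φ y)).ne', Real.log_exp,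
      Real.log_div hNa.ne' hN0.ne', Real.log_div a1.ne' a2.ne'] at h2
    linarith
  have h2 := sum_le_sum h1
  refine le_trans ?_ h2
  rw [sum_sub_distrib, sum_add_distrib, sum_const, nsmul_eq_mul, mul_one, ← mul_sum]
  have e1 : ∑ y ∈ C, φ y = l * (C.filter E).card := by
    simp only [hφ]
    rw [← sum_filter, sum_const, nsmul_eq_mul, mul_comm]
  have h3 : ∑ y ∈ C, ((T.filter (fun z => k z = k y)).card : ℝ)
        / (C.filter (fun z => k z = k y)).card * Real.exp (φ y)
      ≤ ∑ x ∈ T, Real.exp (φ x) := by
    have e2 : ∀ y ∈ C, ((T.filter (fun z => k z = k y)).card : ℝ)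
        / (C.filter (fun z => k z = k y)).card * Real.exp (φ y)
        = ∑ x ∈ T, (if k x = k y then
          1 / ((C.filter (fun z => k z = k y)).card : ℝ) * Real.exp (φ y) else 0) := by
      intro y _
      rw [← sum_filter, sum_const, nsmul_eq_mul]
      ring
    rw [sum_congr rfl e2, sum_comm]
    apply sum_le_sum
    intro x _
    rw [← sum_filter]
    rcases (C.filter (fun y => k x = k y)).eq_empty_or_nonempty with hem | hnem
    · rw [hem, sum_empty]; exact (Real.exp_pos _).le
    · have h4 : ∀ y ∈ C.filter (fun y => k x = k y),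
          1 / ((C.filter (fun z => k z = k y)).card : ℝ) * Real.exp (φ y)
          = 1 / ((C.filter (fun z => k x = k z)).card : ℝ) * Real.exp (φ x) := by
        intro y hy
        have hy' := (mem_filter.mp hy).2
        rw [hφc y x hy'.symm]
        have : C.filter (fun z => k z = k y) = C.filter (fun z => k x = k z) := by
          apply filter_congr
          intro z _
          rw [hy']
          exact eq_comm
        rw [this]
      rw [sum_congr rfl h4, sum_const, nsmul_eq_mul]
      have h7 : (0 : ℝ) < (C.filter (fun z => k x = k z)).card := by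
        exact_mod_cast card_pos.mpr hnem
      apply le_of_eq
      field_simp
  have e3 : ∑ x ∈ T, Real.exp (φ x) = T.card + (Real.exp l - 1) * (T.filter E).card := by
    have : ∀ x ∈ T, Real.exp (φ x) = 1 + (if E x then (Real.exp l - 1) else 0) := by
      intro x _
      simp only [hφ]
      split_ifs <;> simp
    rw [sum_congr rfl this, sum_add_distrib, ← sum_filter, sum_const, sum_const, nsmul_eq_mul,
      nsmul_eq_mul]
    ring
  rw [e1]
  have h4 : ((C.card : ℝ)) / T.card
      * ∑ y ∈ C, ((T.filter (fun z => k z = k y)).card : ℝ)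
        / (C.filter (fun z => k z = k y)).card * Real.exp (φ y)
      ≤ ((C.card : ℝ)) / T.card * (T.card + (Real.exp l - 1) * (T.filter E).card) :=
    mul_le_mul_of_nonneg_left (h3.trans (le_of_eq e3)) (div_pos hNa hN0).le
  have h5 : ((C.card : ℝ)) / T.card * (T.card + (Real.exp l - 1) * (T.filter E).card)
      = (C.card : ℝ) + (Real.exp l - 1) * ((C.card : ℝ) / T.card) * (T.filter E).card := by
    field_simp
  linarith

/-- lower bounds for a conditional mutual information, with a test event for each class -/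
theorem cmi (S : Finset α) (k0 k1 k2 : α → β) (κ : β → β)
    (h01 : ∀ x ∈ S, k0 x = κ (k1 x)) (h02 : ∀ x ∈ S, ∀ y ∈ S, k2 x = k2 y → k0 x = k0 y)
    (l : β → ℝ) (E : β → α → Prop) [∀ v, DecidablePred (E v)]
    (hE : ∀ v x y, k2 x = k2 y → (E v x ↔ E v y)) :
    ∑ v ∈ S.image k1, (l v * (S.filter (fun x => k1 x = v ∧ E v x)).card
      - (Real.exp (l v) - 1) * (((S.filter (fun x => k1 x = v)).card : ℝ)
        / (S.filter (fun x => k0 x = κ v)).card)
        * (S.filter (fun x => k0 x = κ v ∧ E v x)).card)
      ≤ ∑ x ∈ S, (Real.log (S.filter (fun y => k0 y = k0 x)).card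
        - Real.log (S.filter (fun y => k1 y = k1 x)).card
        - Real.log (S.filter (fun y => k2 y = k2 x)).card
        + Real.log (S.filter (fun y => k1 y = k1 x ∧ k2 y = k2 x)).card) := by
  classical
  have hm : ∀ x ∈ S, k1 x ∈ S.image k1 := fun x hx => mem_image_of_mem k1 hx
  rw [← sum_fiberwise_of_maps_to hm]
  apply sum_le_sum
  intro v _
  set C := S.filter (fun x => k1 x = v) with hC
  set T := S.filter (fun x => k0 x = κ v) with hT
  have hCT : C ⊆ T := by
    intro x hx
    obtain ⟨h1, h2⟩ := mem_filter.mp hx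
    exact mem_filter.mpr ⟨h1, by rw [h01 x h1, h2]⟩
  have h1 := dvU T C hCT k2 (E v) (hE v) (l v)
  have e1 : C.filter (E v) = S.filter (fun x => k1 x = v ∧ E v x) := by
    rw [hC, filter_filter]
  have e2 : T.filter (E v) = S.filter (fun x => k0 x = κ v ∧ E v x) := by
    rw [hT, filter_filter]
  rw [e1, e2] at h1
  refine h1.trans (le_of_eq ?_)
  apply sum_congr rfl
  intro x hx
  obtain ⟨hx1, hx2⟩ := mem_filter.mp hx
  have hx0 : k0 x = κ v := by rw [h01 x hx1, hx2]
  have f1 : S.filter (fun y => k0 y = k0 x) = T := by rw [hx0]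
  have f2 : S.filter (fun y => k1 y = k1 x) = C := by rw [hx2]
  have f3 : T.filter (fun y => k2 y = k2 x) = S.filter (fun y => k2 y = k2 x) := by
    rw [hT, filter_filter]
    apply filter_congr
    intro y hy
    constructor
    · rintro ⟨_, h⟩; exact h
    · intro h
      exact ⟨by rw [h02 y hy x hx1 h, hx0], h⟩
  have f4 : C.filter (fun y => k2 y = k2 x)
      = S.filter (fun y => k1 y = k1 x ∧ k2 y = k2 x) := by
    rw [hC, filter_filter, hx2]
  rw [f1, f2, f3, f4]

/-- the conditional mutual information is nonnegative -/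
theorem cmi_nonneg (S : Finset α) (k0 k1 k2 : α → β) (κ : β → β)
    (h01 : ∀ x ∈ S, k0 x = κ (k1 x)) (h02 : ∀ x ∈ S, ∀ y ∈ S, k2 x = k2 y → k0 x = k0 y) :
    0 ≤ ∑ x ∈ S, (Real.log (S.filter (fun y => k0 y = k0 x)).card
        - Real.log (S.filter (fun y => k1 y = k1 x)).card
        - Real.log (S.filter (fun y => k2 y = k2 x)).card
        + Real.log (S.filter (fun y => k1 y = k1 x ∧ k2 y = k2 x)).card) := by
  have h := cmi S k0 k1 k2 κ h01 h02 (fun _ => 0) (fun _ _ => False)
    (fun _ _ _ _ => Iff.rfl)
  simpa using h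

end Pool.Agent.W211
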