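import Pool.Agent.W211.Boost

/-!
The iteration of the boosting step.
-/

namespace Pool.Agent.W211

open Finset
open Pool.Agent.H488R3.UC

variable {n : ℕ}

/-- nonnegative submodular functions vanishing at the empty set -/
structure Nsf (k : Finset (Fin n) → ℝ) : Prop where
  nn : ∀ A, 0 ≤ k A
  empty : k ∅ = 0
  sub : ∀ A B, k (A ∪ B) + k (A ∩ B) ≤ k A + k B

theorem num1 (x s : ℝ) (hx : 80 ≤ x) (hs : 0 < s) (h1 : x ^ 5 * s ≤ 1)
    (h2 : 1 < (x + 1) ^ 5 * s) :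
    s * (x - 7) / 2 ≤ 1 / (4 * x ^ 3) * (2 * x ^ 4 * s / (1 + 6 * x ^ 4 * s)
      - x ^ 4 / (2 * (x ^ 3) ^ 2)) := by
  have hx0 : 0 < x := by linarith
  have hx5 : 0 < x ^ 5 := by positivity
  have hxs : 0 < x ^ 4 * s := by positivity
  have e1 : 1 / (4 * x ^ 3) * (2 * x ^ 4 * s / (1 + 6 * x ^ 4 * s) - x ^ 4 / (2 * (x ^ 3) ^ 2))
      = x * s / 2 * (1 / (1 + 6 * (x ^ 4 * s))) - 1 / (8 * x ^ 5) := by
    field_simp
    ring
  rw [e1]
  have h3 : x * (x ^ 4 * s) ≤ 1 := by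
    have : x * (x ^ 4 * s) = x ^ 5 * s := by ring
    rw [this]; exact h1
  have h4 : 1 - 6 * (x ^ 4 * s) ≤ 1 / (1 + 6 * (x ^ 4 * s)) := by
    rw [le_div_iff₀ (by linarith)]
    nlinarith
  have h5 : x * s / 2 * (1 - 6 * (x ^ 4 * s)) ≤ x * s / 2 * (1 / (1 + 6 * (x ^ 4 * s))) :=
    mul_le_mul_of_nonneg_left h4 (by positivity)
  have h6 : s / 2 * (x - 6) ≤ x * s / 2 * (1 - 6 * (x ^ 4 * s)) := by
    have : x * s / 2 * (1 - 6 * (x ^ 4 * s)) = s / 2 * (x - 6 * (x * (x ^ 4 * s))) := by ring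
    rw [this]
    apply mul_le_mul_of_nonneg_left _ (by positivity)
    linarith
  have h7 : (x + 1) ^ 5 ≤ 4 * x ^ 5 := by
    have h8 : x + 1 ≤ 81 / 80 * x := by linarith
    have h9 : (x + 1) ^ 5 ≤ (81 / 80 * x) ^ 5 := pow_le_pow_left₀ (by linarith) h8 5
    have h10 : (81 / 80 * x) ^ 5 = (81 / 80) ^ 5 * x ^ 5 := by ring
    rw [h10] at h9
    refine h9.trans ?_
    apply mul_le_mul_of_nonneg_right _ hx5.le
    norm_num
  have h8 : 1 / (8 * x ^ 5) ≤ s / 2 := by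
    rw [div_le_iff₀ (by positivity)]
    have h9 := mul_le_mul_of_nonneg_right h7 hs.le
    have h10 : s / 2 * (8 * x ^ 5) = 4 * x ^ 5 * s := by ring
    rw [h10]
    linarith
  linarith

theorem boost1 {P : Finset (Fin n) → ℝ} {p s : ℝ} (h : Cv P p s) (hs : 0 < s) (r : ℕ)
    (hr : 80 ≤ r) (h1 : (r : ℝ) ^ 5 * s ≤ 1) (h2 : 1 < ((r : ℝ) + 1) ^ 5 * s) :
    ∃ (P1 : Finset (Fin n) → ℝ) (p1 : ℝ), Cv P1 p1 (s * (r - 7) / 2) ∧
      ∀ k, Nsf k → ∑ A, P1 A * k A ≤ r / 2 * ∑ A, P A * k A := by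
  have hr0 : 0 < r := by omega
  have hrR : (80 : ℝ) ≤ r := by exact_mod_cast hr
  have hrp : (0 : ℝ) < r := by linarith
  set R := r ^ 4 with hR
  set k := r ^ 3 with hk
  have hk0 : 0 < k := by positivity
  set a := ⌈(R : ℝ) * p - k⌉₊ with ha
  set P1 := PN P R a (2 * k) with hP1
  have hcost : ∀ κ, Nsf κ → ∑ A, P1 A * κ A ≤ r / 2 * ∑ A, P A * κ A := by
    intro κ hκ
    have h3 := PN_cost P h.nn h.tot R a (2 * k) κ hκ.nn hκ.empty hκ.sub
    refine h3.trans (le_of_eq ?_)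
    congr 1
    rw [hR, hk]
    push_cast
    field_simp
  have hsep : ∀ i j, i ≠ j → s * (r - 7) / 2 ≤ ∑ A, if i ∈ A ∧ j ∉ A then P1 A else 0 := by
    intro i j hij
    refine le_trans ?_ (PN_sep h R k hk0 hs i j hij)
    rw [hR, hk]
    push_cast
    exact num1 r s hrR hs h1 h2
  rcases isEmpty_or_nonempty (Fin n) with hn | hn
  · refine ⟨P1, 0, ⟨PN_nn P h.nn R a (2 * k), PN_tot P h.tot R a (2 * k) (by omega),
      fun i => isEmptyElim i, hsep⟩, hcost⟩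
  · obtain ⟨i0⟩ := hn
    refine ⟨P1, ∑ A, (if i0 ∈ A then P1 A else 0), ⟨PN_nn P h.nn R a (2 * k),
      PN_tot P h.tot R a (2 * k) (by omega), fun i => ?_, hsep⟩, hcost⟩
    exact PN_cov P R a (2 * k) i i0 (by rw [h.cov, h.cov])

theorem exists_root (s : ℝ) (r : ℕ) (hs1 : s ≤ 1) (h : 1 < (r : ℝ) ^ 5 * s) (hr : 1 ≤ r) :
    ∃ m : ℕ, 1 ≤ m ∧ m < r ∧ (m : ℝ) ^ 5 * s ≤ 1 ∧ 1 < ((m : ℝ) + 1) ^ 5 * s := by
  classical
  set m := Nat.findGreatest (fun m : ℕ => (m : ℝ) ^ 5 * s ≤ 1) r with hm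
  have h1 : (fun m : ℕ => (m : ℝ) ^ 5 * s ≤ 1) 1 := by simpa using hs1
  have h2 : 1 ≤ m := Nat.le_findGreatest hr h1
  have h3 : (m : ℝ) ^ 5 * s ≤ 1 :=
    Nat.findGreatest_spec (P := fun m : ℕ => (m : ℝ) ^ 5 * s ≤ 1) hr h1
  have h4 : m ≤ r := Nat.findGreatest_le r
  have h5 : m < r := by
    rcases h4.lt_or_eq with h6 | h6
    · exact h6
    · rw [h6] at h3; linarith
  refine ⟨m, h2, h5, h3, ?_⟩
  by_contra h6
  have h7 : (fun m : ℕ => (m : ℝ) ^ 5 * s ≤ 1) (m + 1) := by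
    push_cast
    exact not_lt.mp h6
  have h8 := Nat.le_findGreatest (P := fun m : ℕ => (m : ℝ) ^ 5 * s ≤ 1) (show m + 1 ≤ r by omega)
    h7
  omega

theorem boost (r : ℕ) : ∀ (P : Finset (Fin n) → ℝ) (p s : ℝ), Cv P p s → 0 < s → 1 ≤ r →
    (r : ℝ) ^ 5 * s ≤ 1 → 1 < ((r : ℝ) + 1) ^ 5 * s →
    ∃ (P' : Finset (Fin n) → ℝ) (p' : ℝ), Cv P' p' (1 / 80 ^ 5) ∧
      ∀ k, Nsf k → s * ∑ A, P' A * k A ≤ 15 * r / (r + 14) * ∑ A, P A * k A := by
  induction r using Nat.strong_induction_on with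
  | _ r ih =>
    intro P p s h hs hr1 h1 h2
    have hrR : (1 : ℝ) ≤ r := by exact_mod_cast hr1
    rcases lt_or_ge r 80 with hlt | hge
    · refine ⟨P, p, ⟨h.nn, h.tot, h.cov, fun i j hij => le_trans ?_ (h.sep i j hij)⟩, ?_⟩
      · have h3 : (r : ℝ) + 1 ≤ 80 := by exact_mod_cast hlt
        have h4 : ((r : ℝ) + 1) ^ 5 ≤ 80 ^ 5 := pow_le_pow_left₀ (by linarith) h3 5
        rw [div_le_iff₀ (by positivity)]
        have := mul_le_mul_of_nonneg_right h4 hs.le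
        linarith
      · intro k hk
        have h3 : 0 ≤ ∑ A, P A * k A := sum_nonneg (fun A _ => mul_nonneg (h.nn A) (hk.nn A))
        apply mul_le_mul_of_nonneg_right _ h3
        rw [le_div_iff₀ (by linarith)]
        have h4 : s ≤ 1 := by
          have h5 : (1 : ℝ) ≤ (r : ℝ) ^ 5 := one_le_pow₀ hrR
          have := mul_le_mul_of_nonneg_right h5 hs.le
          linarith
        nlinarith
    · have hgeR : (80 : ℝ) ≤ r := by exact_mod_cast hge
      have hrp : (0 : ℝ) < r := by linarith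
      obtain ⟨P1, p1, hP1, hc1⟩ := boost1 h hs r hge h1 h2
      set s1 : ℝ := s * (r - 7) / 2 with hs1
      have hs10 : 0 < s1 := by
        rw [hs1]
        have : 0 < (r : ℝ) - 7 := by linarith
        positivity
      have hr5 : (0 : ℝ) < (r : ℝ) ^ 5 := by positivity
      -- `s1 ≤ 1`
      have hs11 : s1 ≤ 1 := by
        have h3 : s1 ≤ (r : ℝ) ^ 5 * s := by
          rw [hs1]
          have h4 : ((r : ℝ) - 7) / 2 ≤ (r : ℝ) ^ 5 := by
            have h5 : (r : ℝ) * 1 ≤ r * (r : ℝ) ^ 4 :=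
              mul_le_mul_of_nonneg_left (one_le_pow₀ hrR) hrp.le
            have h6 : (r : ℝ) * (r : ℝ) ^ 4 = (r : ℝ) ^ 5 := by ring
            rw [h6] at h5
            linarith
          have := mul_le_mul_of_nonneg_right h4 hs.le
          linarith
        linarith
      -- the size of `s1`
      have hbig : 1 < ((r : ℝ) / 2) ^ 5 * s1 := by
        have h3 : ((r : ℝ) + 1) ^ 5 ≤ (81 / 80) ^ 5 * (r : ℝ) ^ 5 := by
          have h8 : (r : ℝ) + 1 ≤ 81 / 80 * r := by linarith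
          have h9 : ((r : ℝ) + 1) ^ 5 ≤ (81 / 80 * r) ^ 5 := pow_le_pow_left₀ (by linarith) h8 5
          rwa [mul_pow] at h9
        have h4 := mul_le_mul_of_nonneg_right h3 hs.le
        have h5 : 80 ^ 5 / 81 ^ 5 < (r : ℝ) ^ 5 * s := by
          rw [div_lt_iff₀ (by positivity)]
          have : (81 / 80 : ℝ) ^ 5 = 81 ^ 5 / 80 ^ 5 := by rw [div_pow]
          rw [this] at h4
          have h6 : 1 < 81 ^ 5 / 80 ^ 5 * (r : ℝ) ^ 5 * s := by linarith
          have h7 : (81 : ℝ) ^ 5 / 80 ^ 5 * (r : ℝ) ^ 5 * s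
              = ((r : ℝ) ^ 5 * s * 81 ^ 5) / 80 ^ 5 := by ring
          rw [h7, lt_div_iff₀ (by positivity)] at h6
          linarith
        have h6 : ((r : ℝ) / 2) ^ 5 * s1 = ((r : ℝ) ^ 5 * s) * ((r - 7) / 64) := by
          rw [hs1]; ring
        rw [h6]
        have h7 : (73 : ℝ) / 64 ≤ (r - 7) / 64 := by linarith
        have h8 : (80 : ℝ) ^ 5 / 81 ^ 5 * (73 / 64) < ((r : ℝ) ^ 5 * s) * ((r - 7) / 64) :=
          mul_lt_mul h5 h7 (by norm_num) (by positivity)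
        refine lt_trans ?_ h8
        norm_num
      have hbig' : 1 < (r : ℝ) ^ 5 * s1 := by
        refine lt_of_lt_of_le hbig ?_
        apply mul_le_mul_of_nonneg_right _ hs10.le
        exact pow_le_pow_left₀ (by linarith) (by linarith) 5
      obtain ⟨m, hm1, hmr, hm2, hm3⟩ := exists_root s1 r hs11 hbig' hr1
      have hmR : (1 : ℝ) ≤ m := by exact_mod_cast hm1
      have hm4 : 2 * (m : ℝ) ≤ r := by
        by_contra h3
        have h4 : (r : ℝ) / 2 < m := by linarith [not_le.mp h3]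
        have h5 : ((r : ℝ) / 2) ^ 5 ≤ (m : ℝ) ^ 5 := pow_le_pow_left₀ (by linarith) h4.le 5
        have := mul_le_mul_of_nonneg_right h5 hs10.le
        linarith
      obtain ⟨P', p', hP', hc'⟩ := ih m hmr P1 p1 s1 hP1 hs10 hm1 hm2 hm3
      refine ⟨P', p', hP', fun k hk => ?_⟩
      have h3 := hc' k hk
      have h4 := hc1 k hk
      have hc0 : 0 ≤ ∑ A, P A * k A := sum_nonneg (fun A _ => mul_nonneg (h.nn A) (hk.nn A))
      have h5 : 15 * (m : ℝ) / (m + 14) * ∑ A, P1 A * k A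
          ≤ 15 * (m : ℝ) / (m + 14) * (r / 2 * ∑ A, P A * k A) :=
        mul_le_mul_of_nonneg_left h4 (by positivity)
      have h7 : (0 : ℝ) < r - 7 := by linarith
      have h8 : s * ∑ A, P' A * k A = 2 / (r - 7) * (s1 * ∑ A, P' A * k A) := by
        rw [hs1]; field_simp
      rw [h8]
      have h9 : 2 / ((r : ℝ) - 7) * (s1 * ∑ A, P' A * k A)
          ≤ 2 / ((r : ℝ) - 7) * (15 * (m : ℝ) / (m + 14) * (r / 2 * ∑ A, P A * k A)) :=
        mul_le_mul_of_nonneg_left (h3.trans h5) (by positivity)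
      refine h9.trans ?_
      have h10 : 2 / ((r : ℝ) - 7) * (15 * (m : ℝ) / (m + 14) * (r / 2 * ∑ A, P A * k A))
          = 15 * m * r / ((m + 14) * (r - 7)) * ∑ A, P A * k A := by
        field_simp
      rw [h10]
      apply mul_le_mul_of_nonneg_right _ hc0
      rw [div_le_div_iff₀ (by positivity) (by positivity)]
      have h11 : (m : ℝ) * (r + 14) ≤ (m + 14) * (r - 7) := by nlinarith
      have h12 : 15 * (m : ℝ) * r * (r + 14) = 15 * r * (m * (r + 14)) := by ring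
      have h13 : 15 * (r : ℝ) * ((m + 14) * (r - 7)) = 15 * r * ((m + 14) * (r - 7)) := by ring
      rw [h12, h13]
      exact mul_le_mul_of_nonneg_left h11 (by positivity)

/-- boosting a weight to constant separation -/
theorem boost_all (P : Finset (Fin n) → ℝ) (p s : ℝ) (h : Cv P p s) (hs : 0 < s) (hs1 : s ≤ 1) :
    ∃ (P' : Finset (Fin n) → ℝ) (p' : ℝ), Cv P' p' (1 / 80 ^ 5) ∧
      ∀ k, Nsf k → s * ∑ A, P' A * k A ≤ 15 * ∑ A, P A * k A := by
  obtain ⟨N, hN⟩ := exists_nat_gt (1 / s)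
  have hN1 : 1 < (N : ℝ) * s := by
    rw [div_lt_iff₀ hs] at hN; exact hN
  have hN0 : 1 ≤ N := by
    rcases Nat.eq_zero_or_pos N with h0 | h0
    · rw [h0] at hN1; norm_num at hN1
    · exact h0
  have hNR : (1 : ℝ) ≤ N := by exact_mod_cast hN0
  have hN5 : 1 < (N : ℝ) ^ 5 * s := by
    refine lt_of_lt_of_le hN1 ?_
    apply mul_le_mul_of_nonneg_right _ hs.le
    exact le_self_pow₀ hNR (by norm_num)
  obtain ⟨m, hm1, _, hm2, hm3⟩ := exists_root s N hs1 hN5 hN0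
  obtain ⟨P', p', hP', hc⟩ := boost m P p s h hs hm1 hm2 hm3
  refine ⟨P', p', hP', fun k hk => (hc k hk).trans ?_⟩
  have hc0 : 0 ≤ ∑ A, P A * k A := sum_nonneg (fun A _ => mul_nonneg (h.nn A) (hk.nn A))
  apply mul_le_mul_of_nonneg_right _ hc0
  have hmR : (1 : ℝ) ≤ m := by exact_mod_cast hm1
  rw [div_le_iff₀ (by linarith)]
  linarith

end Pool.Agent.W211
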