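import Pool.Agent.W211.Multi
import Pool.Agent.H488R3.UC.GM7

/-!
Independent samples from a weight, and the level sets of their counting function.
-/

namespace Pool.Agent.W211

open Finset
open Pool.Agent.H488R3.UC

variable {n : ℕ}

/-- expectation over `R` independent samples -/
noncomputable def EE (P : Finset (Fin n) → ℝ) (R : ℕ)
    (F : (Fin R → Finset (Fin n)) → ℝ) : ℝ :=
  ∑ ω : Fin R → Finset (Fin n), (∏ r, P (ω r)) * F ω

theorem EE_zero (P : Finset (Fin n) → ℝ) (F : (Fin 0 → Finset (Fin n)) → ℝ) :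
    EE P 0 F = F default := by
  unfold EE
  rw [Fintype.sum_unique, Fin.prod_univ_zero, one_mul]
  exact congrArg F (Subsingleton.elim _ _)

theorem EE_succ (P : Finset (Fin n) → ℝ) (R : ℕ) (F : (Fin (R + 1) → Finset (Fin n)) → ℝ) :
    EE P (R + 1) F = ∑ A, P A * EE P R (fun ω => F (Fin.cons A ω)) := by
  unfold EE
  rw [← (Fin.consEquiv (fun _ : Fin (R + 1) => Finset (Fin n))).sum_comp, Fintype.sum_prod_type]
  apply sum_congr rfl
  intro A _
  rw [mul_sum]
  apply sum_congr rfl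
  intro ω _
  have e : (Fin.consEquiv (fun _ : Fin (R + 1) => Finset (Fin n))) (A, ω)
      = (Fin.cons A ω : Fin (R + 1) → Finset (Fin n)) := rfl
  rw [e, Fin.prod_univ_succ]
  simp only [Fin.cons_zero, Fin.cons_succ]
  ring

theorem EE_add (P : Finset (Fin n) → ℝ) (R : ℕ) (F G : (Fin R → Finset (Fin n)) → ℝ) :
    EE P R (fun ω => F ω + G ω) = EE P R F + EE P R G := by
  unfold EE
  rw [← sum_add_distrib]
  apply sum_congr rfl
  intro ω _
  ring

theorem EE_sub (P : Finset (Fin n) → ℝ) (R : ℕ) (F G : (Fin R → Finset (Fin n)) → ℝ) :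
    EE P R (fun ω => F ω - G ω) = EE P R F - EE P R G := by
  unfold EE
  rw [← sum_sub_distrib]
  apply sum_congr rfl
  intro ω _
  ring

theorem EE_mul (P : Finset (Fin n) → ℝ) (R : ℕ) (a : ℝ) (F : (Fin R → Finset (Fin n)) → ℝ) :
    EE P R (fun ω => a * F ω) = a * EE P R F := by
  unfold EE
  rw [mul_sum]
  apply sum_congr rfl
  intro ω _
  ring

theorem EE_sum {ι : Type*} (s : Finset ι) (P : Finset (Fin n) → ℝ) (R : ℕ)
    (F : ι → (Fin R → Finset (Fin n)) → ℝ) :
    EE P R (fun ω => ∑ t ∈ s, F t ω) = ∑ t ∈ s, EE P R (F t) := by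
  unfold EE
  rw [sum_comm]
  apply sum_congr rfl
  intro ω _
  rw [mul_sum]

theorem EE_mono (P : Finset (Fin n) → ℝ) (hP : ∀ A, 0 ≤ P A) (R : ℕ)
    (F G : (Fin R → Finset (Fin n)) → ℝ) (h : ∀ ω, F ω ≤ G ω) : EE P R F ≤ EE P R G := by
  unfold EE
  apply sum_le_sum
  intro ω _
  exact mul_le_mul_of_nonneg_left (h ω) (prod_nonneg (fun r _ => hP _))

theorem EE_const (P : Finset (Fin n) → ℝ) (hP : ∑ A, P A = 1) (R : ℕ) (a : ℝ) :
    EE P R (fun _ => a) = a := by
  induction R with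
  | zero => rw [EE_zero]
  | succ R ih =>
    rw [EE_succ]
    simp only [ih]
    rw [← sum_mul, hP, one_mul]

/-- sums over the samples -/
def Sm (f : Finset (Fin n) → ℝ) {R : ℕ} (ω : Fin R → Finset (Fin n)) : ℝ := ∑ r, f (ω r)

theorem Sm_cons (f : Finset (Fin n) → ℝ) {R : ℕ} (A : Finset (Fin n))
    (ω : Fin R → Finset (Fin n)) :
    Sm f (Fin.cons A ω : Fin (R + 1) → Finset (Fin n)) = f A + Sm f ω := by
  unfold Sm
  rw [Fin.sum_univ_succ]
  simp

theorem mom1 (P : Finset (Fin n) → ℝ) (hP : ∑ A, P A = 1) (f : Finset (Fin n) → ℝ) (R : ℕ) :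
    EE P R (fun ω => Sm f ω) = R * ∑ A, P A * f A := by
  induction R with
  | zero => rw [EE_zero]; simp [Sm]
  | succ R ih =>
    rw [EE_succ]
    simp only [Sm_cons]
    have : ∀ A, P A * EE P R (fun ω => f A + Sm f ω)
        = P A * f A + P A * (R * ∑ A, P A * f A) := by
      intro A
      rw [EE_add, EE_const P hP, ih]; ring
    rw [sum_congr rfl (fun A _ => this A), sum_add_distrib, ← sum_mul, hP]
    push_cast
    ring

theorem mom2 (P : Finset (Fin n) → ℝ) (hP : ∑ A, P A = 1) (f : Finset (Fin n) → ℝ)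
    (hf : ∑ A, P A * f A = 0) (R : ℕ) :
    EE P R (fun ω => Sm f ω ^ 2) = R * ∑ A, P A * f A ^ 2 := by
  induction R with
  | zero => rw [EE_zero]; simp [Sm]
  | succ R ih =>
    rw [EE_succ]
    simp only [Sm_cons]
    have : ∀ A, P A * EE P R (fun ω => (f A + Sm f ω) ^ 2)
        = P A * f A ^ 2 + P A * (R * ∑ A, P A * f A ^ 2) := by
      intro A
      have e1 : EE P R (fun ω => (f A + Sm f ω) ^ 2)
          = EE P R (fun ω => (f A ^ 2 + (2 * f A) * Sm f ω) + Sm f ω ^ 2) := by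
        congr 1; funext ω; ring
      rw [e1, EE_add P R (fun ω => f A ^ 2 + (2 * f A) * Sm f ω) (fun ω => Sm f ω ^ 2),
        EE_add P R (fun _ => f A ^ 2) (fun ω => (2 * f A) * Sm f ω), EE_const P hP,
        EE_mul P R (2 * f A) (fun ω => Sm f ω), mom1 P hP, hf, ih]
      ring
    rw [sum_congr rfl (fun A _ => this A), sum_add_distrib, ← sum_mul, hP]
    push_cast
    ring

theorem mom4 (P : Finset (Fin n) → ℝ) (hP : ∑ A, P A = 1) (f : Finset (Fin n) → ℝ)
    (hf : ∑ A, P A * f A = 0) (R : ℕ) :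
    EE P R (fun ω => Sm f ω ^ 4) = R * (∑ A, P A * f A ^ 4)
      + 3 * R * (R - 1) * (∑ A, P A * f A ^ 2) ^ 2 := by
  induction R with
  | zero => rw [EE_zero]; simp [Sm]
  | succ R ih =>
    rw [EE_succ]
    simp only [Sm_cons]
    set c3 := EE P R (fun ω => Sm f ω ^ 3) with hc3
    have : ∀ A, P A * EE P R (fun ω => (f A + Sm f ω) ^ 4)
        = P A * f A ^ 4 + (P A * f A ^ 2) * (6 * (R * ∑ A, P A * f A ^ 2))
          + (P A * f A) * (4 * c3) + P A * EE P R (fun ω => Sm f ω ^ 4) := by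
      intro A
      have e1 : EE P R (fun ω => (f A + Sm f ω) ^ 4)
          = EE P R (fun ω => (((f A ^ 4 + (4 * f A ^ 3) * Sm f ω) + (6 * f A ^ 2) * Sm f ω ^ 2)
            + (4 * f A) * Sm f ω ^ 3) + Sm f ω ^ 4) := by
        congr 1; funext ω; ring
      rw [e1, EE_add P R (fun ω => ((f A ^ 4 + (4 * f A ^ 3) * Sm f ω)
          + (6 * f A ^ 2) * Sm f ω ^ 2) + (4 * f A) * Sm f ω ^ 3) (fun ω => Sm f ω ^ 4),
        EE_add P R (fun ω => (f A ^ 4 + (4 * f A ^ 3) * Sm f ω) + (6 * f A ^ 2) * Sm f ω ^ 2)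
          (fun ω => (4 * f A) * Sm f ω ^ 3),
        EE_add P R (fun ω => f A ^ 4 + (4 * f A ^ 3) * Sm f ω)
          (fun ω => (6 * f A ^ 2) * Sm f ω ^ 2),
        EE_add P R (fun _ => f A ^ 4) (fun ω => (4 * f A ^ 3) * Sm f ω), EE_const P hP,
        EE_mul P R (4 * f A ^ 3) (fun ω => Sm f ω), mom1 P hP, hf,
        EE_mul P R (6 * f A ^ 2) (fun ω => Sm f ω ^ 2), mom2 P hP f hf,
        EE_mul P R (4 * f A) (fun ω => Sm f ω ^ 3)]
      ring
    rw [sum_congr rfl (fun A _ => this A), sum_add_distrib, sum_add_distrib, sum_add_distrib,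
      ← sum_mul, ← sum_mul, ← sum_mul, hP, hf, ih]
    push_cast
    ring

/-- the number of samples containing `i` -/
theorem cn_eq_Sm {R : ℕ} (ω : Fin R → Finset (Fin n)) (i : Fin n) :
    (cn ω univ i : ℝ) = Sm (fun A => if i ∈ A then (1 : ℝ) else 0) ω := by
  unfold cn Sm
  rw [card_filter]
  push_cast
  rfl

theorem cn_cons {R : ℕ} (A : Finset (Fin n)) (ω : Fin R → Finset (Fin n)) (i : Fin n) :
    cn (Fin.cons A ω : Fin (R + 1) → Finset (Fin n)) univ i
      = (if i ∈ A then 1 else 0) + cn ω univ i := by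
  unfold cn
  rw [card_filter, card_filter, Fin.sum_univ_succ]
  simp

/-- the law of the counts depends only on the coverage -/
theorem law (P : Finset (Fin n) → ℝ) (i j : Fin n)
    (hij : ∑ A, (if i ∈ A then P A else 0) = ∑ A, (if j ∈ A then P A else 0)) (R : ℕ) :
    ∀ φ : ℕ → ℝ, EE P R (fun ω => φ (cn ω univ i)) = EE P R (fun ω => φ (cn ω univ j)) := by
  induction R with
  | zero =>
    intro φ
    rw [EE_zero, EE_zero]
    simp [cn]
  | succ R ih =>
    intro φ
    rw [EE_succ, EE_succ]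
    simp only [cn_cons]
    have h1 : ∀ v : Fin n, ∑ A, P A * EE P R (fun ω => φ ((if v ∈ A then 1 else 0)
        + cn ω univ v)) = (∑ A, (if v ∈ A then P A else 0)) * EE P R (fun ω => φ (1 + cn ω univ v))
          + (∑ A, P A - ∑ A, (if v ∈ A then P A else 0)) * EE P R (fun ω => φ (0 + cn ω univ v)) := by
      intro v
      rw [← sum_sub_distrib, sum_mul, sum_mul, ← sum_add_distrib]
      apply sum_congr rfl
      intro A _
      split_ifs <;> ring
    rw [h1 i, h1 j, hij, ih (fun m => φ (1 + m)), ih (fun m => φ (0 + m))]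

/-- the law of a level set in the window -/
noncomputable def PN (P : Finset (Fin n) → ℝ) (R a K : ℕ) (A : Finset (Fin n)) : ℝ :=
  1 / K * ∑ t ∈ Ico a (a + K), EE P R (fun ω => if lv ω univ t = A then (1 : ℝ) else 0)

theorem PN_sum (P : Finset (Fin n) → ℝ) (R a K : ℕ) (f : Finset (Fin n) → ℝ) :
    ∑ A, PN P R a K A * f A = 1 / K * ∑ t ∈ Ico a (a + K), EE P R (fun ω => f (lv ω univ t)) := by
  unfold PN
  have h1 : ∀ A : Finset (Fin n), 1 / (K : ℝ) * (∑ t ∈ Ico a (a + K),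
      EE P R (fun ω => if lv ω univ t = A then (1 : ℝ) else 0)) * f A
      = 1 / K * ∑ t ∈ Ico a (a + K),
        EE P R (fun ω => f A * (if lv ω univ t = A then (1 : ℝ) else 0)) := by
    intro A
    rw [mul_assoc, sum_mul]
    congr 1
    apply sum_congr rfl
    intro t _
    rw [EE_mul P R (f A)]
    ring
  rw [sum_congr rfl (fun A _ => h1 A), ← mul_sum, sum_comm]
  congr 1
  apply sum_congr rfl
  intro t _
  rw [← EE_sum univ P R (fun A ω => f A * (if lv ω univ t = A then (1 : ℝ) else 0))]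
  congr 1
  funext ω
  rw [sum_eq_single (lv ω univ t)]
  · simp
  · intro A _ hA
    rw [if_neg (Ne.symm hA), mul_zero]
  · intro h; exact absurd (mem_univ _) h

theorem PN_nn (P : Finset (Fin n) → ℝ) (hP : ∀ A, 0 ≤ P A) (R a K : ℕ) (A : Finset (Fin n)) :
    0 ≤ PN P R a K A := by
  unfold PN
  apply mul_nonneg (by positivity)
  apply sum_nonneg
  intro t _
  unfold EE
  apply sum_nonneg
  intro ω _
  apply mul_nonneg (prod_nonneg (fun r _ => hP _))
  dsimp only
  split_ifs <;> norm_num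

theorem PN_tot (P : Finset (Fin n) → ℝ) (hP : ∑ A, P A = 1) (R a K : ℕ) (hK : 0 < K) :
    ∑ A, PN P R a K A = 1 := by
  have h := PN_sum P R a K (fun _ => 1)
  simp only [mul_one] at h
  rw [h]
  simp only [EE_const P hP]
  rw [sum_const, nsmul_eq_mul, mul_one, Nat.card_Ico]
  have : (0 : ℝ) < K := by exact_mod_cast hK
  simp only [add_tsub_cancel_left]
  field_simp

theorem PN_cost (P : Finset (Fin n) → ℝ) (hP : ∀ A, 0 ≤ P A) (hP1 : ∑ A, P A = 1)
    (R a K : ℕ) (k : Finset (Fin n) → ℝ) (hk : ∀ A, 0 ≤ k A) (hk0 : k ∅ = 0)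
    (hsub : ∀ A B, k (A ∪ B) + k (A ∩ B) ≤ k A + k B) :
    ∑ A, PN P R a K A * k A ≤ R / K * ∑ A, P A * k A := by
  rw [PN_sum, ← EE_sum (Ico a (a + K)) P R (fun t ω => k (lv ω univ t))]
  have h1 : EE P R (fun ω => ∑ t ∈ Ico a (a + K), k (lv ω univ t))
      ≤ EE P R (fun ω => Sm k ω) := by
    apply EE_mono P hP
    intro ω
    have h2 := chain_le k hk hsub ω univ (a + K) hk0
    refine le_trans ?_ h2
    apply sum_le_sum_of_subset_of_nonneg
    · intro t ht
      rw [mem_Ico] at ht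
      exact mem_range.mpr ht.2
    · intro t _ _; exact hk _
  rw [mom1 P hP1] at h1
  have h2 := mul_le_mul_of_nonneg_left h1 (show (0 : ℝ) ≤ 1 / K by positivity)
  refine h2.trans (le_of_eq ?_)
  ring

theorem PN_cov (P : Finset (Fin n) → ℝ) (R a K : ℕ) (i j : Fin n)
    (hij : ∑ A, (if i ∈ A then P A else 0) = ∑ A, (if j ∈ A then P A else 0)) :
    ∑ A, (if i ∈ A then PN P R a K A else 0) = ∑ A, (if j ∈ A then PN P R a K A else 0) := by
  have h1 : ∀ v : Fin n, ∑ A, (if v ∈ A then PN P R a K A else 0)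
      = 1 / K * ∑ t ∈ Ico a (a + K), EE P R (fun ω => (fun m : ℕ => if t < m then (1 : ℝ) else 0)
        (cn ω univ v)) := by
    intro v
    have h2 := PN_sum P R a K (fun A => if v ∈ A then 1 else 0)
    simp only [mem_lv] at h2
    rw [← h2]
    apply sum_congr rfl
    intro A _
    split_ifs <;> simp
  rw [h1 i, h1 j]
  congr 1
  apply sum_congr rfl
  intro t _
  exact law P i j hij R (fun m : ℕ => if t < m then (1 : ℝ) else 0)

/-- the pointwise lower bound for the number of separating levels -/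
theorem lev_pt (x y a k : ℕ) (μ τ : ℝ) (hk : 0 < k) (ha : a = ⌈μ - k⌉₊) :
    2 * τ * ((x : ℝ) - y) ^ 2 - τ ^ 2 * ((x : ℝ) - y) ^ 4
      - (((x : ℝ) - μ) ^ 2 + ((y : ℝ) - μ) ^ 2) / (k : ℝ) ^ 2
      ≤ ∑ t ∈ Ico a (a + 2 * k), ((if t < x ∧ ¬ t < y then (1 : ℝ) else 0)
        + (if t < y ∧ ¬ t < x then (1 : ℝ) else 0)) := by
  have hk0 : (0 : ℝ) < k := by exact_mod_cast hk
  have hk2 : (0 : ℝ) < (k : ℝ) ^ 2 := by positivity
  have hnn : 0 ≤ ∑ t ∈ Ico a (a + 2 * k), ((if t < x ∧ ¬ t < y then (1 : ℝ) else 0)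
        + (if t < y ∧ ¬ t < x then (1 : ℝ) else 0)) := by
    apply sum_nonneg
    intro t _
    split_ifs <;> norm_num
  have hw : 2 * τ * ((x : ℝ) - y) ^ 2 - τ ^ 2 * ((x : ℝ) - y) ^ 4 ≤ 1 := by
    nlinarith [sq_nonneg (1 - τ * ((x : ℝ) - y) ^ 2)]
  by_cases hx : |(x : ℝ) - μ| ≤ k
  · by_cases hy : |(y : ℝ) - μ| ≤ k
    · have hq : 0 ≤ (((x : ℝ) - μ) ^ 2 + ((y : ℝ) - μ) ^ 2) / (k : ℝ) ^ 2 := by positivity
      by_cases hxy : x = y
      · subst hxy
        have e1 : 2 * τ * ((x : ℝ) - x) ^ 2 - τ ^ 2 * ((x : ℝ) - x) ^ 4 = 0 := by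
          rw [sub_self]; ring
        linarith
      · -- some level separates
        have hwin : ∀ z : ℕ, |(z : ℝ) - μ| ≤ k → a ≤ z ∧ z ≤ a + 2 * k := by
          intro z hz
          obtain ⟨h1, h2⟩ := abs_le.mp hz
          constructor
          · rw [ha]
            apply Nat.ceil_le.mpr
            linarith
          · have h3 : μ - k ≤ (a : ℝ) := by rw [ha]; exact Nat.le_ceil _
            have h4 : (z : ℝ) ≤ ((a + 2 * k : ℕ) : ℝ) := by
              push_cast; linarith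
            exact_mod_cast h4
        obtain ⟨hx1, hx2⟩ := hwin x hx
        obtain ⟨hy1, hy2⟩ := hwin y hy
        have hone : (1 : ℝ) ≤ ∑ t ∈ Ico a (a + 2 * k),
            ((if t < x ∧ ¬ t < y then (1 : ℝ) else 0)
            + (if t < y ∧ ¬ t < x then (1 : ℝ) else 0)) := by
          have hmem : min x y ∈ Ico a (a + 2 * k) := by
            rw [mem_Ico]
            rcases lt_or_gt_of_ne hxy with h | h
            · rw [min_eq_left h.le]; exact ⟨hx1, lt_of_lt_of_le h hy2⟩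
            · rw [min_eq_right h.le]; exact ⟨hy1, lt_of_lt_of_le h hx2⟩
          have h1 := single_le_sum (f := fun t : ℕ =>
            ((if t < x ∧ ¬ t < y then (1 : ℝ) else 0)
            + (if t < y ∧ ¬ t < x then (1 : ℝ) else 0)))
            (fun t _ => by
              have h2 : (0 : ℝ) ≤ if t < x ∧ ¬ t < y then (1 : ℝ) else 0 := by
                split_ifs <;> norm_num
              have h3 : (0 : ℝ) ≤ if t < y ∧ ¬ t < x then (1 : ℝ) else 0 := by
                split_ifs <;> norm_num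
              exact add_nonneg h2 h3) hmem
          refine le_trans ?_ h1
          rcases lt_or_gt_of_ne hxy with h | h
          · rw [min_eq_left h.le]
            simp [h]
          · rw [min_eq_right h.le]
            simp [h]
        linarith
    · have h1 : (k : ℝ) ^ 2 ≤ ((y : ℝ) - μ) ^ 2 := by
        rw [← sq_abs ((y : ℝ) - μ)]
        exact pow_le_pow_left₀ hk0.le (not_le.mp hy).le 2
      have h2 : 1 ≤ (((x : ℝ) - μ) ^ 2 + ((y : ℝ) - μ) ^ 2) / (k : ℝ) ^ 2 := by
        rw [le_div_iff₀ hk2]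
        have := sq_nonneg ((x : ℝ) - μ)
        linarith
      linarith
  · have h1 : (k : ℝ) ^ 2 ≤ ((x : ℝ) - μ) ^ 2 := by
      rw [← sq_abs ((x : ℝ) - μ)]
      exact pow_le_pow_left₀ hk0.le (not_le.mp hx).le 2
    have h2 : 1 ≤ (((x : ℝ) - μ) ^ 2 + ((y : ℝ) - μ) ^ 2) / (k : ℝ) ^ 2 := by
      rw [le_div_iff₀ hk2]
      have := sq_nonneg ((y : ℝ) - μ)
      linarith
    linarith

end Pool.Agent.W211
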