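import Pool.Agent.W211.Miss

/-!
A set which is roughly close to a box is close to it in terms of its deficit.
-/

namespace Pool.Agent.W211

open Finset
open Pool.Agent.H488R3.UC

variable {n : ℕ}

theorem finishc {P : Finset (Fin n) → ℝ} {p c : ℝ} (h : Cv P p c) (hc0 : 0 < c) (hc1 : c ≤ 1)
    (S : Finset (Fin n → ℤ)) (hS : S.Nonempty) (B0 : Fin n → Finset ℤ)
    (hB0 : 100 * ((symmDiff S (Fintype.piFinset B0)).card : ℝ) ≤ c * S.card) :
    ∃ B : Fin n → Finset ℤ, (∀ i, (B i).Nonempty) ∧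
      c ^ 2 * ((symmDiff S (Fintype.piFinset B)).card : ℝ) ≤ 40 * Df P p S := by
  classical
  have hN0 : (0 : ℝ) < S.card := by exact_mod_cast card_pos.mpr hS
  obtain ⟨B, hB⟩ := exists_opt S
  have h1 : ((symmDiff S (Fintype.piFinset B)).card : ℝ)
      ≤ (symmDiff S (Fintype.piFinset B0)).card := by exact_mod_cast hB B0
  have h2 := card_symmDiff_eq S (Fintype.piFinset B)
  set R := Fintype.piFinset B with hR
  have h3 : ((S \ R).card : ℝ) + (S ∩ R).card = S.card := card_sdiff_add _ _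
  have h4 : ((R \ S).card : ℝ) + (R ∩ S).card = R.card := card_sdiff_add _ _
  rw [inter_comm] at h4
  have ho : (0 : ℝ) ≤ (S \ R).card := Nat.cast_nonneg _
  have hm : (0 : ℝ) ≤ (R \ S).card := Nat.cast_nonneg _
  have hcN : c * (S.card : ℝ) ≤ 1 * S.card := mul_le_mul_of_nonneg_right hc1 hN0.le
  have hr : 99 / 100 * (S.card : ℝ) ≤ (S ∩ R).card := by linarith
  have hRpos : (0 : ℝ) < R.card := by linarith
  have hne : ∀ i, (B i).Nonempty := by
    have : 0 < R.card := by exact_mod_cast hRpos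
    exact Fintype.piFinset_nonempty.mp (card_pos.mp this)
  have hIpos : (0 : ℝ) < (S ∩ R).card := by linarith
  have hIne : (S ∩ R).Nonempty := by
    have : 0 < (S ∩ R).card := by exact_mod_cast hIpos
    exact card_pos.mp this
  have hcr : 99 / 100 * (c * (S.card : ℝ)) ≤ c * (S ∩ R).card := by
    have := mul_le_mul_of_nonneg_left hr hc0.le
    linarith
  have hcm : 0 ≤ c * ((R \ S).card : ℝ) := mul_nonneg hc0.le hm
  have hcR : c * ((S ∩ R).card : ℝ) + c * (R \ S).card = c * R.card := by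
    rw [← mul_add]; congr 1; linarith
  have hmiss := miss h hc0 hc1 S B hB hne (by rw [← hR]; linarith)
  have hsing := single h hc0 hc1 S B hB hne hIne (by rw [← hR]; linarith)
  have hmult := multi h B S hIne
  rw [← hR] at hmiss hmult
  have ho12 : ((O1 S B).card : ℝ) + (O2 S B).card = (S \ R).card := by
    exact_mod_cast O1_add_O2 S B
  have hD0 := Df_nonneg P h.nn p h.cov S
  refine ⟨B, hne, ?_⟩
  rw [← hR, h2]
  set o : ℝ := ((S \ R).card : ℝ) with hod
  set m : ℝ := ((R \ S).card : ℝ) with hmd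
  set r : ℝ := ((S ∩ R).card : ℝ) with hrd
  set N : ℝ := (S.card : ℝ) with hNd
  set D : ℝ := Df P p S with hDd
  set o1 : ℝ := ((O1 S B).card : ℝ) with ho1d
  set o2 : ℝ := ((O2 S B).card : ℝ) with ho2d
  have ho10 : 0 ≤ o1 := Nat.cast_nonneg _
  have hor : o / r ≤ c / 98 := by
    rw [div_le_iff₀ hIpos]
    linarith
  have h5 : 2 * o * (o / r) ≤ 2 * o * (c / 98) := mul_le_mul_of_nonneg_left hor (by linarith)
  have h6 : c * o2 ≤ D + c * o / 49 := by
    have : 2 * o * (c / 98) = c * o / 49 := by ring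
    linarith
  have h7 : c * (c * o2) ≤ c * (D + c * o / 49) := mul_le_mul_of_nonneg_left h6 hc0.le
  have h8 : c * D ≤ 1 * D := mul_le_mul_of_nonneg_right hc1 hD0
  have h9 : c ^ 2 * o = c ^ 2 * o1 + c * (c * o2) := by rw [← ho12]; ring
  have h10 : c * (D + c * o / 49) = c * D + c ^ 2 * o / 49 := by ring
  have h11 : c ^ 2 * o1 ≤ 32 * D := by linarith
  have h12 : c * (c / 5 * m) ≤ c * D := mul_le_mul_of_nonneg_left hmiss hc0.le
  have h13 : c * (c / 5 * m) = c ^ 2 * m / 5 := by ring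
  have h14 : c ^ 2 * (o + m) = c ^ 2 * o + c ^ 2 * m := by ring
  rw [h14]
  linarith

end Pool.Agent.W211
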