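import Pool.Agent.W211.Rough2
import Pool.Agent.W211.Iter
import Pool.Agent.H488R3.UC.GM8

/-!
The final assembly: the box theorem for all covers with an absolute constant.
-/

namespace Pool.Agent.W211

open Finset
open Pool.Agent.H488R3.UC

variable {n : ℕ}

/-- the part of `h` which a modular function does not explain -/
def kk (h : Finset (Fin n) → ℝ) (A : Finset (Fin n)) : ℝ :=
  h A - ∑ i ∈ A, (h (insert i (pre i.val)) - h (pre i.val))

theorem kk_nsf (h : Finset (Fin n) → ℝ) (h0 : h ∅ = 0)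
    (hsub : ∀ A B, h (A ∪ B) + h (A ∩ B) ≤ h A + h B) : Nsf (kk h) where
  nn A := by
    have h1 := tele h A
    rw [h0, sub_zero] at h1
    unfold kk
    rw [h1, ← sum_filter, filter_mem_eq_inter, univ_inter, ← sum_sub_distrib]
    apply sum_nonneg
    intro j hj
    have h2 := hsub (insert j (A ∩ pre j.val)) (pre j.val)
    have e1 : insert j (A ∩ pre j.val) ∪ pre j.val = insert j (pre j.val) := by
      rw [insert_union, union_eq_right.mpr inter_subset_right]
    have e2 : insert j (A ∩ pre j.val) ∩ pre j.val = A ∩ pre j.val := by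
      ext i
      simp only [mem_inter, mem_insert, mem_pre]
      constructor
      · rintro ⟨rfl | h2, h3⟩
        · exact absurd h3 (lt_irrefl _)
        · exact h2
      · rintro ⟨h2, h3⟩
        exact ⟨Or.inr ⟨h2, h3⟩, h3⟩
    rw [e1, e2] at h2
    linarith
  empty := by simp [kk, h0]
  sub A B := by
    unfold kk
    have h1 := hsub A B
    have h2 := sum_union_inter (s₁ := A) (s₂ := B)
      (f := fun i : Fin n => h (insert i (pre i.val)) - h (pre i.val))
    linarith

theorem kk_sum (h : Finset (Fin n) → ℝ) (h0 : h ∅ = 0) (P : Finset (Fin n) → ℝ) (p : ℝ)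
    (hcov : ∀ i, ∑ A, (if i ∈ A then P A else 0) = p) :
    ∑ A, P A * kk h A = ∑ A, P A * h A - p * h univ := by
  have h1 : ∑ A, P A * ∑ i ∈ A, (h (insert i (pre i.val)) - h (pre i.val)) = p * h univ := by
    have e1 : ∀ A : Finset (Fin n), P A * ∑ i ∈ A, (h (insert i (pre i.val)) - h (pre i.val))
        = ∑ i : Fin n, (if i ∈ A then P A else 0)
          * (h (insert i (pre i.val)) - h (pre i.val)) := by
      intro A
      have e2 : ∑ i ∈ A, (h (insert i (pre i.val)) - h (pre i.val))
          = ∑ i : Fin n, if i ∈ A then (h (insert i (pre i.val)) - h (pre i.val)) else 0 := by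
        rw [← sum_filter, filter_mem_eq_inter, univ_inter]
      rw [e2, mul_sum]
      apply sum_congr rfl
      intro j _
      split_ifs <;> ring
    simp only [e1]
    rw [sum_comm]
    simp only [← sum_mul, hcov]
    rw [← mul_sum]
    congr 1
    have h2 := tele h univ
    rw [h0, sub_zero] at h2
    rw [h2]
    apply sum_congr rfl
    intro j _
    rw [if_pos (mem_univ _), univ_inter]
  unfold kk
  simp only [mul_sub]
  rw [sum_sub_distrib, h1]

/-- the box theorem for weights, with a linear dependence on the separation -/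
theorem box_lin (P : Finset (Fin n) → ℝ) (p s : ℝ) (h : Cv P p s) (hs : 0 < s) (hs1 : s ≤ 1)
    (S : Finset (Fin n → ℤ)) (hS : S.Nonempty) :
    ∃ B : Fin n → Finset ℤ, s * ((symmDiff S (Fintype.piFinset B)).card : ℝ)
      ≤ 15 * 10 ^ 7 * 80 ^ 25 * Df P p S := by
  obtain ⟨P', p', h', hk⟩ := boost_all P p s h hs hs1
  have h1 := hk (kk (hN S)) (kk_nsf (hN S) (hN_empty S) (hN_submod S))
  rw [kk_sum (hN S) (hN_empty S) P' p' h'.cov, kk_sum (hN S) (hN_empty S) P p h.cov] at h1
  obtain ⟨B, hB⟩ := btc n P' p' (1 / 80 ^ 5) (by positivity) (by norm_num) h' S hS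
  refine ⟨B, ?_⟩
  have h2 : s * Df P' p' S ≤ 15 * Df P p S := h1
  have h3 : ((symmDiff S (Fintype.piFinset B)).card : ℝ) ≤ 10 ^ 7 * 80 ^ 25 * Df P' p' S := by
    have e1 : ((1 : ℝ) / 80 ^ 5) ^ 5 = 1 / 80 ^ 25 := by
      rw [div_pow, one_pow, ← pow_mul]
    rw [e1] at hB
    have h4 := mul_le_mul_of_nonneg_left hB (show (0 : ℝ) ≤ 80 ^ 25 by positivity)
    have h5 : (80 : ℝ) ^ 25 * (1 / 80 ^ 25 * ((symmDiff S (Fintype.piFinset B)).card : ℝ))
        = ((symmDiff S (Fintype.piFinset B)).card : ℝ) := by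
      field_simp
    rw [h5] at h4
    linarith
  calc s * ((symmDiff S (Fintype.piFinset B)).card : ℝ)
      ≤ s * (10 ^ 7 * 80 ^ 25 * Df P' p' S) := mul_le_mul_of_nonneg_left h3 hs.le
    _ = 10 ^ 7 * 80 ^ 25 * (s * Df P' p' S) := by ring
    _ ≤ 10 ^ 7 * 80 ^ 25 * (15 * Df P p S) := mul_le_mul_of_nonneg_left h2 (by positivity)
    _ = 15 * 10 ^ 7 * 80 ^ 25 * Df P p S := by ring

end Pool.Agent.W211
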