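import Pool.Agent.W211.Single

/-!
The missing points.
-/

namespace Pool.Agent.W211

open Finset
open Pool.Agent.H488R3.UC

variable {n : ℕ}

theorem bp_compl (B : Fin n → Finset ℤ) (A : Finset (Fin n)) :
    bp B A * bp B Aᶜ = (Fintype.piFinset B).card := by
  rw [card_box]
  unfold bp
  exact prod_mul_prod_compl A _

theorem sum_ind_cr (B : Fin n → Finset ℤ) (hne : ∀ i, (B i).Nonempty) (F : Finset (Fin n → ℤ))
    (hF : F ⊆ Fintype.piFinset B) (A : Finset (Fin n)) (x : Fin n → ℤ)
    (hx : x ∈ Fintype.piFinset B) :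
    ∑ y ∈ Fintype.piFinset B, ind F (cr A x y) = bp B A * fc A F x := by
  classical
  set R := Fintype.piFinset B with hR
  have h1 : ∀ y ∈ R, ind F (cr A x y)
      = ∑ w ∈ F, if Agr A x w ∧ Agr Aᶜ w y then (1 : ℝ) else 0 := by
    intro y _
    unfold ind
    by_cases h : cr A x y ∈ F
    · rw [if_pos h, sum_eq_single (cr A x y)]
      · have h2 := (cr_eq_iff A x y (cr A x y)).mp rfl
        rw [if_pos ⟨h2.1.symm, h2.2⟩]
      · intro w _ hw
        rw [if_neg]
        rintro ⟨h2, h3⟩
        exact hw ((cr_eq_iff A x y w).mpr ⟨h2.symm, h3⟩).symm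
      · intro h2; exact absurd h h2
    · rw [if_neg h]
      symm
      apply sum_eq_zero
      intro w hw
      rw [if_neg]
      rintro ⟨h2, h3⟩
      apply h
      rw [(cr_eq_iff A x y w).mpr ⟨h2.symm, h3⟩]
      exact hw
  rw [sum_congr rfl h1, sum_comm]
  have h2 : ∀ w ∈ F, ∑ y ∈ R, (if Agr A x w ∧ Agr Aᶜ w y then (1 : ℝ) else 0)
      = if Agr A x w then bp B A else 0 := by
    intro w hw
    split_ifs with h3
    · have h4 : ∑ y ∈ R, (if Agr A x w ∧ Agr Aᶜ w y then (1 : ℝ) else 0) = fc Aᶜ R w := by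
        unfold fc
        rw [card_filter]
        push_cast
        apply sum_congr rfl
        intro y _
        simp only [h3, true_and]
      rw [h4]
      have h5 := fc_box B Aᶜ w (fun i _ => Fintype.mem_piFinset.mp (hF hw) i)
      rw [← bp_compl B A, ← hR] at h5
      have h6 := bp_pos B hne Aᶜ
      have h7 : bp B Aᶜ * (fc Aᶜ R w : ℝ) = bp B Aᶜ * bp B A := by linarith
      exact mul_left_cancel₀ h6.ne' h7
    · apply sum_eq_zero
      intro y _
      rw [if_neg (fun h' : Agr A x w ∧ _ => h3 h'.1)]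
  rw [sum_congr rfl h2, ← sum_filter, sum_const, nsmul_eq_mul]
  unfold fc
  ring

theorem KF_QQ (B : Fin n → Finset ℤ) (hne : ∀ i, (B i).Nonempty) (F : Finset (Fin n → ℤ))
    (hF : F ⊆ Fintype.piFinset B) (hFne : F.Nonempty) (A : Finset (Fin n)) :
    KF B F A ≤ QQ B A (ind F) / F.card - F.card := by
  classical
  have hN : (0 : ℝ) < F.card := by exact_mod_cast card_pos.mpr hFne
  have hb := bp_pos B hne A
  rw [KF_eq B hne]
  have h1 : QQ B A (ind F) = ∑ x ∈ F, bp B A * fc A F x := by
    unfold QQ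
    have h2 : ∀ x ∈ Fintype.piFinset B, ∑ y ∈ Fintype.piFinset B, ind F x * ind F (cr A x y)
        = if x ∈ F then bp B A * fc A F x else 0 := by
      intro x hx
      rw [← mul_sum, sum_ind_cr B hne F hF A x hx]
      unfold ind
      split_ifs <;> simp
    rw [sum_congr rfl h2, ← sum_filter, filter_mem_eq_inter, inter_eq_right.mpr hF]
  have h2 : QQ B A (ind F) / F.card - F.card
      = ∑ x ∈ F, (bp B A * fc A F x / F.card - 1) := by
    rw [h1, sum_sub_distrib, sum_const, nsmul_eq_mul, mul_one, sum_div]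
  rw [h2]
  apply sum_le_sum
  intro x hx
  have hfc : (0 : ℝ) < fc A F x := by exact_mod_cast fc_pos hx
  have h3 := Real.log_le_sub_one_of_pos (div_pos (mul_pos hb hfc) hN)
  rw [Real.log_div (mul_pos hb hfc).ne' hN.ne', Real.log_mul hb.ne' hfc.ne'] at h3
  exact h3

theorem QQ_diff (B : Fin n → Finset ℤ) (M : Finset (Fin n → ℤ))
    (hM : M ⊆ Fintype.piFinset B) (A : Finset (Fin n)) :
    QQ B A (ind (Fintype.piFinset B \ M)) = ((Fintype.piFinset B).card : ℝ) ^ 2
      - 2 * ((Fintype.piFinset B).card * M.card) + QQ B A (ind M) := by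
  classical
  set R := Fintype.piFinset B with hR
  have h1 : ∀ x ∈ R, ind (R \ M) x = 1 - ind M x := by
    intro x hx
    unfold ind
    by_cases h : x ∈ M
    · simp [h]
    · simp [h, hx]
  have h2 : QQ B A (ind (R \ M)) = ∑ x ∈ R, ∑ y ∈ R,
      (1 - ind M x - ind M (cr A x y) + ind M x * ind M (cr A x y)) := by
    unfold QQ
    apply sum_congr rfl
    intro x hx
    apply sum_congr rfl
    intro y hy
    rw [h1 x hx, h1 (cr A x y) (cr_mem B hx hy)]
    ring
  rw [h2]
  have h3 := sum_cr B A (ind M)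
  have h4 := s1_ind B M hM
  unfold s1 at h4
  rw [h4] at h3
  simp only [sum_add_distrib, sum_sub_distrib, sum_const, nsmul_eq_mul, mul_one]
  rw [h3]
  have h5 : ∑ x ∈ R, (R.card : ℝ) * ind M x = R.card * M.card := by
    rw [← mul_sum, h4]
  rw [h5]
  unfold QQ
  rw [← hR]
  ring

theorem miss {P : Finset (Fin n) → ℝ} {p c : ℝ} (h : Cv P p c) (hc0 : 0 < c) (hc1 : c ≤ 1)
    (S : Finset (Fin n → ℤ)) (B : Fin n → Finset ℤ) (hopt : Opt S B)
    (hne : ∀ i, (B i).Nonempty)
    (hsmall : 50 * ((Fintype.piFinset B \ S).card : ℝ) ≤ c * (Fintype.piFinset B).card) :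
    c / 5 * ((Fintype.piFinset B \ S).card : ℝ) ≤ Df P p S := by
  classical
  set R := Fintype.piFinset B with hR
  set M := R \ S with hMd
  set F := S ∩ R with hFd
  have hD0 := Df_nonneg P h.nn p h.cov S
  rcases M.eq_empty_or_nonempty with hMe | hMne
  · rw [hMe]; simpa using hD0
  refine le_trans ?_ (restr P h.nn p h.cov S B)
  rw [← hR, ← hFd]
  have hRpos : (0 : ℝ) < R.card := by rw [hR, card_box]; exact bp_pos _ hne univ
  have hM : M ⊆ R := sdiff_subset
  have hFR : F ⊆ R := inter_subset_right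
  have hm0 : (0 : ℝ) < M.card := by exact_mod_cast card_pos.mpr hMne
  have hFM : F = R \ M := by
    ext x
    rw [hFd, hMd, mem_inter, mem_sdiff, mem_sdiff]
    tauto
  have hFc : (F.card : ℝ) = R.card - M.card := by
    have := card_sdiff_add R S
    rw [inter_comm, ← hFd, ← hMd] at this
    linarith
  set b : ℝ := (R.card : ℝ) with hb
  set m : ℝ := (M.card : ℝ) with hm
  have hcb : c * b ≤ 1 * b := mul_le_mul_of_nonneg_right hc1 hRpos.le
  have hFpos : (0 : ℝ) < F.card := by rw [hFc]; linarith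
  have hFne : F.Nonempty := by
    have : 0 < F.card := by exact_mod_cast hFpos
    exact card_pos.mp this
  -- `p ≤ 1`
  have hp1 : p ≤ 1 := by
    obtain ⟨x, hx⟩ := hMne
    obtain ⟨y, hy⟩ := hFne
    have hxy : x ≠ y := by
      rintro rfl
      exact (mem_sdiff.mp hx).2 (mem_inter.mp hy).1
    obtain ⟨i, _⟩ := Function.ne_iff.mp hxy
    rw [← h.cov i, ← h.tot]
    apply sum_le_sum
    intro A _
    split_ifs
    · exact le_refl _
    · exact h.nn A
  have hw := level1 B hne M hM (fun i u hu => opt_in hopt i u hu) (by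
    rw [← hR, ← hb, ← hm]; linarith)
  rw [← hR, ← hb, ← hm] at hw
  have hes := es_two B (ind M) P h.nn 1 p (p - c) h.tot (fun i => (h.cov i).le)
    (fun i j hij => by
      have h1 := h.cov i
      have h2 := h.sep i j hij
      have h3 : ∑ A, (if i ∈ A then P A else 0)
          = ∑ A, (if i ∈ A ∧ j ∈ A then P A else 0) + ∑ A, (if i ∈ A ∧ j ∉ A then P A else 0) := by
        rw [← sum_add_distrib]
        apply sum_congr rfl
        intro A _
        by_cases hi : i ∈ A <;> by_cases hj : j ∈ A <;> simp [hi, hj]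
      linarith)
  rw [s1_ind B M hM, s2_ind B M hM, ← hR, ← hb, ← hm] at hes
  set W := w1 B (ind M) with hW
  have hK := Df_KF B F P p h.cov
  have hu := KF_univ B hne F hFR hFne
  have h1 : ∑ A, P A * KF B F A ≤ (b ^ 2 - 2 * (b * m) + ∑ A, P A * QQ B A (ind M)) / F.card
      - F.card := by
    have h2 := sum_le_sum (fun A (_ : A ∈ (univ : Finset (Finset (Fin n)))) =>
      mul_le_mul_of_nonneg_left (KF_QQ B hne F hFR hFne A) (h.nn A))
    refine h2.trans (le_of_eq ?_)
    have h3 : ∀ A, P A * (QQ B A (ind F) / F.card - F.card)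
        = P A * ((b ^ 2 - 2 * (b * m)) / F.card - F.card) + P A * QQ B A (ind M) / F.card := by
      intro A
      have h4 := QQ_diff B M hM A
      rw [← hR, ← hFM, ← hb, ← hm] at h4
      rw [h4]
      ring
    rw [sum_congr rfl (fun A _ => h3 A), sum_add_distrib, ← sum_mul, h.tot, one_mul,
      ← sum_div]
    ring
  have h2 : (b ^ 2 - 2 * (b * m) + ∑ A, P A * QQ B A (ind M)) / F.card - F.card
      ≤ p * m - c * (m - W / F.card) := by
    rw [sub_le_iff_le_add, div_le_iff₀ hFpos]
    have e1 : (p * m - c * (m - W / F.card) + F.card) * F.card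
        = p * m * F.card - c * (m * F.card - W) + F.card * F.card := by
      field_simp
    rw [e1, hFc]
    nlinarith
  have h3 : (F.card : ℝ) * (m / b) ≤ KF B F univ := by
    rw [hu, ← hR, ← hb]
    apply mul_le_mul_of_nonneg_left _ hFpos.le
    have h4 := Real.log_le_sub_one_of_pos (div_pos hFpos hRpos)
    have h5 : m / b = 1 - F.card / b := by
      rw [hFc]; field_simp; ring
    rw [h5]
    linarith
  have hp0 : 0 ≤ p := by
    obtain ⟨x, hx⟩ := hMne
    obtain ⟨y, hy⟩ := hFne
    have hxy : x ≠ y := by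
      rintro rfl
      exact (mem_sdiff.mp hx).2 (mem_inter.mp hy).1
    obtain ⟨i, _⟩ := Function.ne_iff.mp hxy
    rw [← h.cov i]
    apply sum_nonneg
    intro A _
    split_ifs
    · exact h.nn A
    · exact le_refl _
  have h4 := mul_le_mul_of_nonneg_left h3 hp0
  have h5 : W / F.card ≤ 5 / 7 * m := by
    rw [div_le_iff₀ hFpos]
    have h6 : 49 / 50 * b ≤ F.card := by rw [hFc]; linarith
    have h7 : m * (49 / 50 * b) ≤ m * F.card := mul_le_mul_of_nonneg_left h6 hm0.le
    linarith
  have h6 : p * m - p * (F.card * (m / b)) ≤ c / 50 * m := by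
    have e1 : p * m - p * (F.card * (m / b)) = p * (m * (m / b)) := by
      rw [hFc]; field_simp; ring
    rw [e1]
    have h7 : m / b ≤ c / 50 := by
      rw [div_le_iff₀ hRpos]; linarith
    have h8 : m * (m / b) ≤ m * (c / 50) := mul_le_mul_of_nonneg_left h7 hm0.le
    have h9 : 0 ≤ m * (m / b) := by positivity
    have h10 : p * (m * (m / b)) ≤ 1 * (m * (m / b)) := mul_le_mul_of_nonneg_right hp1 h9
    linarith
  have h7 : c * (m - 5 / 7 * m) ≤ c * (m - W / F.card) :=
    mul_le_mul_of_nonneg_left (by linarith) hc0.le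
  have h8 : 0 < c * m := mul_pos hc0 hm0
  rw [hK]
  linarith

end Pool.Agent.W211
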