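import Pool.Agent.W211.Zdec

/-!
The points with several bad coordinates.
-/

namespace Pool.Agent.W211

open Finset
open Pool.Agent.H488R3.UC

variable {n : ℕ}

/-- a weight with uniform coverage `p` which separates all ordered pairs with weight `c` -/
structure Cv (P : Finset (Fin n) → ℝ) (p c : ℝ) : Prop where
  nn : ∀ A, 0 ≤ P A
  tot : ∑ A, P A = 1
  cov : ∀ i, ∑ A, (if i ∈ A then P A else 0) = p
  sep : ∀ i j, i ≠ j → c ≤ ∑ A, if i ∈ A ∧ j ∉ A then P A else 0

/-- the points whose first bad coordinate in `A` is `j` -/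
def cls (B : Fin n → Finset ℤ) (A : Finset (Fin n)) (j : Fin n) (x : Fin n → ℤ) : Prop :=
  (∀ i ∈ A ∩ pre j.val, x i ∈ B i) ∧ x j ∉ B j

/-- some bad coordinate comes before `j` -/
def bef (B : Fin n → Finset ℤ) (j : Fin n) (x : Fin n → ℤ) : Prop :=
  ∃ i ∈ (pre j.val : Finset (Fin n)), x i ∉ B i

instance (B : Fin n → Finset ℤ) (A : Finset (Fin n)) (j : Fin n) :
    DecidablePred (cls B A j) := fun x =>
  inferInstanceAs (Decidable ((∀ i ∈ A ∩ pre j.val, x i ∈ B i) ∧ x j ∉ B j))

instance (B : Fin n → Finset ℤ) (j : Fin n) : DecidablePred (bef B j) := fun x =>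
  inferInstanceAs (Decidable (∃ i ∈ (pre j.val : Finset (Fin n)), x i ∉ B i))

theorem key_cls (B : Fin n → Finset ℤ) (A : Finset (Fin n)) (j : Fin n) (x : Fin n → ℤ) :
    mask (insert j (A ∩ pre j.val)) (Zm (bz B) x) = (fun i => if i = j then 1 else 0)
      ↔ cls B A j x := by
  unfold cls
  constructor
  · intro h
    refine ⟨fun i hi => ?_, ?_⟩
    · have h1 := congrFun h i
      have h2 : i ≠ j := by
        rintro rfl
        have := mem_pre.mp (mem_inter.mp hi).2
        omega
      simp only [mask, mem_insert_of_mem hi, if_true, Zm, bz, h2, if_false] at h1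
      by_contra h3
      rw [if_neg h3] at h1
      exact one_ne_zero h1
    · have h1 := congrFun h j
      simp only [mask, mem_insert_self, if_true, Zm, bz] at h1
      intro h2
      rw [if_pos h2] at h1
      exact zero_ne_one h1
  · rintro ⟨h1, h2⟩
    funext i
    simp only [mask, Zm, bz]
    by_cases hi : i = j
    · rw [hi]; simp [h2]
    · by_cases h3 : i ∈ A ∩ pre j.val
      · simp [h3, hi, h1 i h3]
      · simp [h3, hi]

theorem brace_multi (B : Fin n → Finset ℤ) (S : Finset (Fin n → ℤ)) (A : Finset (Fin n))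
    (j : Fin n) (hR : (S ∩ Fintype.piFinset B).Nonempty) :
    ((S.filter (fun x => cls B A j x ∧ bef B j x)).card : ℝ)
      - 2 * (((S.filter (cls B A j)).card : ℝ) / (S ∩ Fintype.piFinset B).card)
        * (S \ Fintype.piFinset B).card
      ≤ (HZ (bz B) S (insert j (A ∩ pre j.val)) - HZ (bz B) S (A ∩ pre j.val))
        - (HZ (bz B) S (insert j (pre j.val)) - HZ (bz B) S (pre j.val)) := by
  classical
  have hR0 : (0 : ℝ) < (S ∩ Fintype.piFinset B).card := by exact_mod_cast card_pos.mpr hR
  set e : Fin n → ℤ := fun i => if i = j then 1 else 0 with he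
  have h := brace_ge (bz B) S j (A ∩ pre j.val) inter_subset_right
    (fun v => if v = e then 1 else 0) (fun _ x => bef B j x) (fun _ x y hxy => by
      unfold bef
      rw [mask_eq_iff] at hxy
      constructor
      · rintro ⟨i, hi, h1⟩
        refine ⟨i, hi, fun h2 => h1 ?_⟩
        have h3 := hxy i hi
        simp only [Zm, bz, h2, if_true] at h3
        by_contra h4
        rw [if_neg h4] at h3
        exact one_ne_zero h3
      · rintro ⟨i, hi, h1⟩
        refine ⟨i, hi, fun h2 => h1 ?_⟩
        have h3 := hxy i hi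
        simp only [Zm, bz, h2, if_true] at h3
        by_contra h4
        rw [if_neg h4] at h3
        exact zero_ne_one h3)
  refine le_trans ?_ h
  set G : (Fin n → ℤ) → ℝ := fun v =>
    ((S.filter (fun x => mask (insert j (A ∩ pre j.val)) (Zm (bz B) x) = v ∧ bef B j x)).card : ℝ)
      - (Real.exp 1 - 1)
        * (((S.filter (fun x => mask (insert j (A ∩ pre j.val)) (Zm (bz B) x) = v)).card : ℝ)
        / (S.filter (fun x => mask (A ∩ pre j.val) (Zm (bz B) x)
          = mask (A ∩ pre j.val) v)).card)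
        * (S.filter (fun x => mask (A ∩ pre j.val) (Zm (bz B) x)
          = mask (A ∩ pre j.val) v ∧ bef B j x)).card with hG
  have h1 : ∀ v, ((if v = e then (1 : ℝ) else 0)
      * (S.filter (fun x => mask (insert j (A ∩ pre j.val)) (Zm (bz B) x) = v
        ∧ bef B j x)).card
      - (Real.exp (if v = e then (1 : ℝ) else 0) - 1)
        * (((S.filter (fun x => mask (insert j (A ∩ pre j.val)) (Zm (bz B) x) = v)).card : ℝ)
        / (S.filter (fun x => mask (A ∩ pre j.val) (Zm (bz B) x)
          = mask (A ∩ pre j.val) v)).card)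
        * (S.filter (fun x => mask (A ∩ pre j.val) (Zm (bz B) x)
          = mask (A ∩ pre j.val) v ∧ bef B j x)).card) = if v = e then G v else 0 := by
    intro v
    split_ifs with hv
    · simp only [hG]; ring
    · simp
  rw [sum_congr rfl (fun v _ => h1 v), sum_ite_eq']
  have h2 : G e ≤ if e ∈ S.image (fun x => mask (insert j (A ∩ pre j.val)) (Zm (bz B) x))
      then G e else 0 := by
    split_ifs with h3
    · exact le_refl _
    · have h4 : S.filter (fun x => mask (insert j (A ∩ pre j.val)) (Zm (bz B) x) = e) = ∅ := by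
        rw [eq_empty_iff_forall_notMem]
        intro x hx
        obtain ⟨h5, h6⟩ := mem_filter.mp hx
        exact h3 (mem_image.mpr ⟨x, h5, h6⟩)
      have h5 : S.filter (fun x => mask (insert j (A ∩ pre j.val)) (Zm (bz B) x) = e
          ∧ bef B j x) = ∅ := by
        rw [eq_empty_iff_forall_notMem]
        intro x hx
        obtain ⟨h5, h6, _⟩ := mem_filter.mp hx
        exact h3 (mem_image.mpr ⟨x, h5, h6⟩)
      simp only [hG, h4, h5]
      simp
  refine le_trans ?_ h2
  simp only [hG]
  have e1 : S.filter (fun x => mask (insert j (A ∩ pre j.val)) (Zm (bz B) x) = e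
      ∧ bef B j x) = S.filter (fun x => cls B A j x ∧ bef B j x) := by
    apply filter_congr
    intro x _
    rw [he, key_cls]
  have e2 : S.filter (fun x => mask (insert j (A ∩ pre j.val)) (Zm (bz B) x) = e)
      = S.filter (cls B A j) := by
    apply filter_congr
    intro x _
    rw [he, key_cls]
  have e3 : mask (A ∩ pre j.val) e = 0 := by
    funext i
    simp only [mask, he, Pi.zero_apply]
    by_cases hi : i ∈ A ∩ pre j.val
    · have h2 : i ≠ j := by
        rintro rfl
        have := mem_pre.mp (mem_inter.mp hi).2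
        omega
      simp [h2]
    · simp [hi]
  rw [e1, e2, e3]
  set T := S.filter (fun x => mask (A ∩ pre j.val) (Zm (bz B) x) = 0) with hT
  have h3 : ((S ∩ Fintype.piFinset B).card : ℝ) ≤ T.card := by
    have : S ∩ Fintype.piFinset B ⊆ T := by
      intro x hx
      obtain ⟨h4, h5⟩ := mem_inter.mp hx
      refine mem_filter.mpr ⟨h4, ?_⟩
      rw [bz_good]
      exact fun i _ => Fintype.mem_piFinset.mp h5 i
    exact_mod_cast card_le_card this
  have h4 : ((S.filter (fun x => mask (A ∩ pre j.val) (Zm (bz B) x) = 0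
      ∧ bef B j x)).card : ℝ) ≤ (S \ Fintype.piFinset B).card := by
    have : S.filter (fun x => mask (A ∩ pre j.val) (Zm (bz B) x) = 0 ∧ bef B j x)
        ⊆ S \ Fintype.piFinset B := by
      intro x hx
      obtain ⟨h4, _, i, _, h6⟩ := mem_filter.mp hx
      exact mem_sdiff.mpr ⟨h4, fun h7 => h6 (Fintype.mem_piFinset.mp h7 i)⟩
    exact_mod_cast card_le_card this
  have hcl : (0 : ℝ) ≤ (S.filter (cls B A j)).card := Nat.cast_nonneg _
  have h5 : ((S.filter (cls B A j)).card : ℝ) / T.card
      ≤ ((S.filter (cls B A j)).card : ℝ) / (S ∩ Fintype.piFinset B).card :=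
    div_le_div_of_nonneg_left hcl hR0 h3
  have h6 : (Real.exp 1 - 1) * (((S.filter (cls B A j)).card : ℝ) / T.card)
      ≤ 2 * (((S.filter (cls B A j)).card : ℝ) / (S ∩ Fintype.piFinset B).card) :=
    mul_le_mul e_up h5 (div_nonneg hcl (Nat.cast_nonneg _)) (by norm_num)
  have h7 := mul_le_mul h6 h4 (Nat.cast_nonneg _)
    (mul_nonneg (by norm_num) (div_nonneg hcl hR0.le))
  linarith

theorem sum_cls (B : Fin n → Finset ℤ) (S : Finset (Fin n → ℤ)) (A : Finset (Fin n)) :
    ∑ j : Fin n, (if j ∈ A then ((S.filter (cls B A j)).card : ℝ) else 0)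
      ≤ (S \ Fintype.piFinset B).card := by
  classical
  have h1 : ∀ j : Fin n, (if j ∈ A then ((S.filter (cls B A j)).card : ℝ) else 0)
      = ∑ x ∈ S, if j ∈ A ∧ cls B A j x then (1 : ℝ) else 0 := by
    intro j
    split_ifs with hj
    · rw [card_filter]
      push_cast
      apply sum_congr rfl
      intro x _
      simp [hj]
    · simp [hj]
  simp only [h1]
  rw [sum_comm]
  have h2 : ((S \ Fintype.piFinset B).card : ℝ)
      = ∑ x ∈ S, if x ∉ Fintype.piFinset B then (1 : ℝ) else 0 := by
    rw [← sum_filter, sum_const, nsmul_eq_mul, mul_one]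
    congr 2
    ext x
    rw [mem_sdiff, mem_filter]
  rw [h2]
  apply sum_le_sum
  intro x _
  rw [← sum_filter, sum_const, nsmul_eq_mul, mul_one]
  by_cases h3 : x ∉ Fintype.piFinset B
  · rw [if_pos h3]
    have : (univ.filter (fun j => j ∈ A ∧ cls B A j x)).card ≤ 1 := by
      rw [card_le_one]
      intro j hj j' hj'
      obtain ⟨_, h4, h5, h6⟩ := mem_filter.mp hj
      obtain ⟨_, h4', h5', h6'⟩ := mem_filter.mp hj'
      rcases lt_trichotomy j j' with h7 | h7 | h7
      · exact absurd (h5' j (mem_inter.mpr ⟨h4, mem_pre.mpr h7⟩)) h6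
      · exact h7
      · exact absurd (h5 j' (mem_inter.mpr ⟨h4', mem_pre.mpr h7⟩)) h6'
    exact_mod_cast this
  · rw [if_neg h3]
    have : univ.filter (fun j => j ∈ A ∧ cls B A j x) = ∅ := by
      rw [eq_empty_iff_forall_notMem]
      intro j hj
      obtain ⟨_, _, _, h6⟩ := mem_filter.mp hj
      exact h6 (Fintype.mem_piFinset.mp (not_not.mp h3) j)
    rw [this]; simp

theorem sum_cls_bef {P : Finset (Fin n) → ℝ} {p c : ℝ} (h : Cv P p c) (B : Fin n → Finset ℤ)
    (S : Finset (Fin n → ℤ)) :
    c * ((O2 S B).card : ℝ) ≤ ∑ A : Finset (Fin n), P A * ∑ j : Fin n,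
      (if j ∈ A then ((S.filter (fun x => cls B A j x ∧ bef B j x)).card : ℝ) else 0) := by
  classical
  have h1 : ∀ A : Finset (Fin n), P A * ∑ j : Fin n,
      (if j ∈ A then ((S.filter (fun x => cls B A j x ∧ bef B j x)).card : ℝ) else 0)
      = ∑ x ∈ S, P A * ∑ j : Fin n, if j ∈ A ∧ cls B A j x ∧ bef B j x then (1 : ℝ) else 0 := by
    intro A
    rw [← mul_sum, sum_comm]
    congr 1
    apply sum_congr rfl
    intro j _
    split_ifs with hj
    · rw [card_filter]
      push_cast
      apply sum_congr rfl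
      intro x _
      simp [hj]
    · simp [hj]
  simp only [h1]
  rw [sum_comm]
  have h0 : ∀ x ∈ S, 0 ≤ ∑ A : Finset (Fin n), P A * ∑ j : Fin n,
      (if j ∈ A ∧ cls B A j x ∧ bef B j x then (1 : ℝ) else 0) := by
    intro x _
    apply sum_nonneg
    intro A _
    apply mul_nonneg (h.nn A)
    apply sum_nonneg
    intro j _
    split_ifs <;> norm_num
  have hsub : O2 S B ⊆ S := fun x hx => (mem_sdiff.mp (mem_filter.mp hx).1).1
  have h2 : c * ((O2 S B).card : ℝ) = ∑ _x ∈ O2 S B, c := by
    rw [sum_const, nsmul_eq_mul]; ring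
  rw [h2]
  refine le_trans (sum_le_sum (g := fun x => ∑ A : Finset (Fin n), P A * ∑ j : Fin n,
      (if j ∈ A ∧ cls B A j x ∧ bef B j x then (1 : ℝ) else 0)) ?_)
    (sum_le_sum_of_subset_of_nonneg hsub (fun x hx _ => h0 x hx))
  intro x hx
  have hcard := two_le_of_O2 hx
  have hne : (bad B x).Nonempty := card_pos.mp (by omega)
  set i1 := (bad B x).min' hne with hi1
  have hi1m : i1 ∈ bad B x := min'_mem _ _
  have hne2 : ((bad B x).erase i1).Nonempty := by
    apply card_pos.mp
    rw [card_erase_of_mem hi1m]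
    omega
  set i2 := ((bad B x).erase i1).min' hne2 with hi2
  have hi2m : i2 ∈ (bad B x).erase i1 := min'_mem _ _
  obtain ⟨hi21, hi2b⟩ := mem_erase.mp hi2m
  have hlt : i1 < i2 := lt_of_le_of_ne (min'_le _ _ hi2b) hi21.symm
  refine (h.sep i2 i1 hi21).trans (sum_le_sum (fun A _ => ?_))
  split_ifs with h3
  · have h4 : (1 : ℝ) ≤ ∑ j : Fin n,
        (if j ∈ A ∧ cls B A j x ∧ bef B j x then (1 : ℝ) else 0) := by
      have h5 : i2 ∈ A ∧ cls B A i2 x ∧ bef B i2 x := by
        refine ⟨h3.1, ⟨fun i hi => ?_, mem_bad.mp hi2b⟩,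
          ⟨i1, mem_pre.mpr hlt, mem_bad.mp hi1m⟩⟩
        obtain ⟨h6, h7⟩ := mem_inter.mp hi
        by_contra h8
        have h9 := mem_bad.mpr h8
        have h10 : i ≠ i1 := by
          rintro rfl; exact h3.2 h6
        have h11 := min'_le ((bad B x).erase i1) i (mem_erase.mpr ⟨h10, h9⟩)
        rw [← hi2] at h11
        have h12 := mem_pre.mp h7
        exact absurd h12 (not_lt.mpr h11)
      have h6 := single_le_sum (f := fun j : Fin n =>
        if j ∈ A ∧ cls B A j x ∧ bef B j x then (1 : ℝ) else 0)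
        (fun j _ => by split_ifs <;> norm_num) (mem_univ i2)
      rw [if_pos h5] at h6
      exact h6
    have := mul_le_mul_of_nonneg_left h4 (h.nn A)
    linarith
  · apply mul_nonneg (h.nn A)
    apply sum_nonneg
    intro j _
    split_ifs <;> norm_num

/-- the lower bound from points with several bad coordinates -/
theorem multi {P : Finset (Fin n) → ℝ} {p c : ℝ} (h : Cv P p c) (B : Fin n → Finset ℤ)
    (S : Finset (Fin n → ℤ)) (hR : (S ∩ Fintype.piFinset B).Nonempty) :
    c * ((O2 S B).card : ℝ) - 2 * ((S \ Fintype.piFinset B).card : ℝ)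
        * ((S \ Fintype.piFinset B).card / (S ∩ Fintype.piFinset B).card) ≤ Df P p S := by
  classical
  have hR0 : (0 : ℝ) < (S ∩ Fintype.piFinset B).card := by exact_mod_cast card_pos.mpr hR
  set o : ℝ := ((S \ Fintype.piFinset B).card : ℝ) with ho
  set r : ℝ := ((S ∩ Fintype.piFinset B).card : ℝ) with hr
  have ho0 : 0 ≤ o := Nat.cast_nonneg _
  have h1 := Df_split (bz B) P p S
  have h2 : 0 ≤ ∑ v ∈ S.image (fun x => mask univ (Zm (bz B) x)), Df P p (cell (bz B) S v) :=
    sum_nonneg (fun v _ => Df_nonneg P h.nn p h.cov _)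
  have h3 : 0 ≤ ∑ A, P A * JZ (bz B) S A :=
    sum_nonneg (fun A _ => mul_nonneg (h.nn A) (JZ_nonneg _ _ _))
  have h4 : ∑ A : Finset (Fin n), P A * ∑ j : Fin n, (if j ∈ A then
      (((S.filter (fun x => cls B A j x ∧ bef B j x)).card : ℝ)
      - 2 * (((S.filter (cls B A j)).card : ℝ) / r) * o) else 0) ≤ DZ (bz B) P p S := by
    rw [DZ_rem (bz B) P p h.cov S]
    apply sum_le_sum
    intro A _
    apply mul_le_mul_of_nonneg_left _ (h.nn A)
    apply sum_le_sum
    intro j _
    split_ifs with hj
    · exact brace_multi B S A j hR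
    · exact le_refl _
  have h5 := sum_cls_bef h B S
  have h6 : ∑ A : Finset (Fin n), P A * ∑ j : Fin n, (if j ∈ A then
      (((S.filter (fun x => cls B A j x ∧ bef B j x)).card : ℝ)
      - 2 * (((S.filter (cls B A j)).card : ℝ) / r) * o) else 0)
      = ∑ A : Finset (Fin n), P A * ∑ j : Fin n,
      (if j ∈ A then ((S.filter (fun x => cls B A j x ∧ bef B j x)).card : ℝ) else 0)
      - 2 * (o / r) * ∑ A : Finset (Fin n), P A * ∑ j : Fin n,
      (if j ∈ A then ((S.filter (cls B A j)).card : ℝ) else 0) := by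
    rw [mul_sum, ← sum_sub_distrib]
    apply sum_congr rfl
    intro A _
    have e1 : 2 * (o / r) * (P A * ∑ j : Fin n,
        (if j ∈ A then ((S.filter (cls B A j)).card : ℝ) else 0))
        = P A * ∑ j : Fin n, 2 * (o / r)
          * (if j ∈ A then ((S.filter (cls B A j)).card : ℝ) else 0) := by
      rw [← mul_sum]; ring
    rw [e1, ← mul_sub, ← sum_sub_distrib]
    congr 1
    apply sum_congr rfl
    intro j _
    split_ifs <;> ring
  have h7 : ∑ A : Finset (Fin n), P A * ∑ j : Fin n,
      (if j ∈ A then ((S.filter (cls B A j)).card : ℝ) else 0) ≤ o := by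
    have h8 := sum_le_sum (fun A (_ : A ∈ (univ : Finset (Finset (Fin n)))) =>
      mul_le_mul_of_nonneg_left (sum_cls B S A) (h.nn A))
    rw [← sum_mul, h.tot, one_mul] at h8
    exact h8
  have h9 := mul_le_mul_of_nonneg_left h7 (show 0 ≤ 2 * (o / r) by positivity)
  have h10 : 2 * (o / r) * o = 2 * o * (o / r) := by ring
  linarith

end Pool.Agent.W211
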