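import Pool.Agent.W211.Local

/-!
The rough statement, by induction on the dimension.
-/

namespace Pool.Agent.W211

open Finset
open Pool.Agent.H488R3.UC

variable {n : ℕ}

theorem Cv.trm {P : Finset (Fin (n + 1)) → ℝ} {p c : ℝ} (h : Cv P p c) : Cv (trm P) p c where
  nn := fun C => add_nonneg (h.nn _) (h.nn _)
  tot := by
    rw [← h.tot, sum_succ P, ← sum_add_distrib]; rfl
  cov := by
    intro i
    rw [← h.cov i.castSucc, sum_succ, ← sum_add_distrib]
    apply sum_congr rfl
    intro C _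
    have e1 : i.castSucc ∈ insert (Fin.last n) (mp C) ↔ i ∈ C := by
      rw [← mem_tr, tr_ins]
    simp only [castSucc_mem_mp, e1]
    unfold Pool.Agent.H488R3.UC.trm
    split_ifs <;> simp
  sep := by
    intro i j hij
    have h1 := h.sep i.castSucc j.castSucc (fun h' => hij (Fin.castSucc_injective n h'))
    rw [sum_succ] at h1
    refine h1.trans (le_of_eq ?_)
    rw [← sum_add_distrib]
    apply sum_congr rfl
    intro C _
    have e1 : i.castSucc ∈ insert (Fin.last n) (mp C) ↔ i ∈ C := by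
      rw [← mem_tr, tr_ins]
    have e2 : j.castSucc ∈ insert (Fin.last n) (mp C) ↔ j ∈ C := by
      rw [← mem_tr, tr_ins]
    simp only [castSucc_mem_mp, e1, e2]
    unfold Pool.Agent.H488R3.UC.trm
    split_ifs <;> simp

theorem Cv.cov_last {P : Finset (Fin (n + 1)) → ℝ} {p c : ℝ} (h : Cv P p c) :
    ∑ C : Finset (Fin n), P (insert (Fin.last n) (mp C)) = p := by
  rw [← h.cov (Fin.last n), sum_succ]
  have h1 : ∑ C : Finset (Fin n), (if Fin.last n ∈ mp C then P (mp C) else 0) = 0 := by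
    apply sum_eq_zero
    intro C _
    rw [if_neg last_not_mem_mp]
  rw [h1, zero_add]
  apply sum_congr rfl
  intro C _
  rw [if_pos (mem_insert_self _ _)]

theorem Cv.tot_mp {P : Finset (Fin (n + 1)) → ℝ} {p c : ℝ} (h : Cv P p c) :
    ∑ C : Finset (Fin n), P (mp C) ≤ 1 := by
  have h1 := h.tot
  rw [sum_succ P] at h1
  have h2 : 0 ≤ ∑ C : Finset (Fin n), P (insert (Fin.last n) (mp C)) :=
    sum_nonneg (fun C _ => h.nn _)
  linarith

theorem Cv.sep_mp {P : Finset (Fin (n + 1)) → ℝ} {p c : ℝ} (h : Cv P p c) (i : Fin n) :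
    c ≤ ∑ C : Finset (Fin n), if i ∈ C then P (mp C) else 0 := by
  have h1 := h.sep i.castSucc (Fin.last n) (Fin.castSucc_lt_last i).ne
  rw [sum_succ] at h1
  refine h1.trans (le_of_eq ?_)
  have h2 : ∑ C : Finset (Fin n), (if i.castSucc ∈ insert (Fin.last n) (mp C)
      ∧ Fin.last n ∉ insert (Fin.last n) (mp C) then P (insert (Fin.last n) (mp C)) else 0)
      = 0 := by
    apply sum_eq_zero
    intro C _
    rw [if_neg]
    rintro ⟨_, h3⟩
    exact h3 (mem_insert_self _ _)
  rw [h2, add_zero]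
  apply sum_congr rfl
  intro C _
  simp only [castSucc_mem_mp, last_not_mem_mp, not_false_eq_true, and_true]

/-- the weighted gain of a slice -/
noncomputable def Gs (P : Finset (Fin (n + 1)) → ℝ) (S : Finset (Fin (n + 1) → ℤ)) (a : ℤ) :
    ℝ := ∑ C : Finset (Fin n), P (mp C) * Gm S a C

theorem Gs_nonneg {P : Finset (Fin (n + 1)) → ℝ} {p c : ℝ} (h : Cv P p c)
    (S : Finset (Fin (n + 1) → ℤ)) (hS : S.Nonempty) (a : ℤ) : 0 ≤ Gs P S a :=
  sum_nonneg (fun C _ => mul_nonneg (h.nn _) (Gm_nonneg S hS a C))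

theorem Df_rec {P : Finset (Fin (n + 1)) → ℝ} {p c : ℝ} (h : Cv P p c)
    (S : Finset (Fin (n + 1) → ℤ)) :
    Df P p S = ∑ a ∈ vals S, Df (trm P) p (slice a S) + ∑ a ∈ vals S, Gs P S a := by
  have h1 : ∑ a ∈ vals S, Df (trm P) p (slice a S)
      = ∑ C : Finset (Fin n), (P (mp C) + P (insert (Fin.last n) (mp C)))
        * ∑ a ∈ vals S, hN (slice a S) C - p * ∑ a ∈ vals S, hN (slice a S) univ := by
    unfold Df trm
    rw [sum_sub_distrib, sum_comm, ← mul_sum]
    congr 1
    apply sum_congr rfl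
    intro C _
    rw [mul_sum]
  have h2 : ∑ a ∈ vals S, Gs P S a = ∑ C : Finset (Fin n), P (mp C) * ∑ a ∈ vals S, Gm S a C := by
    unfold Gs
    rw [sum_comm]
    apply sum_congr rfl
    intro C _
    rw [mul_sum]
  rw [h1, h2]
  unfold Df
  rw [sum_succ, univ_eq, hN_insert]
  simp only [hN_mp, hN_insert, mul_add, add_mul]
  rw [sum_add_distrib, sum_add_distrib, sum_add_distrib, ← sum_mul, h.cov_last]
  ring

theorem outc {P : Finset (Fin (n + 1)) → ℝ} {p c : ℝ} (h : Cv P p c)
    (S : Finset (Fin (n + 1) → ℤ)) (hS : S.Nonempty) (β : ℤ) (hβ : β ∈ vals S)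
    (B : Fin n → Finset ℤ) (u κ : ℝ) (hu0 : 0 ≤ u)
    (hu : ((slice β S \ Fintype.piFinset B).card : ℝ) ≤ u * (slice β S).card)
    (hG : Gs P S β ≤ κ * (slice β S).card) :
    c * ((S.filter (fun x => ini x ∉ Fintype.piFinset B)).card : ℝ)
      ≤ 2 * (κ + u) * S.card := by
  classical
  have hN : (0 : ℝ) < S.card := by exact_mod_cast card_pos.mpr hS
  have hNβ : (0 : ℝ) < (slice β S).card := by exact_mod_cast card_pos.mpr (slice_nonempty hβ)
  set R := Fintype.piFinset B with hR
  have h1 : ∀ C : Finset (Fin n), 1 / 2 * (((slice β S).card : ℝ) / S.card)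
      * (S.filter (fun x => ∃ i ∈ bad B (ini x), i ∈ C)).card
      ≤ Gm S β C + u * (slice β S).card := by
    intro C
    have hE : ∀ y y' : Fin n → ℤ, Agr C y y' →
        ((∃ i ∈ bad B y, i ∈ C) ↔ (∃ i ∈ bad B y', i ∈ C)) := by
      intro y y' h
      constructor
      · rintro ⟨i, hi, hiC⟩
        refine ⟨i, ?_, hiC⟩
        rw [mem_bad] at hi ⊢
        rwa [← h i hiC]
      · rintro ⟨i, hi, hiC⟩
        refine ⟨i, ?_, hiC⟩
        rw [mem_bad] at hi ⊢
        rwa [h i hiC]
    have h2 := dvG S hS β C (fun y => ∃ i ∈ bad B y, i ∈ C) hE (-1)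
    have h3 : (((slice β S).filter (fun y => ∃ i ∈ bad B y, i ∈ C)).card : ℝ)
        ≤ u * (slice β S).card := by
      refine le_trans ?_ hu
      have : ((slice β S).filter (fun y => ∃ i ∈ bad B y, i ∈ C)).card
          ≤ (slice β S \ R).card := by
        apply card_le_card
        intro y hy
        obtain ⟨h4, i, hi, _⟩ := mem_filter.mp hy
        refine mem_sdiff.mpr ⟨h4, fun h5 => ?_⟩
        exact mem_bad.mp hi (Fintype.mem_piFinset.mp h5 i)
      exact_mod_cast this
    set X : ℝ := ((S.filter (fun x => ∃ i ∈ bad B (ini x), i ∈ C)).card : ℝ) with hX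
    have hX0 : 0 ≤ X := by rw [hX]; positivity
    have h4 : 1 / 2 * ((((slice β S).card : ℝ) / S.card) * X)
        ≤ (1 - Real.exp (-1)) * ((((slice β S).card : ℝ) / S.card) * X) :=
      mul_le_mul_of_nonneg_right e_lo (mul_nonneg (div_pos hNβ hN).le hX0)
    linarith
  have h2 := sum_le_sum (fun C (_ : C ∈ (univ : Finset (Finset (Fin n)))) =>
    mul_le_mul_of_nonneg_left (h1 C) (h.nn (mp C)))
  simp only [mul_add] at h2
  rw [sum_add_distrib, ← sum_mul] at h2
  have h2' : (∑ C : Finset (Fin n), P (mp C)) * (u * (slice β S).card)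
      ≤ 1 * (u * (slice β S).card) :=
    mul_le_mul_of_nonneg_right h.tot_mp (mul_nonneg hu0 hNβ.le)
  have h3 : c * ((S.filter (fun x => ini x ∉ R)).card : ℝ)
      ≤ ∑ C : Finset (Fin n), P (mp C)
        * ((S.filter (fun x => ∃ i ∈ bad B (ini x), i ∈ C)).card : ℝ) := by
    have e1 : ∀ C : Finset (Fin n), P (mp C) *
        ((S.filter (fun x => ∃ i ∈ bad B (ini x), i ∈ C)).card : ℝ)
        = ∑ x ∈ S, if ∃ i ∈ bad B (ini x), i ∈ C then P (mp C) else 0 := by
      intro C
      rw [← sum_filter, sum_const, nsmul_eq_mul, mul_comm]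
    simp only [e1]
    rw [sum_comm]
    have e3 : c * ((S.filter (fun x => ini x ∉ R)).card : ℝ)
        = ∑ _x ∈ S.filter (fun x => ini x ∉ R), c := by
      rw [sum_const, nsmul_eq_mul]; ring
    rw [e3]
    refine le_trans (sum_le_sum (g := fun x => ∑ C : Finset (Fin n),
      if ∃ i ∈ bad B (ini x), i ∈ C then P (mp C) else 0) ?_)
      (sum_le_sum_of_subset_of_nonneg (filter_subset _ _) (fun x _ _ => ?_))
    · intro x hx
      have hne : (bad B (ini x)).Nonempty := by
        rw [nonempty_iff_ne_empty]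
        intro h'
        exact (mem_filter.mp hx).2 (bad_empty.mp h')
      obtain ⟨i, hi⟩ := hne
      refine (h.sep_mp i).trans (sum_le_sum (fun C _ => ?_))
      by_cases hC : i ∈ C
      · rw [if_pos hC, if_pos ⟨i, hi, hC⟩]
      · rw [if_neg hC]
        split_ifs
        · exact h.nn _
        · exact le_refl _
    · apply sum_nonneg
      intro C _
      split_ifs
      · exact h.nn _
      · exact le_refl _
  have e5 : ∑ C : Finset (Fin n), P (mp C) * (1 / 2 * (((slice β S).card : ℝ) / S.card)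
      * (S.filter (fun x => ∃ i ∈ bad B (ini x), i ∈ C)).card)
      = 1 / 2 * (((slice β S).card : ℝ) / S.card) * ∑ C : Finset (Fin n), P (mp C)
        * ((S.filter (fun x => ∃ i ∈ bad B (ini x), i ∈ C)).card : ℝ) := by
    rw [mul_sum]
    apply sum_congr rfl
    intro C _
    ring
  rw [e5] at h2
  have e4 : ∑ C : Finset (Fin n), P (mp C) * Gm S β C = Gs P S β := rfl
  rw [e4] at h2
  set Y : ℝ := ((S.filter (fun x => ini x ∉ R)).card : ℝ) with hY
  have h5 : 1 / 2 * (((slice β S).card : ℝ) / S.card) * (c * Y)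
      ≤ 1 / 2 * (((slice β S).card : ℝ) / S.card) * (2 * (κ + u) * S.card) := by
    have h6 := mul_le_mul_of_nonneg_left h3
      (show (0 : ℝ) ≤ 1 / 2 * (((slice β S).card : ℝ) / S.card) by positivity)
    have h7 : 1 / 2 * (((slice β S).card : ℝ) / S.card) * (2 * (κ + u) * S.card)
        = (κ + u) * (slice β S).card := by field_simp
    rw [h7]
    linarith
  exact le_of_mul_le_mul_left h5 (by positivity)

/-- the distribution of the first coordinates is close to uniform on the box -/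
theorem close (S : Finset (Fin (n + 1) → ℤ)) (hS : S.Nonempty) (β : ℤ) (hβ : β ∈ vals S)
    (R : Finset (Fin n → ℤ)) (u : ℝ) (hu0 : 0 ≤ u) (hRpos : (0 : ℝ) < R.card)
    (hu1 : ((slice β S \ R).card : ℝ) ≤ u * (slice β S).card)
    (hu2 : ((R \ slice β S).card : ℝ) ≤ u * (slice β S).card)
    (C : Finset (Fin n)) (E : (Fin n → ℤ) → Prop) [DecidablePred E]
    (hE : ∀ y y', Agr C y y' → (E y ↔ E y')) (l : ℝ) (hl0 : 0 < l) (hl1 : l ≤ 1) :
    ((S.filter (fun x => E (ini x))).card : ℝ) / S.card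
      ≤ ((R.filter E).card : ℝ) / R.card + 2 * u + l + Gm S β C / (l * (slice β S).card) := by
  classical
  have hN : (0 : ℝ) < S.card := by exact_mod_cast card_pos.mpr hS
  have hNβ : (0 : ℝ) < (slice β S).card := by exact_mod_cast card_pos.mpr (slice_nonempty hβ)
  have h1 := dvG S hS β C E hE (-l)
  set N : ℝ := (S.card : ℝ) with hNd
  set b : ℝ := ((slice β S).card : ℝ) with hb
  set X : ℝ := ((S.filter (fun x => E (ini x))).card : ℝ) with hX
  have hX0 : 0 ≤ X := Nat.cast_nonneg _
  have hXN : X ≤ N := by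
    rw [hX, hNd]; exact_mod_cast card_le_card (filter_subset _ _)
  have hexp : Real.exp (-l) ≤ 1 - l + l ^ 2 := by
    have h := Real.abs_exp_sub_one_sub_id_le (show |(-l)| ≤ 1 by
      rw [abs_neg, abs_of_pos hl0]; exact hl1)
    have := (abs_le.mp h).2
    rw [neg_sq] at this
    linarith
  have h2 : (((slice β S).filter E).card : ℝ) ≤ (R.filter E).card + u * b := by
    have h3 : (slice β S).filter E ⊆ R.filter E ∪ (slice β S \ R) := by
      intro y hy
      obtain ⟨h4, h5⟩ := mem_filter.mp hy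
      by_cases h6 : y ∈ R
      · exact mem_union.mpr (Or.inl (mem_filter.mpr ⟨h6, h5⟩))
      · exact mem_union.mpr (Or.inr (mem_sdiff.mpr ⟨h4, h6⟩))
    have h4 := (card_le_card h3).trans (card_union_le _ _)
    have h5 : (((slice β S).filter E).card : ℝ) ≤ (R.filter E).card + (slice β S \ R).card := by
      exact_mod_cast h4
    linarith
  have hRb : (R.card : ℝ) ≤ b + u * b := by
    have h3 : ((R \ slice β S).card : ℝ) + (R ∩ slice β S).card = R.card := card_sdiff_add _ _
    have h4 : ((R ∩ slice β S).card : ℝ) ≤ b := by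
      rw [hb]; exact_mod_cast card_le_card inter_subset_right
    linarith
  set ε : ℝ := ((R.filter E).card : ℝ) / R.card with hε
  have hε0 : 0 ≤ ε := div_nonneg (Nat.cast_nonneg _) hRpos.le
  have hε1 : ε ≤ 1 := by
    rw [hε, div_le_one hRpos]
    exact_mod_cast card_le_card (filter_subset _ _)
  have hRE : ((R.filter E).card : ℝ) = ε * R.card := by rw [hε]; field_simp
  have h3 : (((slice β S).filter E).card : ℝ) ≤ (ε + 2 * u) * b := by
    have h4 : ε * R.card ≤ ε * (b + u * b) := mul_le_mul_of_nonneg_left hRb hε0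
    have h5 : ε * (u * b) ≤ 1 * (u * b) :=
      mul_le_mul_of_nonneg_right hε1 (mul_nonneg hu0 hNβ.le)
    rw [hRE] at h2
    linarith
  -- combine
  have hx0 : 0 ≤ X / N := div_nonneg hX0 hN.le
  have hx1 : X / N ≤ 1 := (div_le_one hN).mpr hXN
  have h4 : (l - l ^ 2) * (b * (X / N)) ≤ Gm S β C + l * ((ε + 2 * u) * b) := by
    have h5 : (l - l ^ 2) * (b * (X / N)) ≤ (1 - Real.exp (-l)) * (b * (X / N)) :=
      mul_le_mul_of_nonneg_right (by linarith) (mul_nonneg hNβ.le hx0)
    have h6 := mul_le_mul_of_nonneg_left h3 hl0.le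
    have h7 : -l * (((slice β S).filter E).card : ℝ) - (Real.exp (-l) - 1) * (b / N) * X
        = -(l * (((slice β S).filter E).card : ℝ)) + (1 - Real.exp (-l)) * (b * (X / N)) := by
      ring
    rw [h7] at h1
    linarith
  have h5 : l ^ 2 * (b * (X / N)) ≤ l ^ 2 * (b * 1) := by
    apply mul_le_mul_of_nonneg_left _ (sq_nonneg l)
    exact mul_le_mul_of_nonneg_left hx1 hNβ.le
  have h6 : (l * b) * (X / N) ≤ (l * b) * (ε + 2 * u + l + Gm S β C / (l * b)) := by
    have h7 : (l * b) * (ε + 2 * u + l + Gm S β C / (l * b))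
        = l * ((ε + 2 * u) * b) + l ^ 2 * b + Gm S β C := by
      field_simp
    rw [h7]
    linarith
  exact le_of_mul_le_mul_left h6 (mul_pos hl0 hNβ)

end Pool.Agent.W211
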