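import Pool.Agent.W211.Rough

/-!
The rough statement, continued; the box theorem for bounded weights.
-/

namespace Pool.Agent.W211

open Finset
open Pool.Agent.H488R3.UC

variable {n : ℕ}

/-- the gain of one slice for one set of coordinates -/
theorem slice_one (S : Finset (Fin (n + 1) → ℤ)) (hS : S.Nonempty) (β : ℤ) (hβ : β ∈ vals S)
    (B : Fin n → Finset ℤ) (hne : ∀ i, (B i).Nonempty) (u : ℝ) (hu0 : 0 ≤ u)
    (hu1 : ((slice β S \ Fintype.piFinset B).card : ℝ) ≤ u * (slice β S).card)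
    (hu2 : ((Fintype.piFinset B \ slice β S).card : ℝ) ≤ u * (slice β S).card)
    (a : ℤ) (C : Finset (Fin n)) (l : ℝ) (hl0 : 0 < l) (hl1 : l ≤ 1) :
    l * tt B (slice a S ∩ Fintype.piFinset B) C
      - l * ((slice a S).card - (slice a S ∩ Fintype.piFinset B).card)
      - (3 * l ^ 2 + 4 * l * u) * (slice a S).card
      - 2 * (slice a S).card * (Gm S β C / (slice β S).card) ≤ Gm S a C := by
  classical
  have hN : (0 : ℝ) < S.card := by exact_mod_cast card_pos.mpr hS
  have hNβ : (0 : ℝ) < (slice β S).card := by exact_mod_cast card_pos.mpr (slice_nonempty hβ)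
  set R := Fintype.piFinset B with hR
  have hRpos : (0 : ℝ) < R.card := by rw [hR, card_box]; exact bp_pos _ hne univ
  set F := slice a S ∩ R with hF
  have hE : ∀ y y', Agr C y y' → (Ev B F C y ↔ Ev B F C y') := fun y y' h => Ev_congr B F C h
  have h1 := dvG S hS a C (Ev B F C) hE l
  have h2 := close S hS β hβ R u hu0 hRpos hu1 hu2 C (Ev B F C) hE l hl0 hl1
  set ε : ℝ := ((R.filter (Ev B F C)).card : ℝ) / R.card with hε
  have hε0 : 0 ≤ ε := div_nonneg (Nat.cast_nonneg _) hRpos.le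
  have hε1 : ε ≤ 1 := by
    rw [hε, div_le_one hRpos]
    exact_mod_cast card_le_card (filter_subset _ _)
  have htt : tt B F C = (F.filter (Ev B F C)).card - F.card * ε := by
    unfold tt
    rw [← hR, hε]; ring
  have h3 : ((F.filter (Ev B F C)).card : ℝ) ≤ ((slice a S).filter (Ev B F C)).card := by
    exact_mod_cast card_le_card (filter_subset_filter _ inter_subset_left)
  have hFa : (F.card : ℝ) ≤ (slice a S).card := by
    exact_mod_cast card_le_card inter_subset_left
  set Na : ℝ := ((slice a S).card : ℝ) with hNa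
  have hNa0 : 0 ≤ Na := Nat.cast_nonneg _
  set X : ℝ := ((S.filter (fun x => Ev B F C (ini x))).card : ℝ) with hX
  have hX0 : 0 ≤ X := Nat.cast_nonneg _
  set g : ℝ := Gm S β C / (slice β S).card with hg
  have hg0 : 0 ≤ g := div_nonneg (Gm_nonneg S hS β C) hNβ.le
  have h4 : Gm S β C / (l * (slice β S).card) = g / l := by
    rw [hg]; field_simp
  rw [h4] at h2
  have hgl : 0 ≤ g / l := div_nonneg hg0 hl0.le
  have hexp := exp_le_quad l hl0.le hl1
  have hexp0 : 0 ≤ Real.exp l - 1 := by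
    have := Real.add_one_le_exp l
    linarith
  have h5 : (Real.exp l - 1) * (Na / S.card) * X
      ≤ (l + l ^ 2) * (Na * (ε + 2 * u + l + g / l)) := by
    have e1 : (Real.exp l - 1) * (Na / S.card) * X
        = (Real.exp l - 1) * (Na * (X / S.card)) := by ring
    rw [e1]
    exact mul_le_mul hexp (mul_le_mul_of_nonneg_left h2 hNa0)
      (mul_nonneg hNa0 (div_nonneg hX0 hN.le)) (by positivity)
  have h6 : (l + l ^ 2) * (Na * (ε + 2 * u + l + g / l))
      ≤ l * (Na * ε) + (3 * l ^ 2 + 4 * l * u) * Na + 2 * Na * g := by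
    have e1 : (l + l ^ 2) * (Na * (ε + 2 * u + l + g / l))
        = l * (Na * ε) + l ^ 2 * (Na * ε) + (l + l ^ 2) * (Na * (2 * u + l))
          + (1 + l) * (Na * g) := by
      field_simp
      ring
    rw [e1]
    have h7 : l ^ 2 * (Na * ε) ≤ l ^ 2 * (Na * 1) :=
      mul_le_mul_of_nonneg_left (mul_le_mul_of_nonneg_left hε1 hNa0) (sq_nonneg l)
    have h8 : (l + l ^ 2) * (Na * (2 * u + l)) ≤ (2 * l) * (Na * (2 * u + l)) := by
      apply mul_le_mul_of_nonneg_right _ (by positivity)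
      nlinarith
    have h9 : (1 + l) * (Na * g) ≤ 2 * (Na * g) :=
      mul_le_mul_of_nonneg_right (by linarith) (mul_nonneg hNa0 hg0)
    linarith
  have h10 := mul_le_mul_of_nonneg_left h3 hl0.le
  have h11 : l * (Na * ε) - l * (F.card * ε) ≤ l * (Na - F.card) := by
    have : (Na - F.card) * ε ≤ (Na - F.card) * 1 :=
      mul_le_mul_of_nonneg_left hε1 (by linarith)
    have := mul_le_mul_of_nonneg_left this hl0.le
    linarith
  rw [htt]
  linarith

/-- the gain of one slice -/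
theorem slice_all {P : Finset (Fin (n + 1)) → ℝ} {p c : ℝ} (h : Cv P p c) (hc0 : 0 ≤ c)
    (S : Finset (Fin (n + 1) → ℤ)) (hS : S.Nonempty) (β : ℤ) (hβ : β ∈ vals S)
    (B : Fin n → Finset ℤ) (hne : ∀ i, (B i).Nonempty) (u κ : ℝ) (hu0 : 0 ≤ u)
    (hu1 : ((slice β S \ Fintype.piFinset B).card : ℝ) ≤ u * (slice β S).card)
    (hu2 : ((Fintype.piFinset B \ slice β S).card : ℝ) ≤ u * (slice β S).card)
    (hG : Gs P S β ≤ κ * (slice β S).card)
    (a : ℤ) (ha : a ∈ vals S) (l : ℝ) (hl0 : 0 < l) (hl1 : l ≤ 1) :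
    l * c * ((1 - ((slice a S ∩ Fintype.piFinset B).card : ℝ) / (Fintype.piFinset B).card)
        * (slice a S ∩ Fintype.piFinset B).card)
      - l * ((slice a S).card - (slice a S ∩ Fintype.piFinset B).card)
      - (3 * l ^ 2 + 4 * l * u + 2 * κ) * (slice a S).card
      ≤ Df (trm P) p (slice a S) + Gs P S a := by
  classical
  have hN : (0 : ℝ) < S.card := by exact_mod_cast card_pos.mpr hS
  have hNβ : (0 : ℝ) < (slice β S).card := by exact_mod_cast card_pos.mpr (slice_nonempty hβ)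
  set R := Fintype.piFinset B with hR
  have hRpos : (0 : ℝ) < R.card := by rw [hR, card_box]; exact bp_pos _ hne univ
  set F := slice a S ∩ R with hF
  have hFa : (F.card : ℝ) ≤ (slice a S).card := by
    exact_mod_cast card_le_card inter_subset_left
  set Na : ℝ := ((slice a S).card : ℝ) with hNa
  have hNa0 : 0 ≤ Na := Nat.cast_nonneg _
  have hD0 := Df_nonneg (trm P) h.trm.nn p h.trm.cov (slice a S)
  have hG0 := Gs_nonneg h S hS a
  have hGβ0 := Gs_nonneg h S hS β
  have hκ0 : 0 ≤ κ := by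
    by_contra h1
    have h2 := mul_neg_of_neg_of_pos (not_le.mp h1) hNβ
    linarith
  rcases F.eq_empty_or_nonempty with hFe | hFne
  · rw [hFe, card_empty, Nat.cast_zero]
    have h1 : 0 ≤ l * Na := mul_nonneg hl0.le hNa0
    have h2 : 0 ≤ (3 * l ^ 2 + 4 * l * u + 2 * κ) * Na := by positivity
    have e1 : l * c * ((1 - (0 : ℝ) / R.card) * 0) = 0 := by ring
    rw [e1, sub_zero]
    linarith
  -- the section lemma
  have hsec := sec B hne F inter_subset_right hFne (fun C => P (mp C))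
    (fun C => P (insert (Fin.last n) (mp C))) (fun C => h.nn _) (fun C => h.nn _) p c
    (fun i => h.trm.cov i) (fun i => by
      left
      have h1 := h.trm.cov i
      have h2 := h.sep_mp i
      have h3 : ∑ C : Finset (Fin n), (if i ∈ C then trm P C else 0)
          = ∑ C : Finset (Fin n), (if i ∈ C then P (mp C) else 0)
            + ∑ C : Finset (Fin n), (if i ∈ C then P (insert (Fin.last n) (mp C)) else 0) := by
        rw [← sum_add_distrib]
        apply sum_congr rfl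
        intro C _
        unfold trm
        split_ifs <;> simp
      linarith)
  have hDf : Df (fun C => P (mp C) + P (insert (Fin.last n) (mp C))) p F = Df (trm P) p F := rfl
  rw [hDf, ← hR] at hsec
  have hrestr := restr (trm P) h.trm.nn p h.trm.cov (slice a S) B
  rw [← hR, ← hF] at hrestr
  set T : ℝ := ∑ C : Finset (Fin n), P (mp C) * tt B F C with hT
  have h1 : l * (c * ((1 - (F.card : ℝ) / R.card) * F.card) - T) ≤ Df (trm P) p (slice a S) := by
    have h2 := mul_le_mul_of_nonneg_left (hsec.trans hrestr) hl0.le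
    have h3 : l * Df (trm P) p (slice a S) ≤ 1 * Df (trm P) p (slice a S) :=
      mul_le_mul_of_nonneg_right hl1 hD0
    linarith
  -- the gain
  have h2 : l * T - l * (Na - F.card) - (3 * l ^ 2 + 4 * l * u) * Na
      - 2 * Na * (Gs P S β / (slice β S).card) ≤ Gs P S a := by
    have h3 := sum_le_sum (fun C (_ : C ∈ (univ : Finset (Finset (Fin n)))) =>
      mul_le_mul_of_nonneg_left (slice_one S hS β hβ B hne u hu0 hu1 hu2 a C l hl0 hl1)
        (h.nn (mp C)))
    have e1 : ∑ C : Finset (Fin n), P (mp C) * Gm S a C = Gs P S a := rfl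
    rw [e1, ← hR, ← hF] at h3
    refine le_trans ?_ h3
    have e2 : ∀ C : Finset (Fin n), P (mp C) * (l * tt B F C - l * (Na - F.card)
        - (3 * l ^ 2 + 4 * l * u) * Na - 2 * Na * (Gm S β C / (slice β S).card))
        = l * (P (mp C) * tt B F C)
          - P (mp C) * (l * (Na - F.card) + (3 * l ^ 2 + 4 * l * u) * Na)
          - 2 * Na / (slice β S).card * (P (mp C) * Gm S β C) := by
      intro C; ring
    rw [sum_congr rfl (fun C _ => e2 C), sum_sub_distrib, sum_sub_distrib, ← mul_sum, ← sum_mul,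
      ← mul_sum]
    have e3 : ∑ C : Finset (Fin n), P (mp C) * Gm S β C = Gs P S β := rfl
    rw [e3]
    have h4 : 0 ≤ l * (Na - F.card) + (3 * l ^ 2 + 4 * l * u) * Na := by
      have : 0 ≤ Na - F.card := by linarith
      positivity
    have h5 := mul_le_mul_of_nonneg_right h.tot_mp h4
    have e4 : 2 * Na / (slice β S).card * Gs P S β = 2 * Na * (Gs P S β / (slice β S).card) := by
      ring
    rw [e4]
    linarith
  have h3 : Gs P S β / (slice β S).card ≤ κ := by
    rw [div_le_iff₀ hNβ]; exact hG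
  have h4 : 2 * Na * (Gs P S β / (slice β S).card) ≤ 2 * Na * κ :=
    mul_le_mul_of_nonneg_left h3 (by positivity)
  have e5 : l * c * ((1 - (F.card : ℝ) / R.card) * F.card)
      = l * (c * ((1 - (F.card : ℝ) / R.card) * F.card)) := by ring
  rw [e5]
  linarith

theorem xb_alg (c N X Y D : ℝ) (hc0 : 0 < c) (hc1 : c ≤ 1) (hN0 : 0 < N)
    (hD : D ≤ c ^ 5 / 10 ^ 7 * N)
    (hY : c * Y ≤ 2 * (c ^ 5 / 10 ^ 7 + 4 / 10 ^ 6 * c ^ 3) * N)
    (hspr : c ^ 2 / 2400 * c * X - c ^ 2 / 2400 * Y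
      - (3 * (c ^ 2 / 2400) ^ 2 + 4 * (c ^ 2 / 2400) * (4 / 10 ^ 6 * c ^ 3)
        + 2 * (c ^ 5 / 10 ^ 7)) * N ≤ D) : X ≤ 3 / 800 * (c * N) := by
  have hc3 : 0 < c ^ 3 := by positivity
  have h1 : c ^ 2 * Y ≤ 2 * (c ^ 6 / 10 ^ 7 + 4 / 10 ^ 6 * c ^ 4) * N := by
    have h2 := mul_le_mul_of_nonneg_left hY hc0.le
    have e1 : c * (c * Y) = c ^ 2 * Y := by ring
    have e2 : c * (2 * (c ^ 5 / 10 ^ 7 + 4 / 10 ^ 6 * c ^ 3) * N)
        = 2 * (c ^ 6 / 10 ^ 7 + 4 / 10 ^ 6 * c ^ 4) * N := by ring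
    rw [e1, e2] at h2
    exact h2
  have q4 : 0 < c ^ 4 * N := by positivity
  have q5 : c ^ 5 * N ≤ c ^ 4 * N := by
    have : c ^ 5 * N = (c ^ 4 * N) * c := by ring
    rw [this]
    exact mul_le_of_le_one_right q4.le hc1
  have q6 : c ^ 6 * N ≤ c ^ 4 * N := by
    have : c ^ 6 * N = (c ^ 4 * N) * (c * c) := by ring
    rw [this]
    exact mul_le_of_le_one_right q4.le (by nlinarith)
  have h2 : c ^ 3 * X ≤ c ^ 3 * (3 / 800 * (c * N)) := by
    have e1 : c ^ 3 * (3 / 800 * (c * N)) = 3 / 800 * (c ^ 4 * N) := by ring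
    rw [e1]
    have e2 : c ^ 2 / 2400 * c * X - c ^ 2 / 2400 * Y
      - (3 * (c ^ 2 / 2400) ^ 2 + 4 * (c ^ 2 / 2400) * (4 / 10 ^ 6 * c ^ 3)
        + 2 * (c ^ 5 / 10 ^ 7)) * N
        = 1 / 2400 * (c ^ 3 * X) - 1 / 2400 * (c ^ 2 * Y)
          - (1 / 1920000 * (c ^ 4 * N) + 1 / (15 * 10 ^ 7) * (c ^ 5 * N)
            + 1 / (5 * 10 ^ 6) * (c ^ 5 * N)) := by ring
    rw [e2] at hspr
    have e3 : 2 * (c ^ 6 / 10 ^ 7 + 4 / 10 ^ 6 * c ^ 4) * N
        = 2 / 10 ^ 7 * (c ^ 6 * N) + 8 / 10 ^ 6 * (c ^ 4 * N) := by ring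
    rw [e3] at h1
    have e4 : c ^ 5 / 10 ^ 7 * N = 1 / 10 ^ 7 * (c ^ 5 * N) := by ring
    rw [e4] at hD
    linarith
  exact le_of_mul_le_mul_left h2 hc3

theorem roughc {P : Finset (Fin (n + 1)) → ℝ} {p c : ℝ} (h : Cv P p c) (hc0 : 0 < c)
    (hc1 : c ≤ 1)
    (ih : ∀ T : Finset (Fin n → ℤ), T.Nonempty → 10 ^ 7 * Df (trm P) p T ≤ c ^ 5 * T.card →
      ∃ B : Fin n → Finset ℤ, (∀ i, (B i).Nonempty) ∧
        c ^ 2 * ((symmDiff T (Fintype.piFinset B)).card : ℝ) ≤ 40 * Df (trm P) p T)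
    (S : Finset (Fin (n + 1) → ℤ)) (hS : S.Nonempty)
    (hD : 10 ^ 7 * Df P p S ≤ c ^ 5 * S.card) :
    ∃ B : Fin (n + 1) → Finset ℤ,
      100 * ((symmDiff S (Fintype.piFinset B)).card : ℝ) ≤ c * S.card := by
  classical
  have hN0 : (0 : ℝ) < S.card := by exact_mod_cast card_pos.mpr hS
  have hNS : (S.card : ℝ) = ∑ a ∈ vals S, ((slice a S).card : ℝ) := card_cast_eq_sum S
  have hNpos : ∀ a ∈ vals S, (0 : ℝ) < (slice a S).card := fun a ha => by
    exact_mod_cast card_pos.mpr (slice_nonempty ha)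
  -- a good slice
  obtain ⟨β, hβ, hβ1⟩ : ∃ β ∈ vals S,
      10 ^ 7 * (Df (trm P) p (slice β S) + Gs P S β) ≤ c ^ 5 * ((slice β S).card : ℝ) := by
    apply exists_le_of_sum_le (vals_nonempty hS)
    rw [← mul_sum, sum_add_distrib, ← Df_rec h, ← mul_sum, ← hNS]
    exact hD
  have hNβ := hNpos β hβ
  have hG0 := Gs_nonneg h S hS β
  have hP0 := Df_nonneg (trm P) h.trm.nn p h.trm.cov (slice β S)
  obtain ⟨B, hBne, hB⟩ := ih (slice β S) (slice_nonempty hβ) (by linarith)
  set R := Fintype.piFinset B with hR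
  have hRpos : (0 : ℝ) < R.card := by rw [hR, card_box]; exact bp_pos _ hBne univ
  have hc2 : 0 < c ^ 2 := by positivity
  set u : ℝ := 4 / 10 ^ 6 * c ^ 3 with hu
  set κ : ℝ := c ^ 5 / 10 ^ 7 with hκ
  set l : ℝ := c ^ 2 / 2400 with hl
  have hu0 : 0 ≤ u := by rw [hu]; positivity
  have hκ0 : 0 ≤ κ := by rw [hκ]; positivity
  have hl0 : 0 < l := by rw [hl]; positivity
  have hcc2 : c ^ 2 ≤ 1 := pow_le_one₀ hc0.le hc1
  have hl1 : l ≤ 1 := by rw [hl]; linarith
  have hBu : ((symmDiff (slice β S) R).card : ℝ) ≤ u * (slice β S).card := by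
    have h1 : c ^ 2 * ((symmDiff (slice β S) R).card : ℝ)
        ≤ c ^ 2 * (u * (slice β S).card) := by
      have : c ^ 2 * (u * ((slice β S).card : ℝ))
          = 40 * (c ^ 5 * (slice β S).card / 10 ^ 7) := by rw [hu]; ring
      rw [this]
      linarith
    exact le_of_mul_le_mul_left h1 hc2
  rw [card_symmDiff_eq] at hBu
  have hp1 : (0 : ℝ) ≤ (slice β S \ R).card := by positivity
  have hp2 : (0 : ℝ) ≤ (R \ slice β S).card := by positivity
  have hGκ : Gs P S β ≤ κ * (slice β S).card := by rw [hκ]; linarith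
  have hDκ : Df P p S ≤ κ * S.card := by rw [hκ]; linarith
  have hu1 : ((slice β S \ R).card : ℝ) ≤ u * (slice β S).card := by linarith
  have hu2 : ((R \ slice β S).card : ℝ) ≤ u * (slice β S).card := by linarith
  have hout := outc h S hS β hβ B u κ hu0 hu1 hGκ
  rw [← hR] at hout
  set Y : ℝ := ((S.filter (fun x => ini x ∉ R)).card : ℝ) with hY
  have hYs : ∑ a ∈ vals S, (((slice a S).card : ℝ) - (slice a S ∩ R).card) = Y := by
    rw [hY, ← sum_slice_out]
    apply sum_congr rfl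
    intro a _
    have := card_sdiff_add (slice a S) R
    linarith
  set X : ℝ := ∑ a ∈ vals S, ((1 - ((slice a S ∩ R).card : ℝ) / R.card)
    * (slice a S ∩ R).card) with hX
  have hspr : l * c * X - l * Y - (3 * l ^ 2 + 4 * l * u + 2 * κ) * S.card ≤ Df P p S := by
    have h1 := sum_le_sum (fun a (ha : a ∈ vals S) =>
      slice_all h hc0.le S hS β hβ B hBne u κ hu0 hu1 hu2 hGκ a ha l hl0 hl1)
    rw [sum_add_distrib, ← Df_rec h, sum_sub_distrib, sum_sub_distrib, ← mul_sum, ← mul_sum,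
      ← mul_sum, ← hR, ← hNS, hYs] at h1
    exact h1
  have hc3 : c ^ 3 ≤ c ^ 2 := by
    have : c ^ 3 = c ^ 2 * c := by ring
    rw [this]; nlinarith
  have hc5' : c ^ 5 ≤ c ^ 2 := by
    have : c ^ 5 = c ^ 2 * c ^ 3 := by ring
    rw [this]
    exact mul_le_of_le_one_right hc2.le (pow_le_one₀ hc0.le hc1)
  set N : ℝ := (S.card : ℝ) with hNd
  -- the bound for `Y`
  have hYb : Y ≤ c * N / 10 ^ 4 := by
    have h1 : c * Y ≤ c * (c * N / 10 ^ 4) := by
      refine hout.trans ?_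
      have h2 : 2 * (κ + u) ≤ c ^ 2 / 10 ^ 4 := by
        rw [hκ, hu]; linarith
      have h3 := mul_le_mul_of_nonneg_right h2 hN0.le
      have h4 : c * (c * N / 10 ^ 4) = c ^ 2 / 10 ^ 4 * N := by ring
      rw [h4]; exact h3
    exact le_of_mul_le_mul_left h1 hc0
  -- the bound for `X`
  have hXb : X ≤ 3 / 800 * (c * N) := by
    rw [hu, hκ] at hout
    rw [hu, hκ, hl] at hspr
    rw [hκ] at hDκ
    exact xb_alg c N X Y (Df P p S) hc0 hc1 hN0 hDκ hout hspr
  -- the box
  set V := (vals S).filter (fun a => (R.card : ℝ) ≤ 2 * (slice a S ∩ R).card) with hV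
  have hVs : V ⊆ vals S := filter_subset _ _
  refine ⟨Fin.snoc (α := fun _ => Finset ℤ) B V, ?_⟩
  rw [card_symmDiff_box S B V hVs]
  push_cast
  have hgood : ∀ a ∈ V, ((symmDiff (slice a S) R).card : ℝ)
      ≤ ((slice a S \ R).card : ℝ)
        + 2 * ((1 - ((slice a S ∩ R).card : ℝ) / R.card) * (slice a S ∩ R).card) := by
    intro a ha
    have h1 := (mem_filter.mp ha).2
    rw [card_symmDiff_eq]
    have h2 : ((R \ slice a S).card : ℝ) + (R ∩ slice a S).card = R.card := card_sdiff_add _ _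
    rw [inter_comm] at h2
    have h3 : (0 : ℝ) ≤ (R \ slice a S).card := by positivity
    have h5 : 1 - ((slice a S ∩ R).card : ℝ) / R.card = (R \ slice a S).card / R.card := by
      rw [eq_div_iff hRpos.ne', sub_mul, div_mul_cancel₀ _ hRpos.ne']
      linarith
    rw [h5]
    have h6 : ((R \ slice a S).card : ℝ)
        ≤ 2 * (((R \ slice a S).card : ℝ) / R.card * (slice a S ∩ R).card) := by
      have h7 : ((R \ slice a S).card : ℝ) / R.card * R.card
          ≤ ((R \ slice a S).card : ℝ) / R.card * (2 * (slice a S ∩ R).card) :=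
        mul_le_mul_of_nonneg_left h1 (div_nonneg h3 hRpos.le)
      rw [div_mul_cancel₀ _ hRpos.ne'] at h7
      linarith
    linarith
  have hbad : ∀ a ∈ vals S \ V, ((slice a S).card : ℝ)
      ≤ ((slice a S \ R).card : ℝ)
        + 2 * ((1 - ((slice a S ∩ R).card : ℝ) / R.card) * (slice a S ∩ R).card) := by
    intro a ha
    obtain ⟨ha1, ha2⟩ := mem_sdiff.mp ha
    have h1 : 2 * ((slice a S ∩ R).card : ℝ) ≤ R.card := by
      by_contra h'
      exact ha2 (mem_filter.mpr ⟨ha1, (not_le.mp h').le⟩)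
    have h2 : ((slice a S \ R).card : ℝ) + (slice a S ∩ R).card = (slice a S).card :=
      card_sdiff_add _ _
    have h3 : (0 : ℝ) ≤ (slice a S ∩ R).card := by positivity
    have h4 : ((slice a S ∩ R).card : ℝ) / R.card ≤ 1 / 2 := by
      rw [div_le_iff₀ hRpos]; linarith
    have h5 : 1 / 2 * ((slice a S ∩ R).card : ℝ)
        ≤ (1 - ((slice a S ∩ R).card : ℝ) / R.card) * (slice a S ∩ R).card :=
      mul_le_mul_of_nonneg_right (by linarith) h3
    linarith
  have t1 := sum_le_sum hgood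
  have t2 := sum_le_sum hbad
  have t3 : ∑ a ∈ V, (((slice a S \ R).card : ℝ)
        + 2 * ((1 - ((slice a S ∩ R).card : ℝ) / R.card) * (slice a S ∩ R).card))
      + ∑ a ∈ vals S \ V, (((slice a S \ R).card : ℝ)
        + 2 * ((1 - ((slice a S ∩ R).card : ℝ) / R.card) * (slice a S ∩ R).card))
      = Y + 2 * X := by
    rw [add_comm, sum_sdiff hVs, sum_add_distrib, ← mul_sum, sum_slice_out]
  linarith

theorem finec (c : ℝ) (hc0 : 0 < c) (hc1 : c ≤ 1) : ∀ (n : ℕ) (P : Finset (Fin n) → ℝ) (p : ℝ),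
    Cv P p c → ∀ (S : Finset (Fin n → ℤ)), S.Nonempty →
    10 ^ 7 * Df P p S ≤ c ^ 5 * S.card →
    ∃ B : Fin n → Finset ℤ, (∀ i, (B i).Nonempty) ∧
      c ^ 2 * ((symmDiff S (Fintype.piFinset B)).card : ℝ) ≤ 40 * Df P p S := by
  intro n
  induction n with
  | zero =>
    intro P p hP S hS _
    refine ⟨fun _ => ∅, fun i => i.elim0, ?_⟩
    have hSu : S = Fintype.piFinset (fun _ : Fin 0 => (∅ : Finset ℤ)) := by
      obtain ⟨x, hx⟩ := hS
      ext y
      have : y = x := Subsingleton.elim _ _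
      subst this
      exact ⟨fun _ => Fintype.mem_piFinset.mpr (fun i => i.elim0), fun _ => hx⟩
    rw [← hSu]
    have := Df_nonneg P hP.nn p hP.cov S
    simp only [symmDiff_self, bot_eq_empty, card_empty, Nat.cast_zero, mul_zero]
    linarith
  | succ n ih =>
    intro P p hP S hS hD
    obtain ⟨B, hB⟩ := roughc hP hc0 hc1 (fun T hT => ih (trm P) p hP.trm T hT) S hS hD
    exact finishc hP hc0 hc1 S hS B hB

/-- the box theorem for weights with uniform coverage which separate all pairs -/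
theorem btc (n : ℕ) (P : Finset (Fin n) → ℝ) (p c : ℝ) (hc0 : 0 < c) (hc1 : c ≤ 1)
    (h : Cv P p c) (S : Finset (Fin n → ℤ)) (hS : S.Nonempty) :
    ∃ B : Fin n → Finset ℤ,
      c ^ 5 * ((symmDiff S (Fintype.piFinset B)).card : ℝ) ≤ 10 ^ 7 * Df P p S := by
  classical
  have hP0 := Df_nonneg P h.nn p h.cov S
  rcases le_or_gt (10 ^ 7 * Df P p S) (c ^ 5 * S.card) with hle | hgt
  · obtain ⟨B, _, hB⟩ := finec c hc0 hc1 n P p h S hS hle
    refine ⟨B, ?_⟩
    have h1 : c ^ 5 * ((symmDiff S (Fintype.piFinset B)).card : ℝ)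
        = c ^ 3 * (c ^ 2 * (symmDiff S (Fintype.piFinset B)).card) := by ring
    have h2 : c ^ 3 * (c ^ 2 * ((symmDiff S (Fintype.piFinset B)).card : ℝ))
        ≤ 1 * (c ^ 2 * (symmDiff S (Fintype.piFinset B)).card) := by
      apply mul_le_mul_of_nonneg_right _ (by positivity)
      exact pow_le_one₀ hc0.le hc1
    rw [h1]
    linarith
  · rcases Nat.eq_zero_or_pos n with hn | hn
    · subst hn
      refine ⟨fun _ => ∅, ?_⟩
      have hSu : S = Fintype.piFinset (fun _ : Fin 0 => (∅ : Finset ℤ)) := by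
        obtain ⟨x, hx⟩ := hS
        ext y
        have : y = x := Subsingleton.elim _ _
        subst this
        exact ⟨fun _ => Fintype.mem_piFinset.mpr (fun i => i.elim0), fun _ => hx⟩
      rw [← hSu]
      simp only [symmDiff_self, bot_eq_empty, card_empty, Nat.cast_zero, mul_zero]
      positivity
    · have : Nonempty (Fin n) := ⟨⟨0, hn⟩⟩
      refine ⟨fun _ => ∅, ?_⟩
      rw [Fintype.piFinset_empty, ← bot_eq_empty, symmDiff_bot]
      exact hgt.le

end Pool.Agent.W211
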