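import Pool.Agent.W211.Shear
import Pool.Agent.W211.Gen

/-!
The section lemma: a subset of a box which is not close to the whole box either has a large
deficit or its projections are far from uniform.
-/

namespace Pool.Agent.W211

open Finset
open Pool.Agent.H488R3.UC

variable {n : ℕ}

/-- the deficit of a set for a weight -/
noncomputable def Df (P : Finset (Fin n) → ℝ) (p : ℝ) (S : Finset (Fin n → ℤ)) : ℝ :=
  ∑ A, P A * hN S A - p * hN S univ

theorem Df_nonneg (P : Finset (Fin n) → ℝ) (hP : ∀ A, 0 ≤ P A) (p : ℝ)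
    (hcov : ∀ i, ∑ A, (if i ∈ A then P A else 0) = p) (S : Finset (Fin n → ℤ)) :
    0 ≤ Df P p S :=
  shear (hN S) (hN_empty S) (fun A B => hN_submod S A B) P hP p hcov

/-- number of points of the box of the coordinates in `A` -/
noncomputable def bp (B : Fin n → Finset ℤ) (A : Finset (Fin n)) : ℝ := ∏ i ∈ A, ((B i).card : ℝ)

theorem bp_pos (B : Fin n → Finset ℤ) (hne : ∀ i, (B i).Nonempty) (A : Finset (Fin n)) :
    0 < bp B A := prod_pos (fun i _ => by exact_mod_cast card_pos.mpr (hne i))

theorem card_box (B : Fin n → Finset ℤ) :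
    ((Fintype.piFinset B).card : ℝ) = bp B univ := by
  rw [Fintype.card_piFinset]
  push_cast
  rfl

theorem log_bp (B : Fin n → Finset ℤ) (hne : ∀ i, (B i).Nonempty) (A : Finset (Fin n)) :
    Real.log (bp B A) = ∑ i ∈ A, Real.log (B i).card := by
  unfold bp
  rw [Real.log_prod]
  intro i _
  have := card_pos.mpr (hne i)
  positivity

theorem fc_box (B : Fin n → Finset ℤ) (A : Finset (Fin n)) (x : Fin n → ℤ)
    (hx : ∀ i ∈ A, x i ∈ B i) :
    bp B A * fc A (Fintype.piFinset B) x = (Fintype.piFinset B).card := by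
  have h1 : (Fintype.piFinset B).filter (fun y => Agr A x y)
      = Fintype.piFinset (fun i => if i ∈ A then {x i} else B i) := by
    ext y
    rw [mem_filter, Fintype.mem_piFinset, Fintype.mem_piFinset]
    constructor
    · rintro ⟨h2, h3⟩ i
      split_ifs with hi
      · rw [mem_singleton]; exact (h3 i hi).symm
      · exact h2 i
    · intro h2
      refine ⟨fun i => ?_, fun i hi => ?_⟩
      · have h3 := h2 i
        split_ifs at h3 with hi
        · rw [mem_singleton] at h3; rw [h3]; exact hx i hi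
        · exact h3
      · have h3 := h2 i
        rw [if_pos hi, mem_singleton] at h3
        exact h3.symm
  unfold fc
  rw [h1, Fintype.card_piFinset, Fintype.card_piFinset]
  push_cast
  have h2 : bp B A = ∏ i, (if i ∈ A then ((B i).card : ℝ) else 1) := by
    unfold bp
    rw [prod_ite_mem, univ_inter]
  rw [h2, ← prod_mul_distrib]
  apply prod_congr rfl
  intro i _
  split_ifs <;> simp

/-- the scaled relative entropy of the projection of `F` with respect to the box -/
noncomputable def KF (B : Fin n → Finset ℤ) (F : Finset (Fin n → ℤ)) (A : Finset (Fin n)) : ℝ :=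
  F.card * ∑ i ∈ A, Real.log (B i).card - hN F A

theorem KF_empty (B : Fin n → Finset ℤ) (F : Finset (Fin n → ℤ)) : KF B F ∅ = 0 := by
  unfold KF; rw [hN_empty]; simp

theorem hN_single_le (B : Fin n → Finset ℤ) (F : Finset (Fin n → ℤ))
    (hF : F ⊆ Fintype.piFinset B) (hFne : F.Nonempty) (i : Fin n) :
    hN F {i} ≤ F.card * Real.log (B i).card := by
  have h1 := hN_le {i} F hFne
  refine h1.trans ?_
  apply mul_le_mul_of_nonneg_left _ (Nat.cast_nonneg _)
  have h2 : (proj {i} F).card ≤ (B i).card := by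
    have h3 : proj {i} F = (F.image (fun x => x i)).image
        (fun (a : ℤ) (_ : {j // j ∈ ({i} : Finset (Fin n))}) => a) := by
      unfold proj
      rw [image_image]
      apply image_congr
      intro x _
      funext j
      have := mem_singleton.mp j.2
      simp [this]
    rw [h3]
    refine card_image_le.trans (card_le_card ?_)
    intro a ha
    obtain ⟨x, hx, rfl⟩ := mem_image.mp ha
    exact Fintype.mem_piFinset.mp (hF hx) i
  have h4 : (0 : ℝ) < (proj {i} F).card := by
    exact_mod_cast card_pos.mpr (hFne.image _)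
  exact Real.log_le_log h4 (by exact_mod_cast h2)

theorem hN_le_box (B : Fin n → Finset ℤ) (F : Finset (Fin n → ℤ))
    (hF : F ⊆ Fintype.piFinset B) (hFne : F.Nonempty) (D : Finset (Fin n)) :
    hN F D ≤ F.card * ∑ i ∈ D, Real.log (B i).card := by
  induction D using Finset.induction_on with
  | empty => rw [hN_empty]; simp
  | insert i D hi ih =>
    rw [sum_insert hi, mul_add]
    have h1 := hN_submod F {i} D
    have h2 : ({i} : Finset (Fin n)) ∩ D = ∅ := by
      rw [singleton_inter_of_notMem hi]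
    rw [h2, hN_empty, ← insert_eq] at h1
    have h3 := hN_single_le B F hF hFne i
    linarith

theorem KF_super (B : Fin n → Finset ℤ) (F : Finset (Fin n → ℤ)) (A A' : Finset (Fin n)) :
    KF B F A + KF B F A' ≤ KF B F (A ∪ A') + KF B F (A ∩ A') := by
  unfold KF
  have h1 := hN_submod F A A'
  have h2 := sum_union_inter (s₁ := A) (s₂ := A') (f := fun i => Real.log (B i).card)
  have h3 := congrArg (fun t => (F.card : ℝ) * t) h2
  simp only [mul_add] at h3
  linarith

theorem KF_mono (B : Fin n → Finset ℤ) (F : Finset (Fin n → ℤ))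
    (hF : F ⊆ Fintype.piFinset B) (hFne : F.Nonempty) (A A' : Finset (Fin n)) (h : A ⊆ A') :
    KF B F A ≤ KF B F A' := by
  unfold KF
  have h1 := hN_submod F A (A' \ A)
  rw [union_sdiff_of_subset h, inter_sdiff_self, hN_empty] at h1
  have h2 := hN_le_box B F hF hFne (A' \ A)
  have h3 := sum_sdiff h (f := fun i => Real.log ((B i).card : ℝ))
  rw [← h3, mul_add]
  linarith

theorem KF_nonneg (B : Fin n → Finset ℤ) (F : Finset (Fin n → ℤ))
    (hF : F ⊆ Fintype.piFinset B) (hFne : F.Nonempty) (A : Finset (Fin n)) : 0 ≤ KF B F A := by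
  rw [← KF_empty B F]
  exact KF_mono B F hF hFne _ _ (empty_subset _)

theorem KF_insert (B : Fin n → Finset ℤ) (F : Finset (Fin n → ℤ))
    (hF : F ⊆ Fintype.piFinset B) (hFne : F.Nonempty) (i : Fin n) (hi : (B i).card = 1)
    (A : Finset (Fin n)) : KF B F (insert i A) = KF B F A := by
  by_cases h : i ∈ A
  · rw [insert_eq_of_mem h]
  · apply le_antisymm _ (KF_mono B F hF hFne _ _ (subset_insert _ _))
    unfold KF
    rw [sum_insert h, hi]
    have := hN_mono F (subset_insert i A)
    simp only [Nat.cast_one, Real.log_one, zero_add]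
    linarith

theorem KF_eq (B : Fin n → Finset ℤ) (hne : ∀ i, (B i).Nonempty) (F : Finset (Fin n → ℤ))
    (A : Finset (Fin n)) :
    KF B F A = ∑ x ∈ F, (Real.log (bp B A) + Real.log (fc A F x) - Real.log F.card) := by
  unfold KF hN
  rw [sum_sub_distrib, sum_add_distrib, sum_const, sum_const, nsmul_eq_mul, nsmul_eq_mul,
    log_bp B hne]
  ring

/-- the patterns which `F` hits more often than the box -/
def Ev (B : Fin n → Finset ℤ) (F : Finset (Fin n → ℤ)) (A : Finset (Fin n))
    (y : Fin n → ℤ) : Prop := (F.card : ℝ) < bp B A * fc A F y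

theorem Ev_congr (B : Fin n → Finset ℤ) (F : Finset (Fin n → ℤ)) (A : Finset (Fin n))
    {y y' : Fin n → ℤ} (h : Agr A y y') : Ev B F A y ↔ Ev B F A y' := by
  unfold Ev
  rw [fc_congr (S := F) h]

open Classical in
/-- the scaled distance of the projection of `F` from uniform -/
noncomputable def tt (B : Fin n → Finset ℤ) (F : Finset (Fin n → ℤ)) (A : Finset (Fin n)) : ℝ :=
  (F.filter (Ev B F A)).card
    - (F.card : ℝ) / (Fintype.piFinset B).card * ((Fintype.piFinset B).filter (Ev B F A)).card

open Classical in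
theorem tt_eq (B : Fin n → Finset ℤ) (hne : ∀ i, (B i).Nonempty) (F : Finset (Fin n → ℤ))
    (hF : F ⊆ Fintype.piFinset B) (A : Finset (Fin n)) :
    tt B F A = ∑ x ∈ F.filter (Ev B F A), (1 - (F.card : ℝ) / (bp B A * fc A F x)) := by
  set R := Fintype.piFinset B with hR
  have hbpA := bp_pos B hne A
  have hRpos : (0 : ℝ) < R.card := by rw [hR, card_box]; exact bp_pos B hne univ
  unfold tt
  rw [sum_sub_distrib, sum_const, nsmul_eq_mul, mul_one]
  congr 1
  rw [← hR]
  -- double counting
  have h1 : ((R.filter (Ev B F A)).card : ℝ)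
      = ∑ y ∈ R.filter (Ev B F A), ∑ x ∈ F.filter (Ev B F A),
        (if Agr A x y then 1 / (fc A F x : ℝ) else 0) := by
    rw [card_eq_sum_ones]
    push_cast
    apply sum_congr rfl
    intro y hy
    obtain ⟨hyR, hyE⟩ := mem_filter.mp hy
    have h2 : ∑ x ∈ F.filter (Ev B F A), (if Agr A x y then 1 / (fc A F x : ℝ) else 0)
        = ∑ x ∈ F.filter (fun x => Agr A y x), 1 / (fc A F y : ℝ) := by
      rw [← sum_filter]
      have h3 : (F.filter (Ev B F A)).filter (fun x => Agr A x y)
          = F.filter (fun x => Agr A y x) := by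
        rw [filter_filter]
        apply filter_congr
        intro x _
        constructor
        · rintro ⟨_, h⟩; exact h.symm
        · intro h; exact ⟨(Ev_congr B F A h).mp hyE, h.symm⟩
      rw [h3]
      apply sum_congr rfl
      intro x hx
      rw [fc_congr (S := F) (mem_filter.mp hx).2.symm]
    rw [h2, sum_const, nsmul_eq_mul]
    have h4 : (F.filter (fun x => Agr A y x)).card = fc A F y := rfl
    rw [h4]
    have h5 : (0 : ℝ) < fc A F y := by
      unfold Ev at hyE
      by_contra h6
      have h7 : (fc A F y : ℝ) = 0 := le_antisymm (not_lt.mp h6) (Nat.cast_nonneg _)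
      rw [h7, mul_zero] at hyE
      have : (0 : ℝ) ≤ F.card := Nat.cast_nonneg _
      linarith
    field_simp
  rw [h1, sum_comm, mul_sum]
  apply sum_congr rfl
  intro x hx
  obtain ⟨hxF, hxE⟩ := mem_filter.mp hx
  have hfc : (0 : ℝ) < fc A F x := by exact_mod_cast fc_pos hxF
  rw [← sum_filter, sum_const, nsmul_eq_mul]
  have h3 : (R.filter (Ev B F A)).filter (fun y => Agr A x y) = R.filter (fun y => Agr A x y) := by
    rw [filter_filter]
    apply filter_congr
    intro y _
    constructor
    · rintro ⟨_, h⟩; exact h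
    · intro h; exact ⟨(Ev_congr B F A h).mp hxE, h⟩
  rw [h3]
  have h4 : ((R.filter (fun y => Agr A x y)).card : ℝ) = fc A R x := rfl
  rw [h4]
  have h5 := fc_box B A x (fun i _ => Fintype.mem_piFinset.mp (hF hxF) i)
  rw [← hR] at h5
  have h6 : (fc A R x : ℝ) = R.card / bp B A := by
    rw [eq_div_iff hbpA.ne', mul_comm]; exact h5
  rw [h6]
  field_simp

theorem tt_nonneg (B : Fin n → Finset ℤ) (hne : ∀ i, (B i).Nonempty) (F : Finset (Fin n → ℤ))
    (hF : F ⊆ Fintype.piFinset B) (A : Finset (Fin n)) : 0 ≤ tt B F A := by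
  classical
  rw [tt_eq B hne F hF A]
  apply sum_nonneg
  intro x hx
  obtain ⟨hxF, hxE⟩ := mem_filter.mp hx
  unfold Ev at hxE
  have h0 : (0 : ℝ) ≤ F.card := Nat.cast_nonneg _
  have : (F.card : ℝ) / (bp B A * fc A F x) ≤ 1 := by
    rw [div_le_one (lt_of_le_of_lt h0 hxE)]
    exact hxE.le
  linarith

theorem chord (f u : ℝ) (hf : 0 < f) (hf1 : f < 1) (hu : f ≤ u) (hu1 : u ≤ 1) :
    -Real.log u ≤ (1 - u) * (-Real.log f / (1 - f)) := by
  have h1f : 0 < 1 - f := by linarith
  have h := strictConcaveOn_log_Ioi.concaveOn.2 (Set.mem_Ioi.mpr hf)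
    (Set.mem_Ioi.mpr (zero_lt_one : (0 : ℝ) < 1))
    (show 0 ≤ (1 - u) / (1 - f) from div_nonneg (by linarith) h1f.le)
    (show 0 ≤ (u - f) / (1 - f) from div_nonneg (by linarith) h1f.le)
    (by field_simp; ring)
  simp only [smul_eq_mul, Real.log_one, mul_zero, add_zero, mul_one] at h
  have e1 : (1 - u) / (1 - f) * f + (u - f) / (1 - f) = u := by
    field_simp; ring
  rw [e1] at h
  have e2 : (1 - u) * (-Real.log f / (1 - f)) = -((1 - u) / (1 - f) * Real.log f) := by ring
  rw [e2]
  linarith

theorem KF_le (B : Fin n → Finset ℤ) (hne : ∀ i, (B i).Nonempty) (F : Finset (Fin n → ℤ))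
    (hF : F ⊆ Fintype.piFinset B) (hFne : F.Nonempty) (f : ℝ)
    (hf : f = (F.card : ℝ) / (Fintype.piFinset B).card) (hf1 : f < 1) (A : Finset (Fin n)) :
    KF B F A ≤ tt B F A * (-Real.log f / (1 - f)) := by
  classical
  set R := Fintype.piFinset B with hR
  have hbpA := bp_pos B hne A
  have hRpos : (0 : ℝ) < R.card := by rw [hR, card_box]; exact bp_pos B hne univ
  have hN : (0 : ℝ) < F.card := by exact_mod_cast card_pos.mpr hFne
  have hf0 : 0 < f := by rw [hf]; exact div_pos hN hRpos
  rw [KF_eq B hne, tt_eq B hne F hF A, sum_mul]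
  have h1 : ∑ x ∈ F, (Real.log (bp B A) + Real.log (fc A F x) - Real.log F.card)
      ≤ ∑ x ∈ F.filter (Ev B F A), (Real.log (bp B A) + Real.log (fc A F x)
        - Real.log F.card) := by
    rw [← sum_filter_add_sum_filter_not F (Ev B F A)]
    have h2 : ∑ x ∈ F.filter (fun x => ¬ Ev B F A x),
        (Real.log (bp B A) + Real.log (fc A F x) - Real.log F.card) ≤ 0 := by
      apply sum_nonpos
      intro x hx
      obtain ⟨hxF, hxE⟩ := mem_filter.mp hx
      have hfc : (0 : ℝ) < fc A F x := by exact_mod_cast fc_pos hxF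
      unfold Ev at hxE
      have h3 := Real.log_le_log (mul_pos hbpA hfc) (not_lt.mp hxE)
      rw [Real.log_mul hbpA.ne' hfc.ne'] at h3
      linarith
    linarith
  refine h1.trans (sum_le_sum ?_)
  intro x hx
  obtain ⟨hxF, hxE⟩ := mem_filter.mp hx
  have hfc : (0 : ℝ) < fc A F x := by exact_mod_cast fc_pos hxF
  have hpos : 0 < bp B A * fc A F x := mul_pos hbpA hfc
  have h2 : bp B A * fc A F x ≤ R.card := by
    rw [hR, ← fc_box B A x (fun i _ => Fintype.mem_piFinset.mp (hF hxF) i)]
    apply mul_le_mul_of_nonneg_left _ hbpA.le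
    have : fc A F x ≤ fc A (Fintype.piFinset B) x :=
      card_le_card (filter_subset_filter _ hF)
    exact_mod_cast this
  have h3 := chord f ((F.card : ℝ) / (bp B A * fc A F x)) hf0 hf1
    (by rw [hf]; exact div_le_div_of_nonneg_left hN.le hpos h2)
    (by rw [div_le_one hpos]; exact hxE.le)
  rw [Real.log_div hN.ne' hpos.ne', Real.log_mul hbpA.ne' hfc.ne'] at h3
  linarith

theorem Df_KF (B : Fin n → Finset ℤ) (F : Finset (Fin n → ℤ)) (P : Finset (Fin n) → ℝ) (p : ℝ)
    (hcov : ∀ i, ∑ A, (if i ∈ A then P A else 0) = p) :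
    Df P p F = p * KF B F univ - ∑ A, P A * KF B F A := by
  have h1 : ∑ A : Finset (Fin n), P A * ∑ i ∈ A, Real.log ((B i).card : ℝ)
      = p * ∑ i, Real.log ((B i).card : ℝ) := by
    have h2 : ∀ A : Finset (Fin n), P A * ∑ i ∈ A, Real.log ((B i).card : ℝ)
        = ∑ i, (if i ∈ A then P A else 0) * Real.log ((B i).card : ℝ) := by
      intro A
      rw [mul_sum, ← univ_inter A, ← sum_ite_mem]
      apply sum_congr rfl
      intro i _
      rw [univ_inter]
      split_ifs <;> ring
    simp only [h2]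
    rw [sum_comm]
    simp only [← sum_mul, hcov]
    rw [← mul_sum]
  unfold Df KF
  have h2 : ∑ A : Finset (Fin n), P A * ((F.card : ℝ) * ∑ i ∈ A, Real.log ((B i).card : ℝ)
      - hN F A) = F.card * (∑ A : Finset (Fin n), P A * ∑ i ∈ A, Real.log ((B i).card : ℝ))
        - ∑ A, P A * hN F A := by
    rw [mul_sum, ← sum_sub_distrib]
    apply sum_congr rfl
    intro A _
    ring
  rw [h2, h1]
  ring

theorem KF_univ (B : Fin n → Finset ℤ) (hne : ∀ i, (B i).Nonempty) (F : Finset (Fin n → ℤ))
    (hF : F ⊆ Fintype.piFinset B) (hFne : F.Nonempty) :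
    KF B F univ = F.card * (-Real.log ((F.card : ℝ) / (Fintype.piFinset B).card)) := by
  have hRpos : (0 : ℝ) < (Fintype.piFinset B).card := by
    rw [card_box]; exact bp_pos B hne univ
  have hN : (0 : ℝ) < F.card := by exact_mod_cast card_pos.mpr hFne
  unfold KF
  rw [hN_univ, Real.log_div hN.ne' hRpos.ne', card_box, log_bp B hne]
  ring

/-- the section lemma -/
theorem sec (B : Fin n → Finset ℤ) (hne : ∀ i, (B i).Nonempty) (F : Finset (Fin n → ℤ))
    (hF : F ⊆ Fintype.piFinset B) (hFne : F.Nonempty)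
    (ν0 ν1 : Finset (Fin n) → ℝ) (h0 : ∀ A, 0 ≤ ν0 A) (h1 : ∀ A, 0 ≤ ν1 A) (p c : ℝ)
    (hcov : ∀ i, ∑ A, (if i ∈ A then ν0 A + ν1 A else 0) = p)
    (hcov1 : ∀ i, ∑ A, (if i ∈ A then ν1 A else 0) ≤ p - c ∨ (B i).card = 1) :
    c * ((1 - (F.card : ℝ) / (Fintype.piFinset B).card) * F.card) - ∑ A, ν0 A * tt B F A
      ≤ Df (fun A => ν0 A + ν1 A) p F := by
  set R := Fintype.piFinset B with hR
  have hRpos : (0 : ℝ) < R.card := by rw [hR, card_box]; exact bp_pos B hne univ
  have hN : (0 : ℝ) < F.card := by exact_mod_cast card_pos.mpr hFne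
  have hD0 := Df_nonneg (fun A => ν0 A + ν1 A) (fun A => add_nonneg (h0 A) (h1 A)) p hcov F
  have hT0 : 0 ≤ ∑ A, ν0 A * tt B F A :=
    sum_nonneg (fun A _ => mul_nonneg (h0 A) (tt_nonneg B hne F hF A))
  have hFR : (F.card : ℝ) ≤ R.card := by exact_mod_cast card_le_card hF
  set f : ℝ := (F.card : ℝ) / R.card with hf
  have hf0 : 0 < f := div_pos hN hRpos
  have hf1 : f ≤ 1 := (div_le_one hRpos).mpr hFR
  rcases hf1.eq_or_lt with h | h
  · rw [h]
    simp only [sub_self, zero_mul, mul_zero]
    linarith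
  · have hK := Df_KF B F (fun A => ν0 A + ν1 A) p hcov
    have hs := shear_super (KF B F) (KF_empty B F) (KF_mono B F hF hFne) (KF_super B F) ν1 h1
      (p - c) (fun i => by
        rcases hcov1 i with h2 | h2
        · exact Or.inl h2
        · exact Or.inr (fun A => KF_insert B F hF hFne i h2 A))
    have hu := KF_univ B hne F hF hFne
    rw [← hR, ← hf] at hu
    set L : ℝ := -Real.log f with hL
    have hL1 : 1 - f ≤ L := by
      have := Real.log_le_sub_one_of_pos hf0
      rw [hL]; linarith
    have h1f : 0 < 1 - f := by linarith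
    have h2 : ∑ A, ν0 A * KF B F A ≤ (∑ A, ν0 A * tt B F A) * (L / (1 - f)) := by
      rw [sum_mul]
      apply sum_le_sum
      intro A _
      have h3 := KF_le B hne F hF hFne f hf h A
      have h4 := mul_le_mul_of_nonneg_left h3 (h0 A)
      linarith
    have h3 : ∑ A, (ν0 A + ν1 A) * KF B F A = ∑ A, ν0 A * KF B F A + ∑ A, ν1 A * KF B F A := by
      rw [← sum_add_distrib]
      apply sum_congr rfl
      intro A _
      ring
    rw [h3, hu] at hK
    rw [hu] at hs
    set T : ℝ := ∑ A, ν0 A * tt B F A with hT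
    by_cases hX : c * ((1 - f) * F.card) - T ≤ 0
    · linarith
    · have hX' := (not_le.mp hX).le
      have h4 : (L / (1 - f)) * (c * ((1 - f) * F.card) - T) ≤ Df (fun A => ν0 A + ν1 A) p F := by
        have e1 : (L / (1 - f)) * (c * ((1 - f) * F.card) - T)
            = c * (F.card * L) - T * (L / (1 - f)) := by
          field_simp
        rw [e1]
        linarith
      have h5 : 1 ≤ L / (1 - f) := by rw [le_div_iff₀ h1f]; linarith
      have h6 := mul_le_mul_of_nonneg_right h5 hX'
      linarith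

end Pool.Agent.W211
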