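import Pool.Agent.H488R3.UC.GM5

/-!
Shearer's inequality with its remainder, for weights with uniform coverage.
-/

namespace Pool.Agent.W211

open Finset

variable {n : ℕ}

/-- the first `j` coordinates -/
def pre (j : ℕ) : Finset (Fin n) := univ.filter (fun i => i.val < j)

theorem mem_pre {j : ℕ} {i : Fin n} : i ∈ (pre j : Finset (Fin n)) ↔ i.val < j := by simp [pre]

theorem pre_zero : (pre 0 : Finset (Fin n)) = ∅ := by
  ext i; simp [mem_pre]

theorem pre_n : (pre n : Finset (Fin n)) = univ := by
  ext i; simp [mem_pre]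

theorem tele (h : Finset (Fin n) → ℝ) (A : Finset (Fin n)) :
    h A - h ∅ = ∑ j : Fin n, if j ∈ A then
      (h (insert j (A ∩ pre j.val)) - h (A ∩ pre j.val)) else 0 := by
  have h1 := sum_range_sub (fun m => h (A ∩ pre m)) n
  rw [← Fin.sum_univ_eq_sum_range (fun m => h (A ∩ pre (m + 1)) - h (A ∩ pre m)) n] at h1
  rw [pre_n, pre_zero, inter_univ, inter_empty] at h1
  rw [← h1]
  apply sum_congr rfl
  intro j _
  by_cases hj : j ∈ A
  · rw [if_pos hj]
    have : A ∩ pre (j.val + 1) = insert j (A ∩ pre j.val) := by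
      ext i
      rw [mem_inter, mem_pre, mem_insert, mem_inter, mem_pre]
      constructor
      · rintro ⟨h2, h3⟩
        rcases Nat.lt_succ_iff_lt_or_eq.mp h3 with h4 | h4
        · exact Or.inr ⟨h2, h4⟩
        · exact Or.inl (Fin.ext h4)
      · rintro (rfl | ⟨h2, h3⟩)
        · exact ⟨hj, Nat.lt_succ_self _⟩
        · exact ⟨h2, by omega⟩
    rw [this]
  · rw [if_neg hj]
    have : A ∩ pre (j.val + 1) = A ∩ pre j.val := by
      ext i
      rw [mem_inter, mem_pre, mem_inter, mem_pre]
      constructor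
      · rintro ⟨h2, h3⟩
        rcases Nat.lt_succ_iff_lt_or_eq.mp h3 with h4 | h4
        · exact ⟨h2, h4⟩
        · exact absurd (Fin.ext h4 ▸ h2) hj
      · rintro ⟨h2, h3⟩
        exact ⟨h2, by omega⟩
    rw [this, sub_self]

/-- Shearer's inequality with the remainder -/
theorem shear_rem (h : Finset (Fin n) → ℝ) (h0 : h ∅ = 0) (P : Finset (Fin n) → ℝ) (p : ℝ)
    (hcov : ∀ i, ∑ A, (if i ∈ A then P A else 0) = p) :
    ∑ A, P A * h A - p * h univ = ∑ A : Finset (Fin n), P A * ∑ j : Fin n, if j ∈ A then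
      ((h (insert j (A ∩ pre j.val)) - h (A ∩ pre j.val))
        - (h (insert j (pre j.val)) - h (pre j.val))) else 0 := by
  have h1 : ∀ A, h A = ∑ j : Fin n, if j ∈ A then
      (h (insert j (A ∩ pre j.val)) - h (A ∩ pre j.val)) else 0 := by
    intro A
    rw [← tele, h0, sub_zero]
  have h2 : p * h univ = ∑ A : Finset (Fin n), P A * ∑ j : Fin n, (if j ∈ A then
      (h (insert j (pre j.val)) - h (pre j.val)) else 0) := by
    have e1 : ∀ A : Finset (Fin n), P A * ∑ j : Fin n, (if j ∈ A then
        (h (insert j (pre j.val)) - h (pre j.val)) else 0)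
        = ∑ j : Fin n, (if j ∈ A then P A else 0)
          * (h (insert j (pre j.val)) - h (pre j.val)) := by
      intro A
      rw [mul_sum]
      apply sum_congr rfl
      intro j _
      split_ifs <;> ring
    simp only [e1]
    rw [sum_comm]
    simp only [← sum_mul, hcov]
    rw [← mul_sum]
    congr 1
    rw [h1 univ]
    apply sum_congr rfl
    intro j _
    rw [if_pos (mem_univ _), univ_inter]
  rw [h2, ← sum_sub_distrib]
  apply sum_congr rfl
  intro A _
  conv_lhs => rw [h1 A]
  rw [← mul_sub, ← sum_sub_distrib]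
  congr 1
  apply sum_congr rfl
  intro j _
  split_ifs <;> ring

/-- Shearer's inequality -/
theorem shear (h : Finset (Fin n) → ℝ) (h0 : h ∅ = 0)
    (hsub : ∀ A B, h (A ∪ B) + h (A ∩ B) ≤ h A + h B)
    (P : Finset (Fin n) → ℝ) (hP : ∀ A, 0 ≤ P A) (p : ℝ)
    (hcov : ∀ i, ∑ A, (if i ∈ A then P A else 0) = p) :
    0 ≤ ∑ A, P A * h A - p * h univ := by
  rw [shear_rem h h0 P p hcov]
  apply sum_nonneg
  intro A _
  apply mul_nonneg (hP A)
  apply sum_nonneg
  intro j _
  split_ifs with hj
  · have h1 := hsub (insert j (A ∩ pre j.val)) (pre j.val)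
    have e1 : insert j (A ∩ pre j.val) ∪ pre j.val = insert j (pre j.val) := by
      rw [insert_union, union_eq_right.mpr inter_subset_right]
    have e2 : insert j (A ∩ pre j.val) ∩ pre j.val = A ∩ pre j.val := by
      ext i
      simp only [mem_inter, mem_insert, mem_pre]
      constructor
      · rintro ⟨rfl | h2, h3⟩
        · omega
        · exact h2
      · rintro h2; exact ⟨Or.inr h2, h2.2⟩
    rw [e1, e2] at h1
    linarith
  · exact le_refl _

/-- the reverse inequality for supermodular functions -/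
theorem shear_super (h : Finset (Fin n) → ℝ) (h0 : h ∅ = 0)
    (hmono : ∀ A B, A ⊆ B → h A ≤ h B)
    (hsup : ∀ A B, h A + h B ≤ h (A ∪ B) + h (A ∩ B))
    (P : Finset (Fin n) → ℝ) (hP : ∀ A, 0 ≤ P A) (p : ℝ)
    (hcov : ∀ i, ∑ A, (if i ∈ A then P A else 0) ≤ p ∨ ∀ A, h (insert i A) = h A) :
    ∑ A, P A * h A ≤ p * h univ := by
  have h1 : ∀ A, h A ≤ ∑ j : Fin n, if j ∈ A then
      (h (insert j (pre j.val)) - h (pre j.val)) else 0 := by
    intro A
    have h2 := tele h A
    rw [h0, sub_zero] at h2
    conv_lhs => rw [h2]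
    apply sum_le_sum
    intro j _
    split_ifs with hj
    · have h1 := hsup (insert j (A ∩ pre j.val)) (pre j.val)
      have e1 : insert j (A ∩ pre j.val) ∪ pre j.val = insert j (pre j.val) := by
        rw [insert_union, union_eq_right.mpr inter_subset_right]
      have e2 : insert j (A ∩ pre j.val) ∩ pre j.val = A ∩ pre j.val := by
        ext i
        simp only [mem_inter, mem_insert, mem_pre]
        constructor
        · rintro ⟨rfl | h2, h3⟩
          · omega
          · exact h2
        · rintro h2; exact ⟨Or.inr h2, h2.2⟩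
      rw [e1, e2] at h1
      linarith
    · exact le_refl _
  refine (sum_le_sum (fun A _ => mul_le_mul_of_nonneg_left (h1 A) (hP A))).trans ?_
  have e1 : ∀ A : Finset (Fin n), P A * ∑ j : Fin n, (if j ∈ A then
      (h (insert j (pre j.val)) - h (pre j.val)) else 0)
      = ∑ j : Fin n, (if j ∈ A then P A else 0)
        * (h (insert j (pre j.val)) - h (pre j.val)) := by
    intro A
    rw [mul_sum]
    apply sum_congr rfl
    intro j _
    split_ifs <;> ring
  simp only [e1]
  rw [sum_comm]
  simp only [← sum_mul]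
  have h3 : h univ = ∑ j : Fin n, (h (insert j (pre j.val)) - h (pre j.val)) := by
    have h2 := tele h univ
    rw [h0, sub_zero] at h2
    rw [h2]
    apply sum_congr rfl
    intro j _
    rw [if_pos (mem_univ _), univ_inter]
  rw [h3, mul_sum]
  apply sum_le_sum
  intro j _
  have h4 : 0 ≤ h (insert j (pre j.val)) - h (pre j.val) :=
    sub_nonneg.mpr (hmono _ _ (subset_insert _ _))
  rcases hcov j with h5 | h5
  · exact mul_le_mul_of_nonneg_right h5 h4
  · rw [h5, sub_self]; simp

end Pool.Agent.W211
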