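import Pool.Agent.W211.Multi

/-!
The points with one bad coordinate.
-/

namespace Pool.Agent.W211

open Finset
open Pool.Agent.H488R3.UC

variable {n : ℕ}

/-- the coarsening which forgets the coordinates inside the box -/
def nz (B : Fin n → Finset ℤ) (b : Fin n → ℤ) : Fin n → ℤ → ℤ :=
  fun i v => if v ∈ B i then b i else v

/-- the box of a cell -/
def Bz (B : Fin n → Finset ℤ) (z : Fin n → ℤ) : Fin n → Finset ℤ :=
  fun j => if z j ∈ B j then B j else {z j}

theorem Bz_ne (B : Fin n → Finset ℤ) (hne : ∀ i, (B i).Nonempty) (z : Fin n → ℤ) (i : Fin n) :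
    (Bz B z i).Nonempty := by
  unfold Bz
  split_ifs
  · exact hne i
  · exact singleton_nonempty _

theorem bad_Zm {B : Fin n → Finset ℤ} {b : Fin n → ℤ} (hb : ∀ i, b i ∈ B i) (x : Fin n → ℤ) :
    bad B (Zm (nz B b) x) = bad B x := by
  ext i
  rw [mem_bad, mem_bad]
  unfold Zm nz
  split_ifs with h
  · simp [h, hb i]
  · simp [h]

theorem cell_sub {B : Fin n → Finset ℤ} {b : Fin n → ℤ} (hb : ∀ i, b i ∈ B i)
    (S : Finset (Fin n → ℤ)) (z : Fin n → ℤ) :
    cell (nz B b) S z ⊆ Fintype.piFinset (Bz B z) := by
  intro x hx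
  obtain ⟨_, h2⟩ := mem_filter.mp hx
  rw [mask_univ] at h2
  rw [Fintype.mem_piFinset]
  intro i
  have h3 : z i = nz B b i (x i) := by rw [← h2]; rfl
  unfold Bz
  rw [h3]
  unfold nz
  by_cases h : x i ∈ B i
  · simp [h, hb i]
  · simp [h]

theorem Bz_single {B : Fin n → Finset ℤ} {z : Fin n → ℤ} {i : Fin n} (hz : bad B z = {i}) :
    Bz B z = bu B i {z i} := by
  funext j
  unfold Bz bu
  by_cases hj : j = i
  · subst hj
    have : z j ∉ B j := mem_bad.mp (by rw [hz]; exact mem_singleton_self j)
    simp [this]
  · rw [Function.update_of_ne hj]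
    have : z j ∈ B j := by
      by_contra h
      have := mem_bad.mpr h
      rw [hz, mem_singleton] at this
      exact hj this
    simp [this]

theorem cell_single {B : Fin n → Finset ℤ} {b : Fin n → ℤ} (S : Finset (Fin n → ℤ))
    (hb : ∀ i, b i ∈ B i) {z : Fin n → ℤ} {i : Fin n} (hz : bad B z = {i}) :
    cell (nz B b) S z ⊆ S ∩ Fintype.piFinset (bu B i {z i}) := by
  intro x hx
  rw [mem_inter, ← Bz_single hz]
  exact ⟨(mem_filter.mp hx).1, cell_sub hb S z hx⟩

theorem exp_le_quad (l : ℝ) (hl0 : 0 ≤ l) (hl1 : l ≤ 1) : Real.exp l - 1 ≤ l + l ^ 2 := by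
  have h := Real.abs_exp_sub_one_sub_id_le (show |l| ≤ 1 by rw [abs_of_nonneg hl0]; exact hl1)
  have := (abs_le.mp h).2
  linarith

open Classical in
/-- one cell, one set of coordinates -/
theorem term_ge (S : Finset (Fin n → ℤ)) (B : Fin n → Finset ℤ) (hne : ∀ i, (B i).Nonempty)
    (b : Fin n → ℤ) (hb : ∀ i, b i ∈ B i) (hR : (S ∩ Fintype.piFinset B).Nonempty) (η : ℝ)
    (hη : (((Fintype.piFinset B \ S).card : ℝ) + (S \ Fintype.piFinset B).card)
      ≤ η * (S ∩ Fintype.piFinset B).card)
    (l : ℝ) (hl0 : 0 ≤ l) (hl1 : l ≤ 1)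
    (z : Fin n → ℤ) (i : Fin n) (hz : bad B z = {i}) (A : Finset (Fin n)) (hi : i ∉ A)
    (hzb : ∀ j, z j ∈ B j → z j = b j) :
    l * tt (Bz B z) (cell (nz B b) S z) A - (l ^ 2 + 2 * l * η) * (cell (nz B b) S z).card
      ≤ l * (S.filter (fun x => mask univ (Zm (nz B b) x) = z
          ∧ Ev (Bz B z) (cell (nz B b) S z) A x)).card
      - (Real.exp l - 1) * (((S.filter (fun x => mask univ (Zm (nz B b) x) = z)).card : ℝ)
        / (S.filter (fun x => mask A (Zm (nz B b) x) = mask A z)).card)
        * (S.filter (fun x => mask A (Zm (nz B b) x) = mask A z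
          ∧ Ev (Bz B z) (cell (nz B b) S z) A x)).card := by
  set R := Fintype.piFinset B with hRd
  set F := cell (nz B b) S z with hF
  set E := Ev (Bz B z) F A with hE
  set Rz := Fintype.piFinset (Bz B z) with hRz
  have hR0 : (0 : ℝ) < (S ∩ R).card := by exact_mod_cast card_pos.mpr hR
  have hRzpos : (0 : ℝ) < Rz.card := by rw [hRz, card_box]; exact bp_pos _ (Bz_ne B hne z) univ
  have hRpos : (0 : ℝ) < R.card := by rw [hRd, card_box]; exact bp_pos _ hne univ
  have e1 : S.filter (fun x => mask univ (Zm (nz B b) x) = z ∧ E x) = F.filter E := by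
    rw [hF]; unfold cell; rw [filter_filter]
  have e2 : S.filter (fun x => mask univ (Zm (nz B b) x) = z) = F := rfl
  rw [e1, e2]
  set T := S.filter (fun x => mask A (Zm (nz B b) x) = mask A z) with hT
  -- the points of `T` are those which are good on `A`
  have hTmem : ∀ x, mask A (Zm (nz B b) x) = mask A z ↔ ∀ j ∈ A, x j ∈ B j := by
    intro x
    rw [mask_eq_iff]
    constructor
    · intro h j hj
      have h1 := h j hj
      have h2 : z j ∈ B j := by
        by_contra h3
        have h4 := mem_bad.mpr h3
        rw [hz, mem_singleton] at h4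
        exact hi (h4 ▸ hj)
      by_contra h3
      unfold Zm nz at h1
      rw [if_neg h3] at h1
      rw [h1] at h3
      exact h3 h2
    · intro h j hj
      have h2 : z j ∈ B j := by
        by_contra h3
        have h4 := mem_bad.mpr h3
        rw [hz, mem_singleton] at h4
        exact hi (h4 ▸ hj)
      unfold Zm nz
      rw [if_pos (h j hj), hzb j h2]
  have hTge : ((S ∩ R).card : ℝ) ≤ T.card := by
    have : S ∩ R ⊆ T := by
      intro x hx
      obtain ⟨h4, h5⟩ := mem_inter.mp hx
      exact mem_filter.mpr ⟨h4, (hTmem x).mpr (fun j _ => Fintype.mem_piFinset.mp h5 j)⟩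
    exact_mod_cast card_le_card this
  have hTE : ((S.filter (fun x => mask A (Zm (nz B b) x) = mask A z ∧ E x)).card : ℝ)
      ≤ (R.filter E).card + (S \ R).card := by
    have h1 : S.filter (fun x => mask A (Zm (nz B b) x) = mask A z ∧ E x)
        ⊆ R.filter E ∪ (S \ R) := by
      intro x hx
      obtain ⟨h4, h5, h6⟩ := mem_filter.mp hx
      by_cases h7 : x ∈ R
      · exact mem_union.mpr (Or.inl (mem_filter.mpr ⟨h7, h6⟩))
      · exact mem_union.mpr (Or.inr (mem_sdiff.mpr ⟨h4, h7⟩))
    have h2 := (card_le_card h1).trans (card_union_le _ _)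
    exact_mod_cast h2
  -- densities
  have hbz := Bz_single hz
  have hcb : ((B i).card : ℝ) * Rz.card = R.card := by
    rw [hRz, hbz]; exact card_bu B i (z i)
  have hBi : (0 : ℝ) < (B i).card := by exact_mod_cast card_pos.mpr (hne i)
  have hEup : ((R.filter E).card : ℝ) = (B i).card * (Rz.filter E).card := by
    have h1 := sum_upd B i (z i) (fun y => if E y then (1 : ℝ) else 0)
    have h2 : ∀ y, E (Function.update y i (z i)) ↔ E y := by
      intro y
      apply Ev_congr
      intro j hj
      rw [Function.update_of_ne (show j ≠ i from fun h' => hi (h' ▸ hj))]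
    simp only [h2] at h1
    rw [← hbz, ← hRz, ← hRd] at h1
    rw [← sum_filter, ← sum_filter, sum_const, sum_const, nsmul_eq_mul, nsmul_eq_mul, mul_one,
      mul_one] at h1
    exact h1
  set ε : ℝ := ((Rz.filter E).card : ℝ) / Rz.card with hε
  have hε0 : 0 ≤ ε := div_nonneg (Nat.cast_nonneg _) hRzpos.le
  have hε1 : ε ≤ 1 := by
    rw [hε, div_le_one hRzpos]
    exact_mod_cast card_le_card (filter_subset _ _)
  have hRE : ((R.filter E).card : ℝ) = ε * R.card := by
    rw [hEup, hε, ← hcb]; field_simp
  have htt : tt (Bz B z) F A = (F.filter E).card - F.card * ε := by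
    unfold tt
    rw [← hRz, ← hE, hε]; ring
  rw [htt]
  -- the quotient
  have hRc : (R.card : ℝ) = (S ∩ R).card + (R \ S).card := by
    have := card_sdiff_add R S
    rw [inter_comm] at this
    linarith
  have hF0 : (0 : ℝ) ≤ F.card := Nat.cast_nonneg _
  have hm0 : (0 : ℝ) ≤ (R \ S).card := Nat.cast_nonneg _
  have ho0 : (0 : ℝ) ≤ (S \ R).card := Nat.cast_nonneg _
  have hη0 : 0 ≤ η := by
    by_contra h1
    have h2 := mul_neg_of_neg_of_pos (not_le.mp h1) hR0
    linarith
  have hq : ((R.filter E).card : ℝ) + (S \ R).card ≤ (ε + η) * (S ∩ R).card := by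
    rw [hRE, hRc]
    have h1 : ε * (R \ S).card ≤ 1 * (R \ S).card := mul_le_mul_of_nonneg_right hε1 hm0
    linarith
  have hfin : (((F.card : ℝ) / T.card)
      * (S.filter (fun x => mask A (Zm (nz B b) x) = mask A z ∧ E x)).card)
      ≤ F.card * (ε + η) := by
    have hTpos : (0 : ℝ) < T.card := lt_of_lt_of_le hR0 hTge
    have h1 : ((S.filter (fun x => mask A (Zm (nz B b) x) = mask A z ∧ E x)).card : ℝ)
        ≤ (ε + η) * T.card := by
      refine (hTE.trans hq).trans ?_
      exact mul_le_mul_of_nonneg_left hTge (add_nonneg hε0 hη0)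
    have h2 := mul_le_mul_of_nonneg_left h1 (div_nonneg hF0 hTpos.le)
    refine h2.trans (le_of_eq ?_)
    field_simp
  have hexp := exp_le_quad l hl0 hl1
  have hexp0 : 0 ≤ Real.exp l - 1 := by
    have := Real.add_one_le_exp l
    linarith
  have h1 : (Real.exp l - 1) * (((F.card : ℝ) / T.card)
      * (S.filter (fun x => mask A (Zm (nz B b) x) = mask A z ∧ E x)).card)
      ≤ (l + l ^ 2) * (F.card * (ε + η)) :=
    mul_le_mul hexp hfin (by positivity) (by positivity)
  have h2 : (l + l ^ 2) * (F.card * (ε + η))
      ≤ l * (F.card * ε) + (l ^ 2 + 2 * l * η) * F.card := by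
    have h3 : l ^ 2 * (F.card * ε) ≤ l ^ 2 * (F.card * 1) := by
      apply mul_le_mul_of_nonneg_left _ (sq_nonneg l)
      exact mul_le_mul_of_nonneg_left hε1 hF0
    have h4 : l ^ 2 * (F.card * η) ≤ l * (F.card * η) := by
      apply mul_le_mul_of_nonneg_right _ (mul_nonneg hF0 hη0)
      nlinarith
    linarith
  have e3 : (Real.exp l - 1) * ((F.card : ℝ) / T.card)
      * (S.filter (fun x => mask A (Zm (nz B b) x) = mask A z ∧ E x)).card
      = (Real.exp l - 1) * (((F.card : ℝ) / T.card)
      * (S.filter (fun x => mask A (Zm (nz B b) x) = mask A z ∧ E x)).card) := by ring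
  rw [e3]
  linarith

/-- the lower bound from points with one bad coordinate -/
theorem single {P : Finset (Fin n) → ℝ} {p c : ℝ} (h : Cv P p c) (hc0 : 0 < c) (hc1 : c ≤ 1)
    (S : Finset (Fin n → ℤ)) (B : Fin n → Finset ℤ) (hopt : Opt S B)
    (hne : ∀ i, (B i).Nonempty) (hR : (S ∩ Fintype.piFinset B).Nonempty)
    (hη : (((Fintype.piFinset B \ S).card : ℝ) + (S \ Fintype.piFinset B).card)
      ≤ c / 16 * (S ∩ Fintype.piFinset B).card) :
    c ^ 2 / 32 * ((O1 S B).card : ℝ) ≤ Df P p S := by
  classical
  choose b hb using hne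
  have hne' : ∀ i, (B i).Nonempty := fun i => ⟨b i, hb i⟩
  set ζ := nz B b with hζ
  set l : ℝ := c / 8 with hl
  set I := S.image (fun x => mask univ (Zm ζ x)) with hI
  set Q : (Fin n → ℤ) → Prop := fun z => (bad B z).card = 1 with hQ
  set κ : ℝ := l ^ 2 + 2 * l * (c / 16) with hκ
  have hκ0 : 0 ≤ κ := by rw [hκ, hl]; positivity
  have hIb : ∀ z ∈ I, ∀ j, z j ∈ B j → z j = b j := by
    intro z hz j hj
    obtain ⟨x, _, rfl⟩ := mem_image.mp hz
    rw [mask_univ] at hj ⊢
    unfold Zm at hj ⊢
    rw [hζ] at hj ⊢
    unfold nz at hj ⊢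
    split_ifs at hj ⊢ with h1
    · rfl
    · exact absurd hj h1
  have hsplit := Df_split ζ P p S
  have hDZ := DZ_nonneg ζ P h.nn p h.cov S
  -- the information terms
  have hJ : ∀ A, ∑ z ∈ I, (if Q z ∧ Disjoint (bad B z) A then
      (l * tt (Bz B z) (cell ζ S z) A - κ * (cell ζ S z).card) else 0) ≤ JZ ζ S A := by
    intro A
    refine le_trans ?_ (JZ_ge ζ S A (fun z => if Q z ∧ Disjoint (bad B z) A then l else 0)
      (fun z => Ev (Bz B z) (cell ζ S z) A) (fun z x y hxy => Ev_congr _ _ _ (by
        rw [mask_eq_iff] at hxy; exact hxy)))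
    apply sum_le_sum
    intro z hz
    split_ifs with hzz
    · obtain ⟨i, hi⟩ := card_eq_one.mp hzz.1
      have hiA : i ∉ A := by
        have h1 := hzz.2
        rw [hi, disjoint_singleton_left] at h1
        exact h1
      exact term_ge S B hne' b hb hR (c / 16) hη l (by positivity) (by rw [hl]; linarith) z i hi
        A hiA (hIb z hz)
    · simp
  have hJ2 : ∑ z ∈ I, (if Q z then (l * ∑ A, (if Disjoint (bad B z) A then P A else 0)
        * tt (Bz B z) (cell ζ S z) A - κ * (cell ζ S z).card) else 0)
      ≤ ∑ A, P A * JZ ζ S A := by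
    refine le_trans ?_ (sum_le_sum (fun A _ => mul_le_mul_of_nonneg_left (hJ A) (h.nn A)))
    simp only [mul_sum]
    rw [sum_comm]
    apply sum_le_sum
    intro z _
    by_cases hz : Q z
    · rw [if_pos hz]
      have e1 : ∀ A : Finset (Fin n), P A * (if Q z ∧ Disjoint (bad B z) A then
          (l * tt (Bz B z) (cell ζ S z) A - κ * (cell ζ S z).card) else 0)
          = l * ((if Disjoint (bad B z) A then P A else 0) * tt (Bz B z) (cell ζ S z) A)
            - (if Disjoint (bad B z) A then P A else 0) * (κ * (cell ζ S z).card) := by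
        intro A
        by_cases hA : Disjoint (bad B z) A
        · rw [if_pos ⟨hz, hA⟩, if_pos hA]; ring
        · rw [if_neg (fun h' : Q z ∧ _ => hA h'.2), if_neg hA]; ring
      simp only [e1]
      rw [sum_sub_distrib, ← mul_sum, ← sum_mul]
      have h1 : ∑ A : Finset (Fin n), (if Disjoint (bad B z) A then P A else 0) ≤ 1 := by
        rw [← h.tot]
        apply sum_le_sum
        intro A _
        split_ifs
        · exact le_refl _
        · exact h.nn A
      have h2 := mul_le_mul_of_nonneg_right h1
        (mul_nonneg hκ0 (Nat.cast_nonneg (α := ℝ) (cell ζ S z).card))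
      rw [mul_sum]
      linarith
    · rw [if_neg hz]
      apply le_of_eq
      symm
      apply sum_eq_zero
      intro A _
      rw [if_neg (fun h' : Q z ∧ _ => hz h'.1), mul_zero]
  -- the deficits of the cells
  have hcell : ∀ z ∈ I, (if Q z then (l * (c / 2 * (cell ζ S z).card
      - ∑ A, (if Disjoint (bad B z) A then P A else 0) * tt (Bz B z) (cell ζ S z) A)) else 0)
      ≤ Df P p (cell ζ S z) := by
    intro z hz
    have hD0 := Df_nonneg P h.nn p h.cov (cell ζ S z)
    split_ifs with hzz
    · obtain ⟨i, hi⟩ := card_eq_one.mp hzz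
      have hbz := Bz_single hi
      have hcs := cell_sub hb S z
      have hFne : (cell ζ S z).Nonempty := by
        obtain ⟨x, hx, hxz⟩ := mem_image.mp hz
        exact ⟨x, mem_filter.mpr ⟨hx, hxz⟩⟩
      have hsum : ∀ A, (if Disjoint (bad B z) A then P A else 0)
          + (if Disjoint (bad B z) A then 0 else P A) = P A := by
        intro A; split_ifs <;> simp
      have hsec := sec (Bz B z) (Bz_ne B hne' z) (cell ζ S z) hcs hFne
        (fun A => if Disjoint (bad B z) A then P A else 0)
        (fun A => if Disjoint (bad B z) A then 0 else P A)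
        (fun A => by
          split_ifs
          · exact h.nn A
          · exact le_refl _)
        (fun A => by
          split_ifs
          · exact le_refl _
          · exact h.nn A) p c
        (fun j => by
          rw [← h.cov j]
          apply sum_congr rfl
          intro A _
          rw [hsum])
        (fun j => by
          by_cases hj : j = i
          · right
            subst hj
            have hzj : z j ∉ B j := mem_bad.mp (by rw [hi]; exact mem_singleton_self j)
            unfold Bz
            rw [if_neg hzj, card_singleton]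
          · left
            have h1 := h.cov j
            have h2 := h.sep j i hj
            have h3 : ∑ A, (if j ∈ A then P A else 0)
                = ∑ A, (if j ∈ A then (if Disjoint (bad B z) A then 0 else P A) else 0)
                  + ∑ A, (if j ∈ A ∧ i ∉ A then P A else 0) := by
              rw [← sum_add_distrib]
              apply sum_congr rfl
              intro A _
              rw [hi]
              simp only [disjoint_singleton_left]
              by_cases hjA : j ∈ A <;> by_cases hiA : i ∈ A <;> simp [hjA, hiA]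
            linarith)
      simp only [hsum] at hsec
      have hDf : Df (fun A => P A) p (cell ζ S z) = Df P p (cell ζ S z) := rfl
      rw [hDf] at hsec
      -- the density
      have hRzpos : (0 : ℝ) < (Fintype.piFinset (Bz B z)).card := by
        rw [card_box]; exact bp_pos _ (Bz_ne B hne' z) univ
      have hzi : z i ∉ B i := mem_bad.mp (by rw [hi]; exact mem_singleton_self i)
      have hden : ((cell ζ S z).card : ℝ) / (Fintype.piFinset (Bz B z)).card ≤ 1 / 2 := by
        rw [div_le_iff₀ hRzpos]
        have h1 := card_le_card (cell_single S hb hi)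
        have h2 := opt_out hopt i (z i) hzi
        rw [← hbz] at h2 h1
        have h3 : 2 * (cell ζ S z).card ≤ (Fintype.piFinset (Bz B z)).card := by
          rw [hζ]
          omega
        have h4 : (2 : ℝ) * (cell ζ S z).card ≤ (Fintype.piFinset (Bz B z)).card := by
          exact_mod_cast h3
        linarith
      have hF0 : (0 : ℝ) ≤ (cell ζ S z).card := Nat.cast_nonneg _
      have h5 : c / 2 * ((cell ζ S z).card : ℝ) - ∑ A, (if Disjoint (bad B z) A then P A else 0)
          * tt (Bz B z) (cell ζ S z) A ≤ Df P p (cell ζ S z) := by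
        refine le_trans ?_ hsec
        have h6 : c / 2 * ((cell ζ S z).card : ℝ) ≤ c * ((1 - ((cell ζ S z).card : ℝ)
            / (Fintype.piFinset (Bz B z)).card) * (cell ζ S z).card) := by
          have h7 : 1 / 2 * ((cell ζ S z).card : ℝ) ≤ (1 - ((cell ζ S z).card : ℝ)
            / (Fintype.piFinset (Bz B z)).card) * (cell ζ S z).card :=
            mul_le_mul_of_nonneg_right (by linarith) hF0
          have h8 := mul_le_mul_of_nonneg_left h7 hc0.le
          linarith
        linarith
      have hl0 : 0 ≤ l := by rw [hl]; positivity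
      have hl1 : l ≤ 1 := by rw [hl]; linarith
      have h9 := mul_le_mul_of_nonneg_left h5 hl0
      have h10 : l * Df P p (cell ζ S z) ≤ 1 * Df P p (cell ζ S z) :=
        mul_le_mul_of_nonneg_right hl1 hD0
      linarith
    · exact hD0
  have hsumc := sum_le_sum hcell
  -- the number of points
  have hO1 : ((O1 S B).card : ℝ) = ∑ z ∈ I, (if Q z then ((cell ζ S z).card : ℝ) else 0) := by
    have h1 : (O1 S B).card = ∑ z ∈ I, ((O1 S B).filter
        (fun x => mask univ (Zm ζ x) = z)).card := by
      apply card_eq_sum_card_fiberwise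
      intro x hx
      have hxS : x ∈ S := (mem_sdiff.mp (mem_filter.mp hx).1).1
      exact mem_image_of_mem _ hxS
    rw [h1]
    push_cast
    apply sum_congr rfl
    intro z hz
    split_ifs with hzz
    · congr 2
      ext x
      unfold cell
      rw [mem_filter, mem_filter]
      constructor
      · rintro ⟨h2, h3⟩
        exact ⟨(mem_sdiff.mp (mem_filter.mp h2).1).1, h3⟩
      · rintro ⟨h2, h3⟩
        have h4 : (bad B x).card = 1 := by
          rw [mask_univ] at h3
          rw [← bad_Zm hb x, ← hζ, h3]; exact hzz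
        refine ⟨mem_filter.mpr ⟨mem_sdiff.mpr ⟨h2, fun h5 => ?_⟩, h4⟩, h3⟩
        rw [bad_empty.mpr h5, card_empty] at h4
        exact zero_ne_one h4
    · have : (O1 S B).filter (fun x => mask univ (Zm ζ x) = z) = ∅ := by
        rw [eq_empty_iff_forall_notMem]
        intro x hx
        obtain ⟨h2, h3⟩ := mem_filter.mp hx
        have h4 := (mem_filter.mp h2).2
        rw [mask_univ] at h3
        rw [← bad_Zm hb x, ← hζ, h3] at h4
        exact hzz h4
      rw [this]; simp
  rw [hO1, mul_sum]
  have hfinal : ∑ z ∈ I, c ^ 2 / 32 * (if Q z then ((cell ζ S z).card : ℝ) else 0)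
      ≤ ∑ z ∈ I, ((if Q z then (l * (c / 2 * (cell ζ S z).card
        - ∑ A, (if Disjoint (bad B z) A then P A else 0) * tt (Bz B z) (cell ζ S z) A)) else 0)
        + (if Q z then (l * ∑ A, (if Disjoint (bad B z) A then P A else 0)
          * tt (Bz B z) (cell ζ S z) A - κ * (cell ζ S z).card) else 0)) := by
    apply sum_le_sum
    intro z _
    split_ifs
    · rw [hκ, hl]
      apply le_of_eq
      ring
    · simp
  rw [sum_add_distrib] at hfinal
  linarith

end Pool.Agent.W211
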