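import Mathlib

/-! The graph `K_{1,p} ∪ q K_2` on `Fin (p + 1 + 2 * q)`. -/

set_option autoImplicit false
open scoped Classical

namespace Pool.Agent.W211.ZSF

open Finset

/-- `rel p q u v`: `u` is the smaller neighbour of `v`. -/
def rel (p q : ℕ) (u v : Fin (p + 1 + 2 * q)) : Prop :=
  (u.val = 0 ∧ 1 ≤ v.val ∧ v.val ≤ p) ∨ (p + q < v.val ∧ u.val + q = v.val)

theorem rel_lt {p q : ℕ} {u v : Fin (p + 1 + 2 * q)} (h : rel p q u v) : u < v := by
  have hu := u.2
  have hv := v.2
  rw [Fin.lt_def]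
  rcases h with h | h <;> omega

/-- The disjoint union of the star with `p` edges and a matching with `q` edges. -/
def Gr (p q : ℕ) : SimpleGraph (Fin (p + 1 + 2 * q)) where
  Adj u v := rel p q u v ∨ rel p q v u
  symm := ⟨fun _ _ h => h.elim Or.inr Or.inl⟩
  loopless := ⟨fun u h => by
    rcases h with h | h <;> exact absurd (rel_lt h) (lt_irrefl _)⟩

theorem adj_iff {p q : ℕ} {u v : Fin (p + 1 + 2 * q)} (huv : u < v) :
    (Gr p q).Adj u v ↔ rel p q u v := by
  constructor
  · rintro (h | h)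
    · exact h
    · exact absurd (rel_lt h) (not_lt_of_gt huv)
  · exact Or.inl

/-- vertices having a smaller neighbour -/
def D (p q : ℕ) : Finset (Fin (p + 1 + 2 * q)) :=
  univ.filter fun v => (1 ≤ v.val ∧ v.val ≤ p) ∨ p + q < v.val

/-- the smaller neighbour -/
def par (p q : ℕ) (v : Fin (p + 1 + 2 * q)) : Fin (p + 1 + 2 * q) :=
  ⟨if v.val ≤ p then 0 else v.val - q, by have := v.2; split_ifs <;> omega⟩

theorem rel_iff {p q : ℕ} {u v : Fin (p + 1 + 2 * q)} :
    rel p q u v ↔ v ∈ D p q ∧ u = par p q v := by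
  have hu := u.2
  have hv := v.2
  simp only [rel, D, par, mem_filter, mem_univ, true_and, Fin.ext_iff]
  split_ifs with h
  · constructor
    · rintro (h1 | h1)
      · exact ⟨Or.inl h1.2, h1.1⟩
      · omega
    · rintro ⟨h1 | h1, h2⟩
      · exact Or.inl ⟨h2, h1⟩
      · omega
  · constructor
    · rintro (h1 | h1)
      · omega
      · exact ⟨Or.inr h1.1, by omega⟩
    · rintro ⟨h1 | h1, h2⟩
      · omega
      · exact Or.inr ⟨h1, by omega⟩

theorem sum_adj {M : Type*} [AddCommMonoid M] (p q : ℕ)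
    (F : Fin (p + 1 + 2 * q) → Fin (p + 1 + 2 * q) → M) :
    (∑ u : Fin (p + 1 + 2 * q), ∑ v : Fin (p + 1 + 2 * q),
      (if u < v ∧ (Gr p q).Adj u v then F u v else 0)) = ∑ v ∈ D p q, F (par p q v) v := by
  rw [Finset.sum_comm, ← Finset.sum_filter_add_sum_filter_not univ (fun v => v ∈ D p q)]
  have h2 : (∑ v ∈ univ.filter (fun v => ¬ v ∈ D p q), ∑ u : Fin (p + 1 + 2 * q),
      (if u < v ∧ (Gr p q).Adj u v then F u v else 0)) = 0 := by
    refine Finset.sum_eq_zero fun v hv => Finset.sum_eq_zero fun u _ => ?_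
    rw [if_neg]
    rintro ⟨h, h'⟩
    rw [adj_iff h, rel_iff] at h'
    simp only [mem_filter, mem_univ, true_and] at hv
    exact hv h'.1
  rw [h2, add_zero]
  have h3 : univ.filter (fun v => v ∈ D p q) = D p q := by
    ext v; simp
  rw [h3]
  refine Finset.sum_congr rfl fun v hv => ?_
  rw [Finset.sum_eq_single (par p q v)]
  · rw [if_pos]
    have : rel p q (par p q v) v := rel_iff.2 ⟨hv, rfl⟩
    exact ⟨rel_lt this, Or.inl this⟩
  · intro u _ hu
    rw [if_neg]
    rintro ⟨h, h'⟩
    rw [adj_iff h, rel_iff] at h'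
    exact hu h'.2
  · intro h
    exact absurd (mem_univ _) h

theorem card_D (p q : ℕ) : (D p q).card = p + q := by
  have h1 : D p q = (Finset.univ : Finset (Fin (p + q))).image
      (fun i => if h : i.val < p then ⟨i.val + 1, by omega⟩ else ⟨i.val + q + 1, by omega⟩) := by
    ext v
    have hv := v.2
    simp only [D, mem_filter, mem_univ, true_and, mem_image]
    constructor
    · rintro (h | h)
      · refine ⟨⟨v.val - 1, by omega⟩, ?_⟩
        rw [dif_pos (by simp; omega)]
        apply Fin.ext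
        simp; omega
      · refine ⟨⟨v.val - q - 1, by omega⟩, ?_⟩
        rw [dif_neg (by simp; omega)]
        apply Fin.ext
        simp; omega
    · rintro ⟨i, hi⟩
      have hi2 := i.2
      split_ifs at hi with h
      · rw [← hi]; left; simp; omega
      · rw [← hi]; right; simp; omega
  rw [h1, Finset.card_image_of_injective, Finset.card_univ, Fintype.card_fin]
  intro i j hij
  apply Fin.ext
  dsimp only at hij
  split_ifs at hij with h h' h' <;> simp only [Fin.ext_iff] at hij <;> omega

theorem edgeSet_ncard (p q : ℕ) : (Gr p q).edgeSet.ncard = p + q := by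
  have h1 : (Gr p q).edgeSet = (fun v => s(par p q v, v)) '' (D p q : Set (Fin (p + 1 + 2 * q))) := by
    ext e
    induction e using Sym2.ind with
    | _ u v =>
      simp only [SimpleGraph.mem_edgeSet, Set.mem_image, mem_coe]
      constructor
      · rintro (h | h)
        · obtain ⟨h1, h2⟩ := rel_iff.1 h
          exact ⟨v, h1, by rw [h2]⟩
        · obtain ⟨h1, h2⟩ := rel_iff.1 h
          exact ⟨u, h1, by rw [h2, Sym2.eq_swap]⟩
      · rintro ⟨w, hw, hw2⟩
        have h3 : rel p q (par p q w) w := rel_iff.2 ⟨hw, rfl⟩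
        rw [Sym2.eq_iff] at hw2
        rcases hw2 with ⟨h4, h5⟩ | ⟨h4, h5⟩
        · rw [← h4, ← h5]; exact Or.inl h3
        · rw [← h4, ← h5]; exact Or.inr h3
  rw [h1, Set.InjOn.ncard_image, Set.ncard_coe_finset, card_D]
  intro v hv w hw hvw
  have hv' : rel p q (par p q v) v := rel_iff.2 ⟨hv, rfl⟩
  have hw' : rel p q (par p q w) w := rel_iff.2 ⟨hw, rfl⟩
  dsimp only at hvw
  rw [Sym2.eq_iff] at hvw
  rcases hvw with ⟨-, h⟩ | ⟨h4, h5⟩
  · exact h
  · have h6 := rel_lt hv'
    have h7 := rel_lt hw'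
    rw [h4] at h6
    rw [← h5] at h7
    exact absurd h6 (not_lt_of_gt h7)

theorem acyclic (p q : ℕ) : (Gr p q).IsAcyclic := by
  -- every vertex different from `0` has at most one neighbour
  have key : ∀ v x y : Fin (p + 1 + 2 * q), v.val ≠ 0 → (Gr p q).Adj v x → (Gr p q).Adj v y → x = y := by
    intro v x y hv hx hy
    have h1 := v.2
    have h2 := x.2
    have h3 := y.2
    apply Fin.ext
    simp only [Gr, rel] at hx hy
    omega
  intro v w hw
  have hcyc : ∀ u : Fin (p + 1 + 2 * q), u ∈ w.support → u.val = 0 := by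
    intro u hu
    by_contra hne
    have h1 := hw.ncard_neighborSet_toSubgraph_eq_two hu
    obtain ⟨x, y, hxy, hS⟩ := Set.ncard_eq_two.1 h1
    have hx : x ∈ w.toSubgraph.neighborSet u := by rw [hS]; simp
    have hy : y ∈ w.toSubgraph.neighborSet u := by rw [hS]; simp
    exact hxy (key u x y hne hx.adj_sub hy.adj_sub)
  have h1 : w.snd ∈ w.support := w.getVert_mem_support 1
  have h2 : (Gr p q).Adj v w.snd := w.adj_snd (by
    have := hw.three_le_length
    intro h
    rw [← SimpleGraph.Walk.length_eq_zero_iff] at h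
    omega)
  have h3 := hcyc v w.start_mem_support
  have h4 := hcyc _ h1
  exact h2.ne (Fin.ext (h3.trans h4.symm))

end Pool.Agent.W211.ZSF
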