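import Pool.Agent.W211.ZSG

/-! Two-colour Ramsey number of `K_{1,13q} ∪ q K_2` is at most `27 q`. -/

set_option autoImplicit false
open scoped Classical

namespace Pool.Agent.W211.ZSF

open Finset

variable {V : Type} [Fintype V]

/-- neighbours of `x` in colour `b` -/
noncomputable def nb (c : Sym2 V → Bool) (b : Bool) (x : V) : Finset V :=
  univ.filter fun y => y ≠ x ∧ c s(x, y) = b

/-- a matching of colour `b` with `q` edges inside `W` -/
def Mat (c : Sym2 V → Bool) (b : Bool) (q : ℕ) (W : Finset V) : Prop :=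
  ∃ g h : Fin q → V, Function.Injective g ∧ Function.Injective h ∧ (∀ i j, g i ≠ h j) ∧
    (∀ i, g i ∈ W) ∧ (∀ i, h i ∈ W) ∧ ∀ i, c s(g i, h i) = b

/-- a copy of the graph `Gr p q` in colour `b` -/
def Copy (c : Sym2 V → Bool) (b : Bool) (p q : ℕ) : Prop :=
  ∃ f : Fin (p + 1 + 2 * q) → V, Function.Injective f ∧ ∀ u v, (Gr p q).Adj u v → c s(f u, f v) = b

theorem mk_copy {c : Sym2 V → Bool} {b : Bool} {p q : ℕ} {x : V} {L W : Finset V}
    (hx : x ∉ L) (hL : p ≤ L.card) (hc : ∀ y ∈ L, c s(x, y) = b) (hxW : x ∉ W)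
    (hLW : Disjoint L W) (hM : Mat c b q W) : Copy c b p q := by
  obtain ⟨g, h, hg, hh, hgh, hgW, hhW, hcM⟩ := hM
  let l : Fin p → V := fun i => (L.equivFin.symm (Fin.castLE hL i) : _)
  have hl : Function.Injective l := by
    intro i j hij
    exact Fin.castLE_injective hL (L.equivFin.symm.injective (Subtype.ext hij))
  have hlL : ∀ i, l i ∈ L := fun i => (L.equivFin.symm (Fin.castLE hL i)).2
  have hxl : ∀ i, x ≠ l i := fun i h => hx (h ▸ hlL i)
  have hxg : ∀ i, x ≠ g i := fun i h => hxW (h ▸ hgW i)
  have hxh : ∀ i, x ≠ h i := fun i h' => hxW (h' ▸ hhW i)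
  have hlg : ∀ i j, l i ≠ g j := fun i j h => Finset.disjoint_left.1 hLW (hlL i) (h ▸ hgW j)
  have hlh : ∀ i j, l i ≠ h j := fun i j h' => Finset.disjoint_left.1 hLW (hlL i) (h' ▸ hhW j)
  let f : Fin (p + 1 + 2 * q) → V := fun u =>
    if h0 : u.val = 0 then x else if h1 : u.val ≤ p then l ⟨u.val - 1, by omega⟩
    else if h2 : u.val ≤ p + q then g ⟨u.val - p - 1, by omega⟩
    else h ⟨u.val - p - q - 1, by have := u.2; omega⟩
  refine ⟨f, ?_, ?_⟩
  · intro u v huv
    apply Fin.ext
    simp only [f] at huv
    split_ifs at huv with a1 a2 a3 a4 a5 a6 a7 a8 a9 a10 a11 a12 a13 a14 a15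
    all_goals first
      | omega
      | exact absurd huv (hxl _)
      | exact absurd huv.symm (hxl _)
      | exact absurd huv (hxg _)
      | exact absurd huv.symm (hxg _)
      | exact absurd huv (hxh _)
      | exact absurd huv.symm (hxh _)
      | exact absurd huv (hlg _ _)
      | exact absurd huv.symm (hlg _ _)
      | exact absurd huv (hlh _ _)
      | exact absurd huv.symm (hlh _ _)
      | exact absurd huv (hgh _ _)
      | exact absurd huv.symm (hgh _ _)
      | (have h9 := hl huv; simp only [Fin.mk.injEq] at h9; omega)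
      | (have h9 := hg huv; simp only [Fin.mk.injEq] at h9; omega)
      | (have h9 := hh huv; simp only [Fin.mk.injEq] at h9; omega)
  · have key : ∀ u v, rel p q u v → c s(f u, f v) = b := by
      intro u v huv
      rcases huv with ⟨h0, h1, h2⟩ | ⟨h1, h2⟩
      · have e1 : f u = x := by simp only [f]; rw [dif_pos h0]
        have e2 : f v = l ⟨v.val - 1, by omega⟩ := by
          simp only [f]; rw [dif_neg (by omega), dif_pos h2]
        rw [e1, e2]
        exact hc _ (hlL _)
      · have hv := v.2
        have e1 : f u = g ⟨u.val - p - 1, by omega⟩ := by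
          simp only [f]; rw [dif_neg (by omega), dif_neg (by omega), dif_pos (by omega)]
        have e2 : f v = h ⟨u.val - p - 1, by omega⟩ := by
          simp only [f]; rw [dif_neg (by omega), dif_neg (by omega), dif_neg (by omega)]
          congr 1
          apply Fin.ext
          simp only; omega
        rw [e1, e2]
        exact hcM _
    intro u v huv
    rcases huv with h | h
    · exact key u v h
    · rw [Sym2.eq_swap]; exact key v u h

theorem mat_mono {c : Sym2 V → Bool} {b : Bool} {q : ℕ} {W W' : Finset V} (h : W ⊆ W')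
    (hM : Mat c b q W) : Mat c b q W' := by
  obtain ⟨g, h', hg, hh, hgh, hgW, hhW, hcM⟩ := hM
  exact ⟨g, h', hg, hh, hgh, fun i => h (hgW i), fun i => h (hhW i), hcM⟩

theorem mat_or_clique (c : Sym2 V → Bool) (b : Bool) (q : ℕ) : ∀ W : Finset V,
    Mat c b q W ∨ ∃ K ⊆ W, W.card + 2 ≤ K.card + 2 * q ∧ ∀ x ∈ K, ∀ y ∈ K, x ≠ y → c s(x, y) = !b := by
  induction q with
  | zero =>
    intro W
    left
    exact ⟨Fin.elim0, Fin.elim0, fun i => i.elim0, fun i => i.elim0, fun i => i.elim0, fun i => i.elim0,
      fun i => i.elim0, fun i => i.elim0⟩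
  | succ q ih =>
    intro W
    by_cases hE : ∃ x ∈ W, ∃ y ∈ W, x ≠ y ∧ c s(x, y) = b
    · obtain ⟨x, hx, y, hy, hxy, hc⟩ := hE
      have hcard : ((W.erase x).erase y).card + 2 = W.card := by
        rw [Finset.card_erase_of_mem (Finset.mem_erase.2 ⟨hxy.symm, hy⟩), Finset.card_erase_of_mem hx]
        have h1 : 2 ≤ W.card := by
          have : ({x, y} : Finset V) ⊆ W := by
            intro z hz
            simp only [mem_insert, mem_singleton] at hz
            rcases hz with rfl | rfl <;> assumption
          have h2 := Finset.card_le_card this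
          rwa [Finset.card_pair hxy] at h2
        omega
      rcases ih ((W.erase x).erase y) with hM | ⟨K, hK, hKc, hKq⟩
      · left
        obtain ⟨g, h, hg, hh, hgh, hgW, hhW, hcM⟩ := hM
        have hgW' : ∀ i, g i ≠ x ∧ g i ≠ y ∧ g i ∈ W := fun i => by
          have := hgW i
          simp only [mem_erase] at this
          exact ⟨this.2.1, this.1, this.2.2⟩
        have hhW' : ∀ i, h i ≠ x ∧ h i ≠ y ∧ h i ∈ W := fun i => by
          have := hhW i
          simp only [mem_erase] at this
          exact ⟨this.2.1, this.1, this.2.2⟩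
        refine ⟨Fin.cons x g, Fin.cons y h, ?_, ?_, ?_, ?_, ?_, ?_⟩
        · rw [Fin.cons_injective_iff]
          exact ⟨fun ⟨i, hi⟩ => (hgW' i).1 hi, hg⟩
        · rw [Fin.cons_injective_iff]
          exact ⟨fun ⟨i, hi⟩ => (hhW' i).2.1 hi, hh⟩
        · intro i j
          refine Fin.cases ?_ (fun i => ?_) i
          · refine Fin.cases ?_ (fun j => ?_) j
            · simpa using hxy
            · simpa using (hhW' j).1.symm
          · refine Fin.cases ?_ (fun j => ?_) j
            · simpa using (hgW' i).2.1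
            · simpa using hgh i j
        · intro i
          refine Fin.cases ?_ (fun i => ?_) i
          · simpa using hx
          · simpa using (hgW' i).2.2
        · intro i
          refine Fin.cases ?_ (fun i => ?_) i
          · simpa using hy
          · simpa using (hhW' i).2.2
        · intro i
          refine Fin.cases ?_ (fun i => ?_) i
          · simpa using hc
          · simpa using hcM i
      · right
        refine ⟨K, hK.trans ((Finset.erase_subset _ _).trans (Finset.erase_subset _ _)), by omega, hKq⟩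
    · right
      refine ⟨W, Subset.rfl, by omega, fun x hx y hy hxy => ?_⟩
      by_contra h
      exact hE ⟨x, hx, y, hy, hxy, by
        cases hb : b <;> cases hcc : c s(x, y) <;> simp_all⟩

theorem mat_of_clique {c : Sym2 V → Bool} {b : Bool} {q : ℕ} {K : Finset V} (hq : 1 ≤ q)
    (hK : ∀ x ∈ K, ∀ y ∈ K, x ≠ y → c s(x, y) = b) (hc : 2 * q ≤ K.card) : Mat c b q K := by
  rcases mat_or_clique c b q K with h | ⟨K', hK', hKc, hKq⟩
  · exact h
  · exfalso
    have h1 : 1 < K'.card := by omega
    obtain ⟨x, hx, y, hy, hxy⟩ := Finset.one_lt_card.1 h1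
    have h2 := hKq x hx y hy hxy
    have h3 := hK x (hK' hx) y (hK' hy) hxy
    rw [h3] at h2
    cases b <;> simp at h2

theorem copy_of_clique {c : Sym2 V → Bool} {b : Bool} {p q : ℕ} {K : Finset V} (hq : 1 ≤ q)
    (hK : ∀ x ∈ K, ∀ y ∈ K, x ≠ y → c s(x, y) = b) (hc : p + 1 + 2 * q ≤ K.card) : Copy c b p q := by
  obtain ⟨W, hW, hWc⟩ := Finset.exists_subset_card_eq (show 2 * q ≤ K.card by omega)
  have h1 : (K \ W).card = K.card - 2 * q := by rw [Finset.card_sdiff_of_subset hW, hWc]
  obtain ⟨x, hx⟩ : (K \ W).Nonempty := by rw [← Finset.card_pos]; omega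
  have hx' := Finset.mem_sdiff.1 hx
  refine mk_copy (x := x) (L := (K \ W).erase x) (W := W) (by simp) ?_ ?_ hx'.2 ?_
    (mat_of_clique hq (fun x hx y hy => hK x (hW hx) y (hW hy)) hWc.ge)
  · rw [Finset.card_erase_of_mem hx]; omega
  · intro y hy
    have h2 := Finset.mem_erase.1 hy
    exact hK x hx'.1 y (Finset.mem_sdiff.1 h2.2).1 h2.1.symm
  · exact Disjoint.mono_left (Finset.erase_subset _ _) Finset.sdiff_disjoint

theorem copy_of_degree {c : Sym2 V → Bool} {b : Bool} {p q : ℕ} {x : V}
    (hd : p + 2 * q ≤ (nb c b x).card) (hM : Mat c b q (univ.erase x)) : Copy c b p q := by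
  obtain ⟨g, h, hg, hh, hgh, hgW, hhW, hcM⟩ := hM
  set T : Finset V := univ.image g ∪ univ.image h with hT
  have hTc : T.card ≤ 2 * q := by
    calc T.card ≤ (univ.image g).card + (univ.image h).card := Finset.card_union_le _ _
      _ ≤ q + q := by
        refine Nat.add_le_add ?_ ?_
        · exact Finset.card_image_le.trans (by simp)
        · exact Finset.card_image_le.trans (by simp)
      _ = 2 * q := by ring
  have hxT : x ∉ T := by
    simp only [hT, mem_union, mem_image, mem_univ, true_and, not_or, not_exists]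
    refine ⟨fun i hi => ?_, fun i hi => ?_⟩
    · exact (Finset.mem_erase.1 (hgW i)).1 hi
    · exact (Finset.mem_erase.1 (hhW i)).1 hi
  refine mk_copy (x := x) (L := nb c b x \ T) (W := T) ?_ ?_ ?_ hxT Finset.sdiff_disjoint
    ⟨g, h, hg, hh, hgh, fun i => ?_, fun i => ?_, hcM⟩
  · simp [nb]
  · have := Finset.le_card_sdiff T (nb c b x)
    omega
  · intro y hy
    simp only [nb, mem_sdiff, mem_filter, mem_univ, true_and] at hy
    exact hy.1.2
  · simp [hT]
  · simp [hT]

theorem nb_card (c : Sym2 V → Bool) (b : Bool) (x : V) :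
    (nb c b x).card + (nb c (!b) x).card + 1 = Fintype.card V := by
  have h1 : nb c b x ∪ nb c (!b) x = univ.erase x := by
    ext y
    simp only [nb, mem_union, mem_filter, mem_univ, true_and, mem_erase, and_true]
    constructor
    · rintro (h | h) <;> exact h.1
    · intro h
      cases hb : b <;> cases hcc : c s(x, y) <;> simp_all
  have h2 : Disjoint (nb c b x) (nb c (!b) x) := by
    rw [Finset.disjoint_left]
    intro y h3 h4
    simp only [nb, mem_filter, mem_univ, true_and] at h3 h4
    rw [h3.2] at h4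
    cases b <;> simp at h4
  have h3 := Finset.card_union_of_disjoint h2
  rw [h1, Finset.card_erase_of_mem (mem_univ _), Finset.card_univ] at h3
  have h4 : 0 < Fintype.card V := Fintype.card_pos_iff.2 ⟨x⟩
  omega

end Pool.Agent.W211.ZSF
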