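import Pool.Agent.W211.ZST

/-! Two-colour Ramsey number of `K_{1,13q} ∪ q K_2` is at most `27 q`: the main argument. -/

set_option autoImplicit false
open scoped Classical

namespace Pool.Agent.W211.ZSF

open Finset

variable {V : Type} [Fintype V]

theorem mem_nb {c : Sym2 V → Bool} {b : Bool} {x y : V} : y ∈ nb c b x ↔ y ≠ x ∧ c s(x, y) = b := by
  simp [nb]

theorem two_colour (q : ℕ) (hq : 1 ≤ q) (hV : Fintype.card V = 27 * q) (c : Sym2 V → Bool) :
    ∃ b, Copy c b (13 * q) q := by
  by_contra hno
  push Not at hno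
  have hM : ∀ b x, Mat c b q (univ.erase x) := by
    intro b x
    rcases mat_or_clique c b q (univ.erase x) with h | ⟨K, -, hK, hKq⟩
    · exact h
    · exfalso
      refine hno (!b) (copy_of_clique hq hKq ?_)
      rw [Finset.card_erase_of_mem (mem_univ _), Finset.card_univ, hV] at hK
      omega
  have hdeg : ∀ b x, (nb c b x).card < 15 * q := by
    intro b x
    by_contra h
    exact hno b (copy_of_degree (by omega) (hM b x))
  have hdis : ∀ b x, Disjoint (nb c b x) (nb c (!b) x) := by
    intro b x
    rw [Finset.disjoint_left]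
    intro y h3 h4
    rw [mem_nb] at h3 h4
    rw [h3.2] at h4
    cases b <;> simp at h4
  obtain ⟨x0⟩ : Nonempty V := Fintype.card_pos_iff.1 (by omega)
  obtain ⟨b, hb⟩ : ∃ b, 13 * q ≤ (nb c b x0).card := by
    by_contra h
    push Not at h
    have h1 := h true
    have h2 := h false
    have h3 := nb_card c true x0
    simp only [Bool.not_true] at h3
    omega
  have hW := nb_card c b x0
  obtain ⟨K, hKW, hKc, hKq⟩ : ∃ K ⊆ nb c (!b) x0, (nb c (!b) x0).card + 2 ≤ K.card + 2 * q ∧
      ∀ x ∈ K, ∀ y ∈ K, x ≠ y → c s(x, y) = !b := by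
    rcases mat_or_clique c b q (nb c (!b) x0) with h | h
    · exfalso
      refine hno b (mk_copy (x := x0) (L := nb c b x0) (W := nb c (!b) x0) ?_ hb ?_ ?_ (hdis b x0) h)
      · simp [nb]
      · intro y hy; exact (mem_nb.1 hy).2
      · simp [nb]
    · exact h
  have hd0 := hdeg b x0
  obtain ⟨K1, hK1, hK1c⟩ := Finset.exists_subset_card_eq (show 10 * q + 2 ≤ K.card by omega)
  have hcl : ∀ x ∈ K1, ∀ y ∈ K1, x ≠ y → c s(x, y) = !b :=
    fun x hx y hy => hKq x (hK1 hx) y (hK1 hy)
  have hRK : ∀ w ∈ K1, Disjoint (nb c b w) K1 := by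
    intro w hw
    rw [Finset.disjoint_left]
    intro y hy hy1
    rw [mem_nb] at hy
    rw [hcl w hw y hy1 hy.1.symm] at hy
    cases b <;> simp at hy
  have hout : ∀ w ∈ K1, (nb c (!b) w \ K1).card + 2 ≤ 5 * q := by
    intro w hw
    have h1 : K1.erase w ⊆ nb c (!b) w := by
      intro y hy
      rw [mem_erase] at hy
      exact mem_nb.2 ⟨hy.1, hcl w hw y hy.2 hy.1.symm⟩
    have h2 : nb c (!b) w \ K1 ⊆ nb c (!b) w \ K1.erase w := by
      intro y hy
      rw [mem_sdiff] at hy ⊢
      exact ⟨hy.1, fun h => hy.2 (mem_of_mem_erase h)⟩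
    have h3 := Finset.card_le_card h2
    rw [Finset.card_sdiff_of_subset h1, Finset.card_erase_of_mem hw] at h3
    have h4 := hdeg (!b) w
    have h5 := Finset.card_le_card h1
    rw [Finset.card_erase_of_mem hw] at h5
    omega
  have hsmall : ∀ w ∈ K1, (nb c (!b) w).card < 13 * q := by
    intro w hw
    by_contra hge
    have hdw := nb_card c b w
    have hdw2 := hdeg (!b) w
    obtain ⟨Q, hQR, hQc, hQq⟩ : ∃ Q ⊆ nb c b w, (nb c b w).card + 2 ≤ Q.card + 2 * q ∧
        ∀ x ∈ Q, ∀ y ∈ Q, x ≠ y → c s(x, y) = b := by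
      rcases mat_or_clique c (!b) q (nb c b w) with h | h
      · exfalso
        refine hno (!b) (mk_copy (x := w) (L := nb c (!b) w) (W := nb c b w) ?_ (by omega) ?_ ?_
          (hdis b w).symm h)
        · simp [nb]
        · intro y hy; exact (mem_nb.1 hy).2
        · simp [nb]
      · simpa using h
    obtain ⟨Q1, hQ1, hQ1c⟩ := Finset.exists_subset_card_eq (show 10 * q + 2 ≤ Q.card by omega)
    have hQK : Disjoint Q1 K1 := (hRK w hw).mono_left (hQ1.trans hQR)
    have hu : ∀ u ∈ Q1, 5 * q + 4 ≤ (K1.filter (fun w' => c s(u, w') = !b)).card := by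
      intro u hu
      have h1 : Q1.erase u ∪ K1.filter (fun w' => c s(u, w') = b) ⊆ nb c b u := by
        intro y hy
        rw [mem_union, mem_erase, mem_filter] at hy
        rw [mem_nb]
        rcases hy with hy | hy
        · exact ⟨hy.1, hQq u (hQ1 hu) y (hQ1 hy.2) hy.1.symm⟩
        · refine ⟨?_, hy.2⟩
          rintro rfl
          exact Finset.disjoint_left.1 hQK hu hy.1
      have h2 : Disjoint (Q1.erase u) (K1.filter (fun w' => c s(u, w') = b)) :=
        (hQK.mono_left (Finset.erase_subset _ _)).mono_right (Finset.filter_subset _ _)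
      have h3 := Finset.card_le_card h1
      rw [Finset.card_union_of_disjoint h2, Finset.card_erase_of_mem hu, hQ1c] at h3
      have h4 := hdeg b u
      have h5 : (K1.filter (fun w' => c s(u, w') = b)).card +
          (K1.filter (fun w' => c s(u, w') = !b)).card = K1.card := by
        rw [← Finset.card_filter_add_card_filter_not (s := K1) (fun w' => c s(u, w') = b)]
        congr 2
        ext y
        simp only [mem_filter]
        refine and_congr_right fun _ => ?_
        cases b <;> cases c s(u, y) <;> simp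
      omega
    have hw' : ∀ w' ∈ K1, (Q1.filter (fun u => c s(u, w') = !b)).card + 2 ≤ 5 * q := by
      intro w' hw'
      have h1 : Q1.filter (fun u => c s(u, w') = !b) ⊆ nb c (!b) w' \ K1 := by
        intro y hy
        rw [mem_filter] at hy
        have h2 : y ∉ K1 := Finset.disjoint_left.1 hQK hy.1
        rw [mem_sdiff, mem_nb]
        refine ⟨⟨?_, ?_⟩, h2⟩
        · rintro rfl; exact h2 hw'
        · rw [Sym2.eq_swap]; exact hy.2
      have h2 := Finset.card_le_card h1
      have h3 := hout w' hw'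
      omega
    have hdc := Finset.sum_card_bipartiteAbove_eq_sum_card_bipartiteBelow (s := Q1) (t := K1)
      (fun u w' => c s(u, w') = !b)
    have hl : (10 * q + 2) * (5 * q + 4) ≤
        ∑ u ∈ Q1, (Finset.bipartiteAbove (fun u w' => c s(u, w') = !b) K1 u).card := by
      rw [← hQ1c, ← smul_eq_mul]
      exact Finset.card_nsmul_le_sum _ _ _ hu
    have hr : ∑ w' ∈ K1, (Finset.bipartiteBelow (fun u w' => c s(u, w') = !b) Q1 w').card ≤
        (10 * q + 2) * (5 * q - 2) := by
      rw [← hK1c, ← smul_eq_mul]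
      refine Finset.sum_le_card_nsmul _ _ _ fun w' h => ?_
      have := hw' w' h
      simp only [Finset.bipartiteBelow]
      omega
    rw [hdc] at hl
    have h1 := hl.trans hr
    have h2 := Nat.le_of_mul_le_mul_left h1 (by omega)
    omega
  -- the final copy
  obtain ⟨w0, hw0⟩ : K1.Nonempty := by rw [← Finset.card_pos]; omega
  have hbig : ∀ w ∈ K1, 14 * q ≤ (nb c b w).card := by
    intro w hw
    have h1 := nb_card c b w
    have h2 := hsmall w hw
    omega
  have hU : (univ \ K1 : Finset V).card + 10 * q + 2 = 27 * q := by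
    rw [Finset.card_sdiff_of_subset (Finset.subset_univ _), Finset.card_univ, hV, hK1c]
    omega
  have hsub : ∀ w ∈ K1, nb c b w ⊆ univ \ K1 := by
    intro w hw y hy
    rw [mem_sdiff]
    exact ⟨mem_univ _, Finset.disjoint_left.1 (hRK w hw) hy⟩
  have hec : q ≤ (K1.erase w0).card := by
    rw [Finset.card_erase_of_mem hw0]; omega
  let ws : Fin q → V := fun i => ((K1.erase w0).equivFin.symm (Fin.castLE hec i) : _)
  have hws : Function.Injective ws := by
    intro i j hij
    exact Fin.castLE_injective hec ((K1.erase w0).equivFin.symm.injective (Subtype.ext hij))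
  have hwsK : ∀ i, ws i ∈ K1.erase w0 := fun i => ((K1.erase w0).equivFin.symm (Fin.castLE hec i)).2
  have hwsK1 : ∀ i, ws i ∈ K1 := fun i => mem_of_mem_erase (hwsK i)
  have hinter : ∀ i, q ≤ (nb c b w0 ∩ nb c b (ws i)).card := by
    intro i
    have h1 := Finset.card_union_add_card_inter (nb c b w0) (nb c b (ws i))
    have h2 := Finset.card_le_card (Finset.union_subset (hsub w0 hw0) (hsub _ (hwsK1 i)))
    have h3 := hbig w0 hw0
    have h4 := hbig _ (hwsK1 i)
    omega
  obtain ⟨y, hy, hyt⟩ := (Finset.all_card_le_biUnion_card_iff_exists_injective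
    (fun i : Fin q => nb c b w0 ∩ nb c b (ws i))).1 (by
      intro s
      rcases s.eq_empty_or_nonempty with rfl | ⟨i, hi⟩
      · simp
      · calc s.card ≤ q := by simpa using Finset.card_le_univ s
          _ ≤ _ := hinter i
          _ ≤ _ := Finset.card_le_card (Finset.subset_biUnion_of_mem
            (fun i : Fin q => nb c b w0 ∩ nb c b (ws i)) hi))
  have hyU : ∀ i, y i ∉ K1 := by
    intro i
    have h1 := (Finset.mem_inter.1 (hyt i)).1
    exact Finset.disjoint_left.1 (hRK w0 hw0) h1
  refine hno b (mk_copy (x := w0) (L := nb c b w0 \ univ.image y)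
    (W := univ.image ws ∪ univ.image y) ?_ ?_ ?_ ?_ ?_
    ⟨ws, y, hws, hy, ?_, ?_, ?_, ?_⟩)
  · simp [nb]
  · have h1 := Finset.le_card_sdiff (univ.image y) (nb c b w0)
    have h2 : (univ.image y).card ≤ q := Finset.card_image_le.trans (by simp)
    have h3 := hbig w0 hw0
    omega
  · intro z hz
    exact (mem_nb.1 (mem_sdiff.1 hz).1).2
  · simp only [mem_union, mem_image, mem_univ, true_and, not_or, not_exists]
    refine ⟨fun i hi => ?_, fun i hi => ?_⟩
    · exact (mem_erase.1 (hwsK i)).1 hi
    · exact hyU i (hi ▸ hw0)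
  · rw [Finset.disjoint_left]
    intro z hz hz2
    rw [mem_sdiff] at hz
    rw [mem_union] at hz2
    rcases hz2 with h | h
    · simp only [mem_image, mem_univ, true_and] at h
      obtain ⟨i, rfl⟩ := h
      exact Finset.disjoint_left.1 (hRK w0 hw0) hz.1 (hwsK1 i)
    · exact hz.2 h
  · intro i j h
    exact hyU j (h ▸ hwsK1 i)
  · intro i; simp
  · intro i; simp
  · intro i
    exact (mem_nb.1 (Finset.mem_inter.1 (hyt i)).2).2

end Pool.Agent.W211.ZSF
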