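import Pool.Agent.W211.Sec

/-!
Decomposition of the deficit with respect to a coordinatewise coarsening.
-/

namespace Pool.Agent.W211

open Finset
open Pool.Agent.H488R3.UC

variable {n : ℕ}

theorem mask_eq_iff {A : Finset (Fin n)} {x y : Fin n → ℤ} :
    mask A x = mask A y ↔ ∀ i ∈ A, x i = y i := by
  unfold mask
  constructor
  · intro h i hi
    have := congrFun h i
    simpa [hi] using this
  · intro h
    funext i
    by_cases hi : i ∈ A
    · simp [hi, h i hi]
    · simp [hi]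

theorem mask_mask {A A' : Finset (Fin n)} (h : A ⊆ A') (x : Fin n → ℤ) :
    mask A (mask A' x) = mask A x := by
  rw [mask_eq_iff]
  intro i hi
  simp [mask, h hi]

theorem mask_univ (x : Fin n → ℤ) : mask univ x = x := by
  funext i; simp [mask]

theorem fc_eq_mask (A : Finset (Fin n)) (S : Finset (Fin n → ℤ)) (x : Fin n → ℤ) :
    fc A S x = (S.filter (fun y => mask A y = mask A x)).card := by
  unfold fc
  congr 1
  apply filter_congr
  intro y _
  rw [mask_eq_iff]
  exact ⟨fun h i hi => (h i hi).symm, fun h i hi => (h i hi).symm⟩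

/-- the coarsening -/
def Zm (ζ : Fin n → ℤ → ℤ) (x : Fin n → ℤ) : Fin n → ℤ := fun i => ζ i (x i)

/-- the number of points with the same coarse coordinates in `A` -/
def fz (ζ : Fin n → ℤ → ℤ) (A : Finset (Fin n)) (S : Finset (Fin n → ℤ)) (x : Fin n → ℤ) : ℕ :=
  (S.filter (fun y => mask A (Zm ζ y) = mask A (Zm ζ x))).card

/-- the number of points of the cell with the same coordinates in `A` -/
def fcell (ζ : Fin n → ℤ → ℤ) (A : Finset (Fin n)) (S : Finset (Fin n → ℤ))
    (x : Fin n → ℤ) : ℕ :=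
  (S.filter (fun y => mask univ (Zm ζ y) = mask univ (Zm ζ x) ∧ mask A y = mask A x)).card

theorem fz_pos {ζ : Fin n → ℤ → ℤ} {A : Finset (Fin n)} {S : Finset (Fin n → ℤ)}
    {x : Fin n → ℤ} (hx : x ∈ S) : 0 < fz ζ A S x :=
  card_pos.mpr ⟨x, mem_filter.mpr ⟨hx, rfl⟩⟩

/-- the scaled entropy of the coarse coordinates -/
noncomputable def HZ (ζ : Fin n → ℤ → ℤ) (S : Finset (Fin n → ℤ)) (A : Finset (Fin n)) : ℝ :=
  ∑ x ∈ S, (Real.log S.card - Real.log (fz ζ A S x))

noncomputable def HC (ζ : Fin n → ℤ → ℤ) (S : Finset (Fin n → ℤ)) (A : Finset (Fin n)) : ℝ :=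
  ∑ x ∈ S, (Real.log (fz ζ univ S x) - Real.log (fcell ζ A S x))

noncomputable def JZ (ζ : Fin n → ℤ → ℤ) (S : Finset (Fin n → ℤ)) (A : Finset (Fin n)) : ℝ :=
  ∑ x ∈ S, (Real.log (fz ζ A S x) - Real.log (fz ζ univ S x) - Real.log (fc A S x)
    + Real.log (fcell ζ A S x))

theorem hN_split (ζ : Fin n → ℤ → ℤ) (S : Finset (Fin n → ℤ)) (A : Finset (Fin n)) :
    hN S A = HZ ζ S A + HC ζ S A + JZ ζ S A := by
  unfold hN HZ HC JZ
  rw [← sum_add_distrib, ← sum_add_distrib]
  have : (S.card : ℝ) * Real.log S.card = ∑ x ∈ S, Real.log S.card := by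
    rw [sum_const, nsmul_eq_mul]
  rw [this, ← sum_sub_distrib]
  apply sum_congr rfl
  intro x _
  ring

theorem JZ_univ (ζ : Fin n → ℤ → ℤ) (S : Finset (Fin n → ℤ)) : JZ ζ S univ = 0 := by
  unfold JZ
  apply sum_eq_zero
  intro x hx
  have h1 : S.filter (fun y => mask univ y = mask univ x) = {x} := by
    ext y
    rw [mem_filter, mem_singleton, mask_univ, mask_univ]
    exact ⟨fun h => h.2, fun h => ⟨h ▸ hx, h⟩⟩
  have h2 : fc univ S x = 1 := by rw [fc_eq_mask, h1, card_singleton]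
  have h3 : fcell ζ univ S x = 1 := by
    unfold fcell
    rw [card_eq_one]
    refine ⟨x, ?_⟩
    ext y
    rw [mem_filter, mem_singleton, mask_univ, mask_univ, mask_univ, mask_univ]
    constructor
    · exact fun h => h.2.2
    · rintro rfl; exact ⟨hx, rfl, rfl⟩
  rw [h2, h3]
  ring

/-- the information term, with test events -/
theorem JZ_ge (ζ : Fin n → ℤ → ℤ) (S : Finset (Fin n → ℤ)) (A : Finset (Fin n))
    (l : (Fin n → ℤ) → ℝ) (E : (Fin n → ℤ) → (Fin n → ℤ) → Prop) [∀ v, DecidablePred (E v)]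
    (hE : ∀ v x y, mask A x = mask A y → (E v x ↔ E v y)) :
    ∑ v ∈ S.image (fun x => mask univ (Zm ζ x)),
      (l v * (S.filter (fun x => mask univ (Zm ζ x) = v ∧ E v x)).card
      - (Real.exp (l v) - 1) * (((S.filter (fun x => mask univ (Zm ζ x) = v)).card : ℝ)
        / (S.filter (fun x => mask A (Zm ζ x) = mask A v)).card)
        * (S.filter (fun x => mask A (Zm ζ x) = mask A v ∧ E v x)).card)
      ≤ JZ ζ S A := by
  have h := cmi S (fun x => mask A (Zm ζ x)) (fun x => mask univ (Zm ζ x)) (fun x => mask A x)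
    (fun v => mask A v) (fun x _ => by rw [mask_mask (subset_univ A)])
    (fun x _ y _ hxy => by
      rw [mask_eq_iff] at hxy ⊢
      intro i hi
      unfold Zm
      rw [hxy i hi]) l E hE
  refine h.trans (le_of_eq ?_)
  unfold JZ fz fcell
  simp only [fc_eq_mask]

theorem JZ_nonneg (ζ : Fin n → ℤ → ℤ) (S : Finset (Fin n → ℤ)) (A : Finset (Fin n)) :
    0 ≤ JZ ζ S A := by
  have h := JZ_ge ζ S A (fun _ => 0) (fun _ _ => False) (fun _ _ _ _ => Iff.rfl)
  simpa using h

/-- a cell of the coarsening -/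
def cell (ζ : Fin n → ℤ → ℤ) (S : Finset (Fin n → ℤ)) (v : Fin n → ℤ) :
    Finset (Fin n → ℤ) := S.filter (fun x => mask univ (Zm ζ x) = v)

theorem HC_eq (ζ : Fin n → ℤ → ℤ) (S : Finset (Fin n → ℤ)) (A : Finset (Fin n)) :
    HC ζ S A = ∑ v ∈ S.image (fun x => mask univ (Zm ζ x)), hN (cell ζ S v) A := by
  unfold HC
  have hm : ∀ x ∈ S, mask univ (Zm ζ x) ∈ S.image (fun x => mask univ (Zm ζ x)) :=
    fun x hx => mem_image_of_mem _ hx
  rw [← sum_fiberwise_of_maps_to hm]
  apply sum_congr rfl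
  intro v _
  unfold hN
  have : ((cell ζ S v).card : ℝ) * Real.log (cell ζ S v).card
      = ∑ x ∈ cell ζ S v, Real.log (cell ζ S v).card := by
    rw [sum_const, nsmul_eq_mul]
  rw [this, ← sum_sub_distrib]
  apply sum_congr rfl
  intro x hx
  have hxv := (mem_filter.mp hx).2
  have e1 : fz ζ univ S x = (cell ζ S v).card := by
    unfold fz cell
    rw [hxv]
  have e2 : fcell ζ A S x = fc A (cell ζ S v) x := by
    rw [fc_eq_mask]
    unfold fcell cell
    rw [filter_filter, hxv]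
  rw [e1, e2]

/-- the deficit of the coarsening -/
noncomputable def DZ (ζ : Fin n → ℤ → ℤ) (P : Finset (Fin n) → ℝ) (p : ℝ)
    (S : Finset (Fin n → ℤ)) : ℝ := ∑ A, P A * HZ ζ S A - p * HZ ζ S univ

theorem Df_split (ζ : Fin n → ℤ → ℤ) (P : Finset (Fin n) → ℝ) (p : ℝ)
    (S : Finset (Fin n → ℤ)) :
    Df P p S = DZ ζ P p S
      + ∑ v ∈ S.image (fun x => mask univ (Zm ζ x)), Df P p (cell ζ S v)
      + ∑ A, P A * JZ ζ S A := by
  have h1 : ∑ v ∈ S.image (fun x => mask univ (Zm ζ x)), Df P p (cell ζ S v)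
      = ∑ A, P A * HC ζ S A - p * HC ζ S univ := by
    unfold Df
    rw [sum_sub_distrib, sum_comm, ← mul_sum, ← HC_eq]
    congr 1
    apply sum_congr rfl
    intro A _
    rw [← mul_sum, ← HC_eq]
  rw [h1]
  unfold Df DZ
  rw [hN_split ζ S univ, JZ_univ]
  have h2 : ∑ A, P A * hN S A = ∑ A, P A * HZ ζ S A + ∑ A, P A * HC ζ S A
      + ∑ A, P A * JZ ζ S A := by
    rw [← sum_add_distrib, ← sum_add_distrib]
    apply sum_congr rfl
    intro A _
    rw [hN_split ζ S A]
    ring
  rw [h2]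
  ring

theorem HZ_empty (ζ : Fin n → ℤ → ℤ) (S : Finset (Fin n → ℤ)) : HZ ζ S ∅ = 0 := by
  unfold HZ
  apply sum_eq_zero
  intro x _
  have : fz ζ ∅ S x = S.card := by
    unfold fz
    rw [filter_true_of_mem]
    intro y _
    rw [mask_eq_iff]
    intro i hi
    simp at hi
  rw [this, sub_self]

/-- one term of the remainder -/
theorem brace_ge (ζ : Fin n → ℤ → ℤ) (S : Finset (Fin n → ℤ)) (j : Fin n) (A' : Finset (Fin n))
    (hA' : A' ⊆ pre j.val)
    (l : (Fin n → ℤ) → ℝ) (E : (Fin n → ℤ) → (Fin n → ℤ) → Prop) [∀ v, DecidablePred (E v)]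
    (hE : ∀ v x y, mask (pre j.val) (Zm ζ x) = mask (pre j.val) (Zm ζ y) → (E v x ↔ E v y)) :
    ∑ v ∈ S.image (fun x => mask (insert j A') (Zm ζ x)),
      (l v * (S.filter (fun x => mask (insert j A') (Zm ζ x) = v ∧ E v x)).card
      - (Real.exp (l v) - 1) * (((S.filter (fun x => mask (insert j A') (Zm ζ x) = v)).card : ℝ)
        / (S.filter (fun x => mask A' (Zm ζ x) = mask A' v)).card)
        * (S.filter (fun x => mask A' (Zm ζ x) = mask A' v ∧ E v x)).card)
      ≤ (HZ ζ S (insert j A') - HZ ζ S A') - (HZ ζ S (insert j (pre j.val)) - HZ ζ S (pre j.val)) := by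
  have h := cmi S (fun x => mask A' (Zm ζ x)) (fun x => mask (insert j A') (Zm ζ x))
    (fun x => mask (pre j.val) (Zm ζ x))
    (fun v => mask A' v) (fun x _ => by rw [mask_mask (subset_insert j A')])
    (fun x _ y _ hxy => by
      rw [mask_eq_iff] at hxy ⊢
      intro i hi
      exact hxy i (hA' hi)) l E hE
  refine h.trans (le_of_eq ?_)
  have e1 : ∀ x, S.filter (fun y => mask (insert j A') (Zm ζ y) = mask (insert j A') (Zm ζ x)
      ∧ mask (pre j.val) (Zm ζ y) = mask (pre j.val) (Zm ζ x))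
      = S.filter (fun y => mask (insert j (pre j.val)) (Zm ζ y)
        = mask (insert j (pre j.val)) (Zm ζ x)) := by
    intro x
    apply filter_congr
    intro y _
    rw [mask_eq_iff, mask_eq_iff, mask_eq_iff]
    constructor
    · rintro ⟨h1, h2⟩ i hi
      rcases mem_insert.mp hi with h3 | h3
      · subst h3; exact h1 i (mem_insert_self _ _)
      · exact h2 i h3
    · intro h1
      refine ⟨fun i hi => ?_, fun i hi => h1 i (mem_insert_of_mem hi)⟩
      rcases mem_insert.mp hi with h3 | h3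
      · subst h3; exact h1 i (mem_insert_self _ _)
      · exact h1 i (mem_insert_of_mem (hA' h3))
  simp only [e1]
  unfold HZ fz
  rw [← sum_sub_distrib, ← sum_sub_distrib, ← sum_sub_distrib]
  apply sum_congr rfl
  intro x _
  ring

theorem DZ_rem (ζ : Fin n → ℤ → ℤ) (P : Finset (Fin n) → ℝ) (p : ℝ)
    (hcov : ∀ i, ∑ A, (if i ∈ A then P A else 0) = p) (S : Finset (Fin n → ℤ)) :
    DZ ζ P p S = ∑ A : Finset (Fin n), P A * ∑ j : Fin n, if j ∈ A then
      ((HZ ζ S (insert j (A ∩ pre j.val)) - HZ ζ S (A ∩ pre j.val))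
        - (HZ ζ S (insert j (pre j.val)) - HZ ζ S (pre j.val))) else 0 :=
  shear_rem (HZ ζ S) (HZ_empty ζ S) P p hcov

theorem DZ_nonneg (ζ : Fin n → ℤ → ℤ) (P : Finset (Fin n) → ℝ) (hP : ∀ A, 0 ≤ P A) (p : ℝ)
    (hcov : ∀ i, ∑ A, (if i ∈ A then P A else 0) = p) (S : Finset (Fin n → ℤ)) :
    0 ≤ DZ ζ P p S := by
  rw [DZ_rem ζ P p hcov S]
  apply sum_nonneg
  intro A _
  apply mul_nonneg (hP A)
  apply sum_nonneg
  intro j _
  split_ifs
  · have h := brace_ge ζ S j (A ∩ pre j.val) inter_subset_right (fun _ => 0) (fun _ _ => False)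
      (fun _ _ _ _ => Iff.rfl)
    simpa using h
  · exact le_refl _

/-- the binary coarsening with respect to a box -/
def bz (B : Fin n → Finset ℤ) : Fin n → ℤ → ℤ := fun i v => if v ∈ B i then 0 else 1

theorem bz_good {B : Fin n → Finset ℤ} {A : Finset (Fin n)} {x : Fin n → ℤ} :
    mask A (Zm (bz B) x) = 0 ↔ ∀ i ∈ A, x i ∈ B i := by
  constructor
  · intro h i hi
    have h1 := congrFun h i
    simp only [mask, hi, if_true, Zm, bz, Pi.zero_apply] at h1
    by_contra h2
    rw [if_neg h2] at h1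
    exact one_ne_zero h1
  · intro h
    funext i
    simp only [mask, Zm, bz, Pi.zero_apply]
    by_cases hi : i ∈ A
    · simp [hi, h i hi]
    · simp [hi]

theorem cell_zero (B : Fin n → Finset ℤ) (S : Finset (Fin n → ℤ)) :
    cell (bz B) S 0 = S ∩ Fintype.piFinset B := by
  ext x
  unfold cell
  rw [mem_filter, mem_inter, bz_good, Fintype.mem_piFinset]
  simp

theorem Df_empty (P : Finset (Fin n) → ℝ) (p : ℝ) : Df P p ∅ = 0 := by
  unfold Df hN; simp

/-- the deficit decreases when a set is intersected with a box -/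
theorem restr (P : Finset (Fin n) → ℝ) (hP : ∀ A, 0 ≤ P A) (p : ℝ)
    (hcov : ∀ i, ∑ A, (if i ∈ A then P A else 0) = p) (S : Finset (Fin n → ℤ))
    (B : Fin n → Finset ℤ) : Df P p (S ∩ Fintype.piFinset B) ≤ Df P p S := by
  have h1 := Df_split (bz B) P p S
  have h2 := DZ_nonneg (bz B) P hP p hcov S
  have h3 : 0 ≤ ∑ A, P A * JZ (bz B) S A :=
    sum_nonneg (fun A _ => mul_nonneg (hP A) (JZ_nonneg _ _ _))
  have h4 : Df P p (S ∩ Fintype.piFinset B)
      ≤ ∑ v ∈ S.image (fun x => mask univ (Zm (bz B) x)), Df P p (cell (bz B) S v) := by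
    rw [← cell_zero]
    by_cases h : (0 : Fin n → ℤ) ∈ S.image (fun x => mask univ (Zm (bz B) x))
    · exact single_le_sum (f := fun v => Df P p (cell (bz B) S v))
        (fun v _ => Df_nonneg P hP p hcov _) h
    · have h5 : cell (bz B) S 0 = ∅ := by
        rw [eq_empty_iff_forall_notMem]
        intro x hx
        obtain ⟨h6, h7⟩ := mem_filter.mp hx
        exact h (mem_image.mpr ⟨x, h6, h7⟩)
      rw [h5, Df_empty]
      exact sum_nonneg (fun v _ => Df_nonneg P hP p hcov _)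
  linarith

end Pool.Agent.W211
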